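import Mathlib

set_option autoImplicit false

open MeasureTheory intervalIntegral Set Filter Topology

namespace H64.Ray

/-- The ambient Euclidean three-space. -/
abbrev E3 := EuclideanSpace ℝ (Fin 3)

/-- Bilinear forms on `E3`. -/
abbrev Bil := E3 →L[ℝ] (E3 →L[ℝ] ℝ)

/-- Local minimality of a curve `c` near the parameter `t` (the clause of the frozen statement). -/
def LocMinAt (G : E3 → Bil) (D : Set ℝ) (c : ℝ → E3) (t : ℝ) : Prop :=
  ∃ ε > (0:ℝ), ∀ s₁ ∈ D, ∀ s₂ ∈ D, t - ε < s₁ → s₁ ≤ s₂ → s₂ < t + ε →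
    (∀ σ : ℝ → E3, ContDiff ℝ 1 σ →
        (∀ u ∈ Set.Icc (0:ℝ) 1, σ u ∈ Metric.sphere (0 : E3) 1) →
        σ 0 = c s₁ → σ 1 = c s₂ →
        s₂ - s₁ ≤ ∫ u in (0:ℝ)..1, Real.sqrt (G (σ u) (deriv σ u) (deriv σ u))) ∧
    (∀ δ > (0:ℝ), ∃ σ : ℝ → E3, ContDiff ℝ 1 σ ∧
        (∀ u ∈ Set.Icc (0:ℝ) 1, σ u ∈ Metric.sphere (0 : E3) 1) ∧
        σ 0 = c s₁ ∧ σ 1 = c s₂ ∧
        (∫ u in (0:ℝ)..1, Real.sqrt (G (σ u) (deriv σ u) (deriv σ u))) < s₂ - s₁ + δ)

lemma tangent_of_sphere {σ : ℝ → E3} (hσ : ContDiff ℝ 1 σ)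
    (hS : ∀ u ∈ Set.Icc (0:ℝ) 1, σ u ∈ Metric.sphere (0 : E3) 1) {u : ℝ} (hu : u ∈ Ioo (0:ℝ) 1) :
    inner ℝ (σ u) (deriv σ u) = (0:ℝ) := by
  have hd : HasDerivAt σ (deriv σ u) u :=
    (hσ.differentiable (by norm_num) u).hasDerivAt
  have h1 : HasDerivAt (fun x => inner ℝ (σ x) (σ x))
      (inner ℝ (σ u) (deriv σ u) + inner ℝ (deriv σ u) (σ u)) u := hd.inner ℝ hd
  have h2 : HasDerivAt (fun x => (inner ℝ (σ x) (σ x) : ℝ)) 0 u := by
    have : (fun x => (inner ℝ (σ x) (σ x) : ℝ)) =ᶠ[𝓝 u] fun _ => (1:ℝ) := by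
      filter_upwards [Ioo_mem_nhds hu.1 hu.2] with x hx
      have := hS x ⟨hx.1.le, hx.2.le⟩
      rw [mem_sphere_zero_iff_norm] at this
      rw [real_inner_self_eq_norm_sq, this]; norm_num
    exact (hasDerivAt_const u (1:ℝ)).congr_of_eventuallyEq this
  have h3 := h1.unique h2
  rw [real_inner_comm (σ u) (deriv σ u)] at h3
  have : (inner ℝ (deriv σ u) (σ u) : ℝ) = inner ℝ (σ u) (deriv σ u) := real_inner_comm _ _
  linarith

lemma exists_low (G : E3 → Bil) (hG : Continuous G)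
    (hpos : ∀ x ∈ Metric.sphere (0 : E3) 1, ∀ v : E3, inner ℝ x v = (0:ℝ) → v ≠ 0 → 0 < G x v v) :
    ∃ m > (0:ℝ), ∀ x ∈ Metric.sphere (0 : E3) 1, ∀ v : E3, inner ℝ x v = (0:ℝ) →
      m ^ 2 * ‖v‖ ^ 2 ≤ G x v v := by
  classical
  set K : Set (E3 × E3) := {q | q.1 ∈ Metric.sphere (0 : E3) 1 ∧ q.2 ∈ Metric.sphere (0 : E3) 1 ∧
    inner ℝ q.1 q.2 = (0:ℝ)} with hK
  have hKc : IsCompact K := by
    have h1 : IsCompact (Metric.sphere (0 : E3) 1 ×ˢ Metric.sphere (0 : E3) 1) :=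
      (isCompact_sphere _ _).prod (isCompact_sphere _ _)
    refine h1.of_isClosed_subset ?_ ?_
    · have : K = (Metric.sphere (0 : E3) 1 ×ˢ Metric.sphere (0 : E3) 1) ∩
          {q : E3 × E3 | inner ℝ q.1 q.2 = (0:ℝ)} := by
        ext q; simp [hK, and_assoc]
      rw [this]
      exact h1.isClosed.inter (isClosed_eq (by fun_prop) continuous_const)
    · intro q hq
      exact ⟨hq.1, hq.2.1⟩
  have hcont : Continuous (fun q : E3 × E3 => G q.1 q.2 q.2) := by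
    have h1 : Continuous (fun q : E3 × E3 => G q.1) := hG.comp continuous_fst
    exact (h1.clm_apply continuous_snd).clm_apply continuous_snd
  by_cases hne : K.Nonempty
  · obtain ⟨q, hq, hmin⟩ := hKc.exists_isMinOn hne hcont.continuousOn
    have hq0 : 0 < G q.1 q.2 q.2 := by
      refine hpos _ hq.1 _ hq.2.2 ?_
      intro h0
      have := hq.2.1
      rw [h0] at this
      simp at this
    refine ⟨Real.sqrt (G q.1 q.2 q.2), Real.sqrt_pos.mpr hq0, ?_⟩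
    intro x hx v hv
    rw [Real.sq_sqrt hq0.le]
    by_cases hv0 : v = 0
    · subst hv0; simp
    have hvn : 0 < ‖v‖ := norm_pos_iff.mpr hv0
    have hmem : (x, (‖v‖)⁻¹ • v) ∈ K := by
      refine ⟨hx, ?_, ?_⟩
      · simp [norm_smul, hvn.ne']
      · simp [inner_smul_right, hv]
    have h2 := hmin hmem
    simp only [Set.mem_ofPred_eq, map_smul, smul_apply, smul_eq_mul] at h2
    have h3 : ‖v‖ ^ 2 * (‖v‖⁻¹ * (‖v‖⁻¹ * G x v v)) = G x v v := by
      field_simp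
    calc G q.1 q.2 q.2 * ‖v‖ ^ 2 = ‖v‖ ^ 2 * G q.1 q.2 q.2 := by ring
      _ ≤ ‖v‖ ^ 2 * (‖v‖⁻¹ * (‖v‖⁻¹ * G x v v)) := by
          exact mul_le_mul_of_nonneg_left h2 (by positivity)
      _ = G x v v := h3
  · refine ⟨1, one_pos, ?_⟩
    intro x hx v hv
    by_cases hv0 : v = 0
    · subst hv0; simp
    exfalso
    apply hne
    have hvn : 0 < ‖v‖ := norm_pos_iff.mpr hv0
    refine ⟨(x, (‖v‖)⁻¹ • v), hx, ?_, ?_⟩
    · simp [norm_smul, hvn.ne']
    · simp [inner_smul_right, hv]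

lemma continuous_speed {G : E3 → Bil} (hG : Continuous G) {σ : ℝ → E3} (hσ : ContDiff ℝ 1 σ) :
    Continuous (fun u => Real.sqrt (G (σ u) (deriv σ u) (deriv σ u))) := by
  have h1 : Continuous (deriv σ) := hσ.continuous_deriv (by norm_num)
  have h2 : Continuous (fun u => G (σ u)) := hG.comp hσ.continuous
  exact ((h2.clm_apply h1).clm_apply h1).sqrt

lemma len_ge_dist {G : E3 → Bil} (hG : Continuous G) {m : ℝ} (hm : 0 < m)
    (hlow : ∀ x ∈ Metric.sphere (0 : E3) 1, ∀ v : E3, inner ℝ x v = (0:ℝ) →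
      m ^ 2 * ‖v‖ ^ 2 ≤ G x v v)
    {σ : ℝ → E3} (hσ : ContDiff ℝ 1 σ)
    (hS : ∀ u ∈ Set.Icc (0:ℝ) 1, σ u ∈ Metric.sphere (0 : E3) 1) {a b : ℝ}
    (ha : 0 ≤ a) (hab : a ≤ b) (hb : b ≤ 1) :
    m * ‖σ b - σ a‖ ≤ ∫ u in a..b, Real.sqrt (G (σ u) (deriv σ u) (deriv σ u)) := by
  have hcd : Continuous (deriv σ) := hσ.continuous_deriv (by norm_num)
  have h1 : ∫ u in a..b, deriv σ u = σ b - σ a :=
    integral_deriv_eq_sub (fun x _ => hσ.differentiable (by norm_num) x)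
      (hcd.intervalIntegrable _ _)
  rw [← h1]
  calc m * ‖∫ u in a..b, deriv σ u‖ ≤ m * ∫ u in a..b, ‖deriv σ u‖ :=
        mul_le_mul_of_nonneg_left (intervalIntegral.norm_integral_le_integral_norm hab) hm.le
    _ = ∫ u in a..b, m * ‖deriv σ u‖ := by rw [intervalIntegral.integral_const_mul]
    _ ≤ _ := by
        refine intervalIntegral.integral_mono_on_of_le_Ioo hab ?_ ?_ ?_
        · exact ((continuous_const.mul hcd.norm)).intervalIntegrable _ _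
        · exact (continuous_speed hG hσ).intervalIntegrable _ _
        · intro u hu
          have hu' : u ∈ Ioo (0:ℝ) 1 := ⟨lt_of_le_of_lt ha hu.1, lt_of_lt_of_le hu.2 hb⟩
          apply Real.le_sqrt_of_sq_le
          rw [mul_pow]
          exact hlow _ (hS u ⟨hu'.1.le, hu'.2.le⟩) _ (tangent_of_sphere hσ hS hu')

lemma len_mono {G : E3 → Bil} (hG : Continuous G) {σ : ℝ → E3} (hσ : ContDiff ℝ 1 σ) {a : ℝ}
    (ha1 : a ≤ 1) :
    ∫ u in (0:ℝ)..a, Real.sqrt (G (σ u) (deriv σ u) (deriv σ u)) ≤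
      ∫ u in (0:ℝ)..1, Real.sqrt (G (σ u) (deriv σ u) (deriv σ u)) := by
  have hc := continuous_speed hG hσ
  have h1 := intervalIntegral.integral_add_adjacent_intervals
    (hc.intervalIntegrable (μ := volume) 0 a) (hc.intervalIntegrable (μ := volume) a 1)
  have h2 : 0 ≤ ∫ u in a..1, Real.sqrt (G (σ u) (deriv σ u) (deriv σ u)) :=
    intervalIntegral.integral_nonneg ha1 (fun u _ => Real.sqrt_nonneg _)
  linarith

/-- Calibration estimate for a path staying in the ball where the calibration is defined. -/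
lemma calib_le {G : E3 → Bil} (hG : Continuous G) {p₀ : E3} {r : ℝ} {β : E3 → ℝ}
    (hβ : ∀ p ∈ Metric.ball p₀ r, ContDiffAt ℝ 1 β p)
    (hcal : ∀ p ∈ Metric.ball p₀ r, p ∈ Metric.sphere (0 : E3) 1 → ∀ v : E3,
      inner ℝ p v = (0:ℝ) → (fderiv ℝ β p v) ^ 2 ≤ G p v v)
    {σ : ℝ → E3} (hσ : ContDiff ℝ 1 σ)
    (hS : ∀ u ∈ Set.Icc (0:ℝ) 1, σ u ∈ Metric.sphere (0 : E3) 1)
    (hO : ∀ u ∈ Set.Icc (0:ℝ) 1, σ u ∈ Metric.ball p₀ r) :
    β (σ 1) - β (σ 0) ≤ ∫ u in (0:ℝ)..1, Real.sqrt (G (σ u) (deriv σ u) (deriv σ u)) := by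
  have hcd : Continuous (deriv σ) := hσ.continuous_deriv (by norm_num)
  have hder : ∀ u ∈ Set.Icc (0:ℝ) 1, HasDerivAt (fun x => β (σ x)) (fderiv ℝ β (σ u) (deriv σ u)) u := by
    intro u hu
    have h1 : HasFDerivAt β (fderiv ℝ β (σ u)) (σ u) :=
      ((hβ _ (hO u hu)).differentiableAt (by norm_num)).hasFDerivAt
    exact h1.comp_hasDerivAt u (hσ.differentiable (by norm_num) u).hasDerivAt
  have hcont : ContinuousOn (fun u => fderiv ℝ β (σ u) (deriv σ u)) (Set.Icc (0:ℝ) 1) := by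
    intro u hu
    have h1 : ContinuousAt (fderiv ℝ β) (σ u) :=
      (hβ _ (hO u hu)).continuousAt_fderiv (by norm_num)
    have h2 : ContinuousAt (fun u => fderiv ℝ β (σ u)) u :=
      ContinuousAt.comp (f := σ) (g := fderiv ℝ β) h1 hσ.continuous.continuousAt
    exact (h2.clm_apply hcd.continuousAt).continuousWithinAt
  have hint : IntervalIntegrable (fun u => fderiv ℝ β (σ u) (deriv σ u)) volume 0 1 := by
    apply ContinuousOn.intervalIntegrable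
    rwa [Set.uIcc_of_le zero_le_one]
  have h1 : ∫ u in (0:ℝ)..1, fderiv ℝ β (σ u) (deriv σ u) = β (σ 1) - β (σ 0) := by
    refine intervalIntegral.integral_eq_sub_of_hasDerivAt (f := fun u => β (σ u)) ?_ hint
    intro u hu
    rw [Set.uIcc_of_le zero_le_one] at hu
    exact hder u hu
  rw [← h1]
  refine intervalIntegral.integral_mono_on_of_le_Ioo zero_le_one hint
    ((continuous_speed hG hσ).intervalIntegrable _ _) ?_
  intro u hu
  have hu' : u ∈ Set.Icc (0:ℝ) 1 := ⟨hu.1.le, hu.2.le⟩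
  apply Real.le_sqrt_of_sq_le
  exact hcal _ (hO u hu') (hS u hu') _ (tangent_of_sphere hσ hS hu)

/-- A smooth curve on the sphere which has unit speed near `t₀` and is calibrated near `t₀`
is locally minimising near `t₀`. -/
theorem locMinAt_of_calib {G : E3 → Bil} (hG : Continuous G) {m : ℝ} (hm : 0 < m)
    (hlow : ∀ x ∈ Metric.sphere (0 : E3) 1, ∀ v : E3, inner ℝ x v = (0:ℝ) →
      m ^ 2 * ‖v‖ ^ 2 ≤ G x v v)
    {κ : ℝ → E3} (hκ : ContDiff ℝ 1 κ) (hκS : ∀ t, κ t ∈ Metric.sphere (0 : E3) 1) (t₀ : ℝ)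
    (hunit : ∀ᶠ t in 𝓝 t₀, G (κ t) (deriv κ t) (deriv κ t) = 1)
    {β : E3 → ℝ} (hβ : ∀ᶠ p in 𝓝 (κ t₀), ContDiffAt ℝ 1 β p)
    (hcal : ∀ᶠ p in 𝓝 (κ t₀), p ∈ Metric.sphere (0 : E3) 1 → ∀ v : E3,
      inner ℝ p v = (0:ℝ) → (fderiv ℝ β p v) ^ 2 ≤ G p v v)
    (hβκ : ∀ᶠ t in 𝓝 t₀, β (κ t) = t) (D : Set ℝ) :
    LocMinAt G D κ t₀ := by
  obtain ⟨r, hr, hball⟩ := Metric.eventually_nhds_iff_ball.mp (hβ.and hcal)
  obtain ⟨ε₁, hε₁, h1⟩ := Metric.eventually_nhds_iff_ball.mp (hunit.and hβκ)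
  have hc : ∀ᶠ t in 𝓝 t₀, κ t ∈ Metric.ball (κ t₀) (r/2) :=
    hκ.continuous.continuousAt.eventually_mem (Metric.ball_mem_nhds _ (by linarith))
  obtain ⟨ε₂, hε₂, h2⟩ := Metric.eventually_nhds_iff_ball.mp hc
  refine ⟨min (min ε₁ ε₂) (m * (r/2) / 2), by positivity, ?_⟩
  intro s₁ _ s₂ _ hs₁ hs₁₂ hs₂
  set ε := min (min ε₁ ε₂) (m * (r/2) / 2) with hε
  have hεε₁ : ε ≤ ε₁ := le_trans (min_le_left _ _) (min_le_left _ _)
  have hεε₂ : ε ≤ ε₂ := le_trans (min_le_left _ _) (min_le_right _ _)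
  have hεm : ε ≤ m * (r/2) / 2 := min_le_right _ _
  have hmem : ∀ s, s₁ ≤ s → s ≤ s₂ → |s - t₀| < ε := by
    intro s h h'
    rw [abs_lt]; constructor <;> linarith
  have hmem₁ : ∀ s, s₁ ≤ s → s ≤ s₂ → s ∈ Metric.ball t₀ ε₁ := by
    intro s h h'
    rw [Metric.mem_ball, Real.dist_eq]
    exact lt_of_lt_of_le (hmem s h h') hεε₁
  have hmem₂ : ∀ s, s₁ ≤ s → s ≤ s₂ → s ∈ Metric.ball t₀ ε₂ := by
    intro s h h'
    rw [Metric.mem_ball, Real.dist_eq]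
    exact lt_of_lt_of_le (hmem s h h') hεε₂
  constructor
  · intro σ hσ hS h0 h1'
    by_cases hO : ∀ u ∈ Set.Icc (0:ℝ) 1, σ u ∈ Metric.ball (κ t₀) r
    · have := calib_le hG (fun p hp => (hball p hp).1) (fun p hp => (hball p hp).2) hσ hS hO
      rw [h0, h1', (h1 s₂ (hmem₁ s₂ hs₁₂ le_rfl)).2, (h1 s₁ (hmem₁ s₁ le_rfl hs₁₂)).2] at this
      exact this
    · push Not at hO
      obtain ⟨u, hu, hu'⟩ := hO
      have h3 := len_ge_dist hG hm hlow hσ hS le_rfl hu.1 hu.2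
      have h4 := len_mono hG hσ hu.2
      have h5 : r/2 ≤ ‖σ u - σ 0‖ := by
        have h6 : σ 0 ∈ Metric.ball (κ t₀) (r/2) := by
          rw [h0]; exact h2 s₁ (hmem₂ s₁ le_rfl hs₁₂)
        rw [Metric.mem_ball] at h6 hu'
        rw [← dist_eq_norm]
        have := dist_triangle (σ u) (σ 0) (κ t₀)
        linarith
      have h7 : m * (r/2) ≤ m * ‖σ u - σ 0‖ := mul_le_mul_of_nonneg_left h5 hm.le
      linarith
  · intro δ hδ
    refine ⟨fun u => κ (s₁ + u * (s₂ - s₁)), ?_, ?_, ?_, ?_, ?_⟩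
    · exact hκ.comp (by fun_prop)
    · intro u _; exact hκS _
    · simp
    · simp
    · have hd : ∀ u, deriv (fun u => κ (s₁ + u * (s₂ - s₁))) u =
          (s₂ - s₁) • deriv κ (s₁ + u * (s₂ - s₁)) := by
        intro u
        have h3 : HasDerivAt (fun u : ℝ => s₁ + u * (s₂ - s₁)) (s₂ - s₁) u := by
          have := ((hasDerivAt_id u).mul_const (s₂ - s₁)).const_add s₁
          simpa using this
        have h4 : HasDerivAt κ (deriv κ (s₁ + u * (s₂ - s₁))) (s₁ + u * (s₂ - s₁)) :=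
          (hκ.differentiable (by norm_num) _).hasDerivAt
        exact (h4.scomp u h3).deriv
      have hval : ∫ u in (0:ℝ)..1, Real.sqrt (G (κ (s₁ + u * (s₂ - s₁)))
          (deriv (fun u => κ (s₁ + u * (s₂ - s₁))) u) (deriv (fun u => κ (s₁ + u * (s₂ - s₁))) u)) =
          ∫ u in (0:ℝ)..1, (s₂ - s₁) := by
        apply intervalIntegral.integral_congr
        intro u hu
        rw [Set.uIcc_of_le zero_le_one] at hu
        simp only
        rw [hd]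
        simp only [map_smul, smul_apply, smul_eq_mul]
        have hs : s₁ + u * (s₂ - s₁) ∈ Metric.ball t₀ ε₁ := by
          apply hmem₁
          · nlinarith [hu.1]
          · nlinarith [hu.2]
        rw [(h1 _ hs).1, mul_one]
        rw [Real.sqrt_mul_self (by linarith)]
      rw [hval]
      simp
      linarith

end H64.Ray
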