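import Pool.Agent.H64.Ray.MetricProps

set_option autoImplicit false

open Set Filter Topology Real

namespace H64.Ray

noncomputable def ev (w s : ℝ) : ℝ := w / √(gh (Real.sin (Nn s)))

/-- the street chart -/
noncomputable def V (w s : ℝ) : E3 :=
  (√(1 + ev w s ^ 2))⁻¹ • (!₂[ev w s, Real.sin (Nn s), Real.cos (Nn s)] : E3)

lemma V0 (w s : ℝ) : V w s 0 = (√(1 + ev w s ^ 2))⁻¹ * ev w s := by simp [V]
lemma V1 (w s : ℝ) : V w s 1 = (√(1 + ev w s ^ 2))⁻¹ * Real.sin (Nn s) := by simp [V]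
lemma V2 (w s : ℝ) : V w s 2 = (√(1 + ev w s ^ 2))⁻¹ * Real.cos (Nn s) := by simp [V]

lemma nV_pos (w s : ℝ) : 0 < (√(1 + ev w s ^ 2))⁻¹ := by positivity

lemma nV_sq (w s : ℝ) : ((√(1 + ev w s ^ 2))⁻¹) ^ 2 = (1 + ev w s ^ 2)⁻¹ := by
  rw [inv_pow, Real.sq_sqrt (by positivity)]

lemma V_sphere (w s : ℝ) : V w s ∈ Metric.sphere (0 : E3) 1 := by
  rw [mem_sphere_zero_iff_norm, ← sq_eq_sq₀ (norm_nonneg _) zero_le_one, ← real_inner_self_eq_norm_sq,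
    inner_eq, V0, V1, V2]
  have h := nV_sq w s
  have h1 : 1 + ev w s ^ 2 ≠ 0 := by positivity
  have h2 := Real.sin_sq_add_cos_sq (Nn s)
  set n := (√(1 + ev w s ^ 2))⁻¹
  have : n * ev w s * (n * ev w s) + n * Real.sin (Nn s) * (n * Real.sin (Nn s)) +
      n * Real.cos (Nn s) * (n * Real.cos (Nn s)) =
      n ^ 2 * (ev w s ^ 2 + (Real.sin (Nn s) ^ 2 + Real.cos (Nn s) ^ 2)) := by ring
  rw [this, h2, h]
  field_simp
  ring

lemma r2_V (w s : ℝ) : r2 (V w s) = ((√(1 + ev w s ^ 2))⁻¹) ^ 2 := by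
  unfold r2
  rw [V1, V2]
  have h2 := Real.sin_sq_add_cos_sq (Nn s)
  linear_combination ((√(1 + ev w s ^ 2))⁻¹) ^ 2 * h2

lemma r2_V_pos (w s : ℝ) : 0 < r2 (V w s) := by
  rw [r2_V]; have := nV_pos w s; positivity

lemma sqrt_r2_V (w s : ℝ) : √(r2 (V w s)) = (√(1 + ev w s ^ 2))⁻¹ := by
  rw [r2_V, Real.sqrt_sq (nV_pos w s).le]

lemma Tf_V (w s : ℝ) : Tf (V w s) = Real.sin (Nn s) := by
  unfold Tf
  rw [sqrt_r2_V, V1]
  have := (nV_pos w s).ne'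
  field_simp

lemma wf_V (w s : ℝ) : wf (V w s) = w := by
  unfold wf
  rw [Tf_V, sqrt_r2_V, V0]
  have := (nV_pos w s).ne'
  have h : √(gh (Real.sin (Nn s))) ≠ 0 := (Real.sqrt_pos.mpr (gh_pos _)).ne'
  have e : (√(1 + ev w s ^ 2))⁻¹ * ev w s / (√(1 + ev w s ^ 2))⁻¹ = ev w s := by
    field_simp
  rw [e]
  unfold ev
  field_simp

section curve
variable {w s : ℝ → ℝ}

lemma contDiff_evc (hw : ContDiff ℝ (⊤ : ℕ∞) w) (hs : ContDiff ℝ (⊤ : ℕ∞) s) :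
    ContDiff ℝ (⊤ : ℕ∞) (fun t => ev (w t) (s t)) := by
  unfold ev
  have h1 : ContDiff ℝ (⊤ : ℕ∞) (fun t => gh (Real.sin (Nn (s t)))) :=
    contDiff_gh.comp (Real.contDiff_sin.comp (contDiff_Nn.comp hs))
  have h2 : ContDiff ℝ (⊤ : ℕ∞) (fun t => √(gh (Real.sin (Nn (s t))))) :=
    h1.sqrt (fun t => (gh_pos _).ne')
  exact hw.div h2 (fun t => (Real.sqrt_pos.mpr (gh_pos _)).ne')

lemma contDiff_nc (hw : ContDiff ℝ (⊤ : ℕ∞) w) (hs : ContDiff ℝ (⊤ : ℕ∞) s) :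
    ContDiff ℝ (⊤ : ℕ∞) (fun t => (√(1 + ev (w t) (s t) ^ 2))⁻¹) := by
  apply ContDiff.inv
  · apply ContDiff.sqrt
    · exact contDiff_const.add ((contDiff_evc hw hs).pow 2)
    · intro t; positivity
  · intro t; positivity

lemma contDiff_V (hw : ContDiff ℝ (⊤ : ℕ∞) w) (hs : ContDiff ℝ (⊤ : ℕ∞) s) :
    ContDiff ℝ (⊤ : ℕ∞) (fun t => V (w t) (s t)) := by
  have hn := contDiff_nc hw hs
  have hN : ContDiff ℝ (⊤ : ℕ∞) (fun t => Nn (s t)) := contDiff_Nn.comp hs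
  rw [contDiff_euclidean]
  intro i
  fin_cases i
  · have : (fun t => V (w t) (s t) 0) = fun t => (√(1 + ev (w t) (s t) ^ 2))⁻¹ * ev (w t) (s t) := by
      ext t; rw [V0]
    show ContDiff ℝ _ (fun t => V (w t) (s t) 0)
    rw [this]
    exact hn.mul (contDiff_evc hw hs)
  · have : (fun t => V (w t) (s t) 1) = fun t => (√(1 + ev (w t) (s t) ^ 2))⁻¹ * Real.sin (Nn (s t)) := by
      ext t; rw [V1]
    show ContDiff ℝ _ (fun t => V (w t) (s t) 1)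
    rw [this]
    exact hn.mul (Real.contDiff_sin.comp hN)
  · have : (fun t => V (w t) (s t) 2) = fun t => (√(1 + ev (w t) (s t) ^ 2))⁻¹ * Real.cos (Nn (s t)) := by
      ext t; rw [V2]
    show ContDiff ℝ _ (fun t => V (w t) (s t) 2)
    rw [this]
    exact hn.mul (Real.contDiff_cos.comp hN)

lemma deriv_coord {κ : ℝ → E3} {t : ℝ} (hκ : DifferentiableAt ℝ κ t) (i : Fin 3) :
    HasDerivAt (fun t => κ t i) (deriv κ t i) t :=
  (cc i).hasFDerivAt.comp_hasDerivAt t hκ.hasDerivAt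

lemma fderiv_wf_V (hw : ContDiff ℝ (⊤ : ℕ∞) w) (hs : ContDiff ℝ (⊤ : ℕ∞) s) (t : ℝ) :
    fderiv ℝ wf (V (w t) (s t)) (deriv (fun t => V (w t) (s t)) t) = deriv w t := by
  have h1 : HasDerivAt (fun t => V (w t) (s t)) (deriv (fun t => V (w t) (s t)) t) t :=
    ((contDiff_V hw hs).differentiable (by simp) t).hasDerivAt
  have h2 : HasFDerivAt wf (fderiv ℝ wf (V (w t) (s t))) (V (w t) (s t)) :=
    (differentiableAt_wf (r2_V_pos _ _)).hasFDerivAt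
  have h3 := h2.comp_hasDerivAt t h1
  have h4 : (wf ∘ fun t => V (w t) (s t)) = w := by
    ext t; simp [wf_V]
  rw [h4] at h3
  exact h3.deriv.symm

lemma om_V (hw : ContDiff ℝ (⊤ : ℕ∞) w) (hs : ContDiff ℝ (⊤ : ℕ∞) s) (t : ℝ) :
    om (V (w t) (s t)) (deriv (fun t => V (w t) (s t)) t) = deriv s t := by
  have hd : DifferentiableAt ℝ (fun t => V (w t) (s t)) t :=
    (contDiff_V hw hs).differentiable (by simp) t
  have hn : HasDerivAt (fun t => (√(1 + ev (w t) (s t) ^ 2))⁻¹)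
      (deriv (fun t => (√(1 + ev (w t) (s t) ^ 2))⁻¹) t) t :=
    ((contDiff_nc hw hs).differentiable (by simp) t).hasDerivAt
  have hsd : HasDerivAt s (deriv s t) t := (hs.differentiable (by simp) t).hasDerivAt
  have hN : HasDerivAt (fun t => Nn (s t)) ((gh (Real.sin (Nn (s t))))⁻¹ * deriv s t) t :=
    (hasDerivAt_Nn (s t)).comp t hsd
  have e1 := (deriv_coord hd 1).unique (by
    have : (fun t => V (w t) (s t) 1) = fun t => (√(1 + ev (w t) (s t) ^ 2))⁻¹ * Real.sin (Nn (s t)) := by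
      ext t; rw [V1]
    rw [this]
    exact hn.mul hN.sin)
  have e2 := (deriv_coord hd 2).unique (by
    have : (fun t => V (w t) (s t) 2) = fun t => (√(1 + ev (w t) (s t) ^ 2))⁻¹ * Real.cos (Nn (s t)) := by
      ext t; rw [V2]
    rw [this]
    exact hn.mul hN.cos)
  rw [om_apply, e1, e2, Tf_V, r2_V, V1, V2]
  have hg := (gh_pos (Real.sin (Nn (s t)))).ne'
  have hn0 := (nV_pos (w t) (s t)).ne'
  have h2 := Real.sin_sq_add_cos_sq (Nn (s t))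
  generalize deriv (fun t => (√(1 + ev (w t) (s t) ^ 2))⁻¹) t = n'
  generalize (√(1 + ev (w t) (s t) ^ 2))⁻¹ = n at *
  generalize gh (Real.sin (Nn (s t))) = g at *
  generalize Real.sin (Nn (s t)) = S at *
  generalize Real.cos (Nn (s t)) = C at *
  field_simp
  linear_combination (n * deriv s t) * h2

lemma G1_V (hw : ContDiff ℝ (⊤ : ℕ∞) w) (hs : ContDiff ℝ (⊤ : ℕ∞) s) (t : ℝ) :
    G1 (V (w t) (s t)) (deriv (fun t => V (w t) (s t)) t) (deriv (fun t => V (w t) (s t)) t) =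
      ((1 - w t ^ 2) ^ 2)⁻¹ * (deriv w t * deriv w t) + (1 - w t ^ 2)⁻¹ * (deriv s t * deriv s t) := by
  unfold G1
  rw [Qf_apply, fderiv_wf_V hw hs, om_V hw hs, wf_V]

end curve

/-! ### local inverse of the street coordinate -/

noncomputable def Yr (η₀ : ℝ) (q : E3) : ℝ := q 1 * Real.cos η₀ - q 2 * Real.sin η₀
noncomputable def Zr (η₀ : ℝ) (q : E3) : ℝ := q 2 * Real.cos η₀ + q 1 * Real.sin η₀

noncomputable def sloc (η₀ : ℝ) (q : E3) : ℝ := sg (η₀ + Real.arctan (Yr η₀ q / Zr η₀ q))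

lemma Yr_Zr (η₀ : ℝ) (q : E3) : Zr η₀ q ^ 2 + Yr η₀ q ^ 2 = r2 q := by
  unfold Yr Zr r2
  linear_combination (q 1 ^ 2 + q 2 ^ 2) * Real.sin_sq_add_cos_sq η₀

lemma sin_ang {η₀ : ℝ} {q : E3} (h : 0 < Zr η₀ q) :
    Real.sin (η₀ + Real.arctan (Yr η₀ q / Zr η₀ q)) = Tf q := by
  have h1 : √(1 + (Yr η₀ q / Zr η₀ q) ^ 2) = √(r2 q) / Zr η₀ q := by
    rw [← Yr_Zr η₀ q]
    have : 1 + (Yr η₀ q / Zr η₀ q) ^ 2 = (Zr η₀ q ^ 2 + Yr η₀ q ^ 2) / Zr η₀ q ^ 2 := by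
      field_simp
    rw [this, Real.sqrt_div (by positivity), Real.sqrt_sq h.le]
  rw [Real.sin_add, Real.cos_arctan, Real.sin_arctan, h1]
  have h2 : 0 < r2 q := by rw [← Yr_Zr η₀ q]; positivity
  have h3 : √(r2 q) ≠ 0 := (Real.sqrt_pos.mpr h2).ne'
  unfold Tf
  field_simp
  unfold Yr Zr
  linear_combination (q 1) * Real.sin_sq_add_cos_sq η₀

lemma hasFDerivAt_sloc {η₀ : ℝ} {q : E3} (h : 0 < Zr η₀ q) :
    HasFDerivAt (sloc η₀) (om q) q := by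
  have hY : HasFDerivAt (Yr η₀) (Real.cos η₀ • cc 1 - Real.sin η₀ • cc 2) q := by
    have h1 := ((cc 1).hasFDerivAt (x := q)).const_mul (Real.cos η₀)
    have h2 := ((cc 2).hasFDerivAt (x := q)).const_mul (Real.sin η₀)
    have h3 := h1.sub h2
    refine h3.congr_of_eventuallyEq (Eventually.of_forall fun x => ?_)
    simp [Yr, cc_apply]; ring
  have hZ : HasFDerivAt (Zr η₀) (Real.cos η₀ • cc 2 + Real.sin η₀ • cc 1) q := by
    have h1 := ((cc 2).hasFDerivAt (x := q)).const_mul (Real.cos η₀)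
    have h2 := ((cc 1).hasFDerivAt (x := q)).const_mul (Real.sin η₀)
    have h3 := h1.add h2
    refine h3.congr_of_eventuallyEq (Eventually.of_forall fun x => ?_)
    simp [Zr, cc_apply]; ring
  have hinv : HasFDerivAt (fun q => (Zr η₀ q)⁻¹) (-(Zr η₀ q ^ 2)⁻¹ • (Real.cos η₀ • cc 2 + Real.sin η₀ • cc 1)) q :=
    (hasDerivAt_inv h.ne').comp_hasFDerivAt q hZ
  have hq : HasFDerivAt (fun q => Yr η₀ q * (Zr η₀ q)⁻¹) _ q := hY.mul hinv
  have ha := hq.arctan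
  have hadd := ha.const_add η₀
  have hs := (hasDerivAt_sg (η₀ + Real.arctan (Yr η₀ q * (Zr η₀ q)⁻¹))).comp_hasFDerivAt q hadd
  have hfun : (sg ∘ fun q => η₀ + Real.arctan (Yr η₀ q * (Zr η₀ q)⁻¹)) = sloc η₀ := by
    ext x; simp [sloc, div_eq_mul_inv]
  rw [hfun] at hs
  have hval := sin_ang h
  rw [div_eq_mul_inv] at hval
  rw [hval] at hs
  refine hs.congr_fderiv ?_
  ext v
  rw [om_apply]
  have h4 : 1 + (Yr η₀ q * (Zr η₀ q)⁻¹) ^ 2 = r2 q / Zr η₀ q ^ 2 := by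
    rw [← Yr_Zr η₀ q]; field_simp
  have h2 : 0 < r2 q := by rw [← Yr_Zr η₀ q]; positivity
  simp only [smul_apply, add_apply, sub_apply, smul_eq_mul, cc_apply, h4]
  have hne : Zr η₀ q ≠ 0 := h.ne'
  field_simp
  unfold Yr Zr
  linear_combination (gh (Tf q) * (q 2 * v 1 - q 1 * v 2)) * Real.sin_sq_add_cos_sq η₀

lemma sloc_V {η₀ w s : ℝ} (h : |Nn s - η₀| < π / 2) : sloc η₀ (V w s) = s := by
  have hc : 0 < Real.cos (Nn s - η₀) := by
    rw [abs_lt] at h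
    exact Real.cos_pos_of_mem_Ioo ⟨by linarith [h.1], h.2⟩
  have h1 : Yr η₀ (V w s) / Zr η₀ (V w s) = Real.tan (Nn s - η₀) := by
    unfold Yr Zr
    rw [V1, V2, Real.tan_eq_sin_div_cos, Real.sin_sub, Real.cos_sub]
    have := (nV_pos w s).ne'
    rw [Real.cos_sub] at hc
    set n := (√(1 + ev w s ^ 2))⁻¹
    have e1 : n * Real.sin (Nn s) * Real.cos η₀ - n * Real.cos (Nn s) * Real.sin η₀ =
      n * (Real.sin (Nn s) * Real.cos η₀ - Real.cos (Nn s) * Real.sin η₀) := by ring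
    have e2 : n * Real.cos (Nn s) * Real.cos η₀ + n * Real.sin (Nn s) * Real.sin η₀ =
      n * (Real.cos (Nn s) * Real.cos η₀ + Real.sin (Nn s) * Real.sin η₀) := by ring
    rw [e1, e2, mul_div_mul_left _ _ this]
  unfold sloc
  rw [h1, Real.arctan_tan (by linarith [(abs_lt.mp h).1]) (abs_lt.mp h).2,
    show η₀ + (Nn s - η₀) = Nn s by ring, sg_Nn]

lemma Zr_V (η₀ w s : ℝ) : Zr η₀ (V w s) = (√(1 + ev w s ^ 2))⁻¹ * Real.cos (Nn s - η₀) := by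
  unfold Zr
  rw [V1, V2, Real.cos_sub]; ring

end H64.Ray
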