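import Pool.Agent.H64.Ray.Street

set_option autoImplicit false

open Set Filter Topology Real

namespace H64.Ray

/-! ### the two Möbius maps -/

noncomputable def cA : ℝ := Real.cosh ell
noncomputable def kA : ℝ := Real.sinh ell / √2

lemma cA_sq : cA ^ 2 = 1 + 2 * kA ^ 2 := by
  unfold cA kA
  rw [div_pow, Real.sq_sqrt (by norm_num), Real.cosh_sq]; ring

lemma six_lt_kA : 6 < kA := by
  unfold kA
  rw [lt_div_iff₀ (by positivity)]
  have h0 : Real.sinh 3 ≤ Real.sinh ell := Real.sinh_le_sinh.mpr three_le_ell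
  have h1 : 9 < Real.sinh 3 := by
    rw [Real.sinh_eq]
    have e1 : Real.exp 3 = Real.exp 1 ^ 3 := by
      rw [← Real.exp_nat_mul]; norm_num
    have e2 : 2.7 < Real.exp 1 := by
      have := Real.exp_one_gt_d9; linarith
    have e3 : (2.7:ℝ) ^ 3 < Real.exp 1 ^ 3 := by gcongr
    have e4 : Real.exp (-3) < 1 := by rw [Real.exp_lt_one_iff]; norm_num
    rw [e1]
    norm_num at e3
    linarith
  have h2 : √2 < 3/2 := by
    rw [Real.sqrt_lt' (by norm_num)]; norm_num
  linarith

lemma two_lt_kA : 2 < kA := lt_trans (by norm_num) six_lt_kA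

lemma cA_pos : 0 < cA := Real.cosh_pos _
lemma kA_pos : 0 < kA := lt_trans (by norm_num) two_lt_kA

lemma cA_lt : cA < 3/2 * kA := by
  have h := cA_sq
  have h1 := two_lt_kA
  have h2 := cA_pos
  by_contra hc
  push Not at hc
  nlinarith

lemma lt_cA : 7/5 * kA < cA := by
  have h := cA_sq
  have h1 := two_lt_kA
  have h2 := cA_pos
  by_contra hc
  push Not at hc
  nlinarith

noncomputable def mden (a : Bool) (x : ℝ) : ℝ := kA * x + (if a then cA - kA else cA + kA)
noncomputable def mnum (a : Bool) (x : ℝ) : ℝ := (if a then cA + kA else cA - kA) * x + kA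
noncomputable def mob (a : Bool) (x : ℝ) : ℝ := mnum a x / mden a x

lemma mden_ge {a : Bool} {x : ℝ} (hx : 2/5 ≤ x) : 3/2 ≤ mden a x := by
  have h1 := two_lt_kA
  have h2 := lt_cA
  unfold mden
  cases a
  · simp only [Bool.false_eq_true, if_false]; nlinarith
  · simp only [if_true]; nlinarith

lemma mden_ge' {a : Bool} {x : ℝ} (hx : 2/5 ≤ x) : 4 ≤ mden a x := by
  have h1 := six_lt_kA
  have h2 := lt_cA
  unfold mden
  cases a
  · simp only [Bool.false_eq_true, if_false]; nlinarith
  · simp only [if_true]; nlinarith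

lemma mden_pos {a : Bool} {x : ℝ} (hx : 0 < x) : 0 < mden a x := by
  have h1 := two_lt_kA
  have h2 := lt_cA
  have h3 : 0 < kA * x := mul_pos kA_pos hx
  unfold mden
  cases a
  · simp only [Bool.false_eq_true, if_false]; linarith
  · simp only [if_true]; linarith

lemma mnum_pos {a : Bool} {x : ℝ} (hx : 0 < x) : 0 < mnum a x := by
  have h1 := two_lt_kA
  have h2 := lt_cA
  unfold mnum
  cases a
  · simp only [Bool.false_eq_true, if_false]
    have : 0 < (cA - kA) * x := mul_pos (by linarith) hx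
    linarith
  · simp only [if_true]
    have : 0 < (cA + kA) * x := mul_pos (by linarith) hx
    linarith

lemma mob_pos {a : Bool} {x : ℝ} (hx : 0 < x) : 0 < mob a x := div_pos (mnum_pos hx) (mden_pos hx)

lemma mob_sub {a : Bool} {x y : ℝ} (hx : 0 < x) (hy : 0 < y) :
    mob a x - mob a y = (x - y) / (mden a x * mden a y) := by
  have h1 := (mden_pos (a := a) hx).ne'
  have h2 := (mden_pos (a := a) hy).ne'
  have hc := cA_sq
  unfold mob
  rw [div_sub_div _ _ h1 h2]
  congr 1
  unfold mnum mden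
  cases a
  · simp only [Bool.false_eq_true, if_false]
    linear_combination (x - y) * hc
  · simp only [if_true]
    linear_combination (x - y) * hc

lemma mob_lt {a : Bool} {x y : ℝ} (hx : 0 < x) (hxy : x < y) : mob a x < mob a y := by
  have hy := lt_trans hx hxy
  have h := mob_sub (a := a) hx hy
  have h1 := mden_pos (a := a) hx
  have h2 := mden_pos (a := a) hy
  have : (x - y) / (mden a x * mden a y) < 0 := div_neg_of_neg_of_pos (by linarith) (by positivity)
  linarith

lemma mob_false_lt {x : ℝ} (hx : 0 < x) : mob false x < 1 := by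
  unfold mob
  rw [div_lt_one (mden_pos hx)]
  unfold mnum mden
  simp only [Bool.false_eq_true, if_false]
  have h1 := two_lt_kA
  have h2 := cA_lt
  have h3 := cA_pos
  nlinarith [mul_pos hx kA_pos]

lemma mob_true_gt {x : ℝ} (hx : 0 < x) : 1 < mob true x := by
  unfold mob
  rw [one_lt_div (mden_pos hx)]
  unfold mnum mden
  simp only [if_true]
  have h1 := two_lt_kA
  have h2 := cA_lt
  have h3 := cA_pos
  nlinarith [mul_pos hx cA_pos]

lemma mob_ge {a : Bool} {x : ℝ} (hx : 0 < x) : 2/5 ≤ mob a x := by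
  cases a
  · unfold mob
    rw [le_div_iff₀ (mden_pos hx)]
    unfold mnum mden
    simp only [Bool.false_eq_true, if_false]
    have h1 := two_lt_kA
    have h2 := cA_lt
    have h3 := lt_cA
    nlinarith [mul_pos hx kA_pos, mul_pos hx (sub_pos.mpr h3)]
  · linarith [mob_true_gt hx]

lemma mob_le {a : Bool} {x : ℝ} (hx : 0 < x) : mob a x ≤ 5/2 := by
  cases a
  · linarith [mob_false_lt hx]
  · unfold mob
    rw [div_le_iff₀ (mden_pos hx)]
    unfold mnum mden
    simp only [if_true]
    have h1 := two_lt_kA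
    have h2 := cA_lt
    have h3 := lt_cA
    nlinarith [mul_pos hx kA_pos, mul_pos hx (sub_pos.mpr h2)]

lemma mob_contract {a : Bool} {x y : ℝ} (hx : 2/5 ≤ x) (hy : 2/5 ≤ y) :
    |mob a x - mob a y| ≤ |x - y| / 2 := by
  rw [mob_sub (by linarith) (by linarith), abs_div]
  have h1 := mden_ge (a := a) hx
  have h2 := mden_ge (a := a) hy
  have h3 : 2 ≤ mden a x * mden a y := by nlinarith
  rw [abs_of_pos (show 0 < mden a x * mden a y by linarith)]
  exact div_le_div_of_nonneg_left (abs_nonneg _) (by norm_num) h3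

lemma continuousAt_mob {a : Bool} {x : ℝ} (hx : 0 < x) : ContinuousAt (mob a) x := by
  unfold mob
  have h1 := (mden_pos (a := a) hx).ne'
  apply ContinuousAt.div _ _ h1
  · unfold mnum; fun_prop
  · unfold mden; fun_prop

/-! ### coding -/

noncomputable def FN : ℕ → (ℕ → Bool) → ℝ
  | 0, _ => 1
  | (n+1), ω => mob (ω 0) (FN n (fun i => ω (i+1)))

lemma FN_pos (n : ℕ) : ∀ ω : ℕ → Bool, 0 < FN n ω := by
  induction n with
  | zero => intro ω; simp [FN]
  | succ n ih => intro ω; exact mob_pos (ih _)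

lemma FN_mem (n : ℕ) (ω : ℕ → Bool) : 2/5 ≤ FN n ω ∧ FN n ω ≤ 5/2 := by
  cases n with
  | zero => constructor <;> norm_num [FN]
  | succ n => exact ⟨mob_ge (FN_pos n _), mob_le (FN_pos n _)⟩

lemma FN_succ_sub (n : ℕ) : ∀ ω : ℕ → Bool, |FN (n+1) ω - FN n ω| ≤ 2 * (1/2) ^ n := by
  induction n with
  | zero =>
    intro ω
    have h := FN_mem 1 ω
    have h0 : FN 0 ω = 1 := rfl
    rw [h0, abs_le]
    constructor <;> norm_num <;> linarith [h.1, h.2]
  | succ n ih =>
    intro ω
    have h1 : FN (n+2) ω = mob (ω 0) (FN (n+1) (fun i => ω (i+1))) := rfl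
    have h2 : FN (n+1) ω = mob (ω 0) (FN n (fun i => ω (i+1))) := rfl
    rw [h1, h2]
    have h3 := mob_contract (a := ω 0) (FN_mem (n+1) (fun i => ω (i+1))).1 (FN_mem n (fun i => ω (i+1))).1
    have h4 := ih (fun i => ω (i+1))
    calc _ ≤ _ := h3
      _ ≤ (2 * (1/2) ^ n) / 2 := by linarith
      _ = 2 * (1/2) ^ (n+1) := by ring

lemma FN_cauchy (ω : ℕ → Bool) : CauchySeq (fun n => FN n ω) := by
  apply cauchySeq_of_le_geometric (1/2) 2 (by norm_num)
  intro n
  rw [dist_comm, Real.dist_eq]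
  exact FN_succ_sub n ω

noncomputable def Xi (ω : ℕ → Bool) : ℝ := (cauchySeq_tendsto_of_complete (FN_cauchy ω)).choose

lemma Xi_spec (ω : ℕ → Bool) : Tendsto (fun n => FN n ω) atTop (𝓝 (Xi ω)) :=
  (cauchySeq_tendsto_of_complete (FN_cauchy ω)).choose_spec

lemma Xi_mem (ω : ℕ → Bool) : 2/5 ≤ Xi ω ∧ Xi ω ≤ 5/2 :=
  ⟨ge_of_tendsto' (Xi_spec ω) (fun n => (FN_mem n ω).1),
    le_of_tendsto' (Xi_spec ω) (fun n => (FN_mem n ω).2)⟩

lemma Xi_pos (ω : ℕ → Bool) : 0 < Xi ω := lt_of_lt_of_le (by norm_num) (Xi_mem ω).1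

lemma Xi_eq (ω : ℕ → Bool) : Xi ω = mob (ω 0) (Xi (fun i => ω (i+1))) := by
  have h1 : Tendsto (fun n => FN (n+1) ω) atTop (𝓝 (Xi ω)) :=
    (tendsto_add_atTop_iff_nat (f := fun n => FN n ω) 1).mpr (Xi_spec ω)
  have h2 : Tendsto (fun n => mob (ω 0) (FN n (fun i => ω (i+1)))) atTop
      (𝓝 (mob (ω 0) (Xi (fun i => ω (i+1))))) :=
    (continuousAt_mob (Xi_pos _)).tendsto.comp (Xi_spec _)
  exact tendsto_nhds_unique h1 h2

lemma Xi_close (n : ℕ) : ∀ ω ω' : ℕ → Bool, (∀ i < n, ω i = ω' i) →
    |Xi ω - Xi ω'| ≤ 3 * (1/2) ^ n := by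
  induction n with
  | zero =>
    intro ω ω' _
    have h1 := Xi_mem ω
    have h2 := Xi_mem ω'
    rw [abs_le]
    constructor <;> norm_num <;> linarith [h1.1, h1.2, h2.1, h2.2]
  | succ n ih =>
    intro ω ω' h
    rw [Xi_eq ω, Xi_eq ω', h 0 (by omega)]
    have h3 := mob_contract (a := ω' 0) (Xi_mem (fun i => ω (i+1))).1 (Xi_mem (fun i => ω' (i+1))).1
    have h4 := ih (fun i => ω (i+1)) (fun i => ω' (i+1)) (fun i hi => h (i+1) (by omega))
    calc _ ≤ _ := h3
      _ ≤ (3 * (1/2) ^ n) / 2 := by linarith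
      _ = 3 * (1/2) ^ (n+1) := by ring

lemma Xi_lex (n : ℕ) : ∀ ω ω' : ℕ → Bool, (∀ i < n, ω i = ω' i) → ω n = false → ω' n = true →
    Xi ω < Xi ω' := by
  induction n with
  | zero =>
    intro ω ω' _ h1 h2
    rw [Xi_eq ω, Xi_eq ω', h1, h2]
    exact lt_trans (mob_false_lt (Xi_pos _)) (mob_true_gt (Xi_pos _))
  | succ n ih =>
    intro ω ω' h h1 h2
    rw [Xi_eq ω, Xi_eq ω', h 0 (by omega)]
    exact mob_lt (Xi_pos _) (ih _ _ (fun i hi => h (i+1) (by omega)) h1 h2)

/-! ### the rotation -/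

noncomputable def tau : ℝ := √2 - 1

lemma tau_irr : Irrational tau := by
  unfold tau
  exact_mod_cast irrational_sqrt_two.sub_natCast 1

lemma tau_pos : 0 < tau := by
  unfold tau
  have : 1 < √2 := by
    rw [Real.lt_sqrt (by norm_num)]; norm_num
  linarith

lemma tau_lt_one : tau < 1 := by
  unfold tau
  have : √2 < 2 := by
    rw [Real.sqrt_lt' (by norm_num)]; norm_num
  linarith

lemma int_combo_ne {m n : ℤ} (hm : m ≠ 0) : (m:ℝ) * tau ≠ n := by
  intro h
  have h1 : tau = ((n:ℚ) / (m:ℚ) : ℚ) := by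
    have : (m:ℝ) ≠ 0 := by exact_mod_cast hm
    push_cast
    field_simp
    linarith
  exact tau_irr ⟨_, h1.symm⟩

noncomputable def nn (j : ℤ) : ℤ := ⌊(j:ℝ) * tau + 1/2⌋
noncomputable def th (j : ℤ) : ℝ := (j:ℝ) * tau - nn j

lemma th_lt (j : ℤ) : th j < 1/2 := by
  have := Int.lt_floor_add_one ((j:ℝ) * tau + 1/2)
  unfold th nn; linarith

lemma half_ne {j n : ℤ} : (j:ℝ) * tau + 1/2 ≠ n := by
  intro h
  by_cases hj : j = 0
  · subst hj
    simp at h
    have : (2:ℝ) * n = 1 := by rw [← h]; norm_num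
    have h2 : (2 * n : ℤ) = 1 := by exact_mod_cast this
    omega
  · have h2 : ((2 * j : ℤ):ℝ) * tau = ((2 * n - 1 : ℤ) : ℝ) := by
      push_cast; linarith
    exact int_combo_ne (by omega) h2

lemma lt_th (j : ℤ) : -1/2 < th j := by
  have h := Int.floor_le ((j:ℝ) * tau + 1/2)
  have h2 : ((⌊(j:ℝ) * tau + 1/2⌋ : ℤ) : ℝ) ≠ (j:ℝ) * tau + 1/2 := fun h' => half_ne h'.symm
  have h3 := lt_of_le_of_ne h h2
  unfold th nn; linarith

lemma nn_unique {j n : ℤ} (h1 : (j:ℝ) * tau - n < 1/2) (h2 : -1/2 ≤ (j:ℝ) * tau - n) : nn j = n := by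
  unfold nn
  rw [Int.floor_eq_iff]
  constructor <;> linarith

lemma nn_neg (j : ℤ) : nn (-j) = - nn j := by
  apply nn_unique
  · have := lt_th j
    unfold th at this
    push_cast; linarith
  · have := th_lt j
    unfold th at this
    push_cast; linarith

lemma nn_zero : nn 0 = 0 := by
  apply nn_unique <;> norm_num

lemma th_neg (j : ℤ) : th (-j) = - th j := by
  unfold th; rw [nn_neg]; push_cast; ring

lemma th_inj {i j : ℤ} (h : th i = th j) : i = j := by
  by_contra hne
  unfold th at h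
  have h2 : ((i - j : ℤ):ℝ) * tau = ((nn i - nn j : ℤ) : ℝ) := by
    push_cast; linarith
  exact int_combo_ne (by omega) h2

/-- letters: `true` = up, `false` = right -/
noncomputable def aa (j : ℤ) : Bool := decide (nn (j+1) = nn j + 1)

lemma nn_succ (j : ℤ) : nn (j+1) = nn j ∨ nn (j+1) = nn j + 1 := by
  have h1 := th_lt j
  have h2 := lt_th j
  have h3 := tau_pos
  have h4 := tau_lt_one
  unfold th at h1 h2
  by_cases h : (j:ℝ) * tau - nn j + tau < 1/2
  · left
    apply nn_unique
    · push_cast; linarith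
    · push_cast; linarith
  · right
    push Not at h
    apply nn_unique
    · push_cast; linarith
    · push_cast; linarith

lemma nn_succ_true {j : ℤ} (h : aa j = true) : nn (j+1) = nn j + 1 := by
  unfold aa at h; exact of_decide_eq_true h

lemma nn_succ_false {j : ℤ} (h : aa j = false) : nn (j+1) = nn j := by
  unfold aa at h
  rcases nn_succ j with h' | h'
  · exact h'
  · exact absurd h' (of_decide_eq_false h)

lemma th_succ (j : ℤ) : th (j+1) = th j + tau - (if aa j then 1 else 0) := by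
  cases h : aa j
  · have := nn_succ_false h
    unfold th; rw [this]; push_cast; simp; ring
  · have := nn_succ_true h
    unfold th; rw [this]; push_cast; simp; ring

lemma aa_iff (j : ℤ) : aa j = true ↔ 1/2 ≤ th j + tau := by
  constructor
  · intro h
    have h1 := th_succ j
    rw [h] at h1
    simp at h1
    have := lt_th (j+1)
    linarith
  · intro h
    by_contra hc
    have hf : aa j = false := by simpa using hc
    have h1 := th_succ j
    rw [hf] at h1
    simp at h1
    have := th_lt (j+1)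
    linarith

lemma aa_symm (j : ℤ) : aa (-1 - j) = aa j := by
  unfold aa
  have h1 : nn (-1 - j + 1) = - nn j := by
    rw [← nn_neg]; congr 1; ring
  have h2 : nn (-1 - j) = - nn (j+1) := by
    rw [← nn_neg]; congr 1; ring
  rw [h1, h2]
  congr 1
  apply propext
  constructor <;> intro h <;> omega

lemma dirichlet {ε : ℝ} (hε : 0 < ε) : ∃ q : ℤ, 0 < q ∧ ∃ p : ℤ, (q:ℝ) * tau - p ≠ 0 ∧
    |(q:ℝ) * tau - p| < ε := by
  obtain ⟨n, hn⟩ := exists_nat_gt (1/ε)
  have hn0 : 0 < n := by
    have : (0:ℝ) < n := lt_trans (by positivity) hn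
    exact_mod_cast this
  obtain ⟨j, k, hk, _, h⟩ := Real.exists_int_int_abs_mul_sub_le tau hn0
  refine ⟨k, hk, j, ?_, ?_⟩
  · rw [sub_ne_zero]; exact int_combo_ne (by omega)
  · refine lt_of_le_of_lt h ?_
    rw [div_lt_iff₀ (by positivity)]
    rw [div_lt_iff₀ hε] at hn
    nlinarith

/-- the rotation orbit visits the top of the interval -/
lemma visit (j : ℤ) {δ : ℝ} (hδ : 0 < δ) : ∃ n : ℕ, 1/2 - δ ≤ th (j + n) := by
  obtain ⟨q, hq, p, hne, hlt⟩ := dirichlet hδ
  by_contra hcon
  push Not at hcon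
  set ε := (q:ℝ) * tau - p with hε
  -- along the multiples of q
  have hstep : ∀ i : ℕ, th (j + (i:ℤ) * q) = th j + i * ε := by
    intro i
    induction i with
    | zero => simp
    | succ i ih =>
      have hi : th (j + (i:ℤ) * q) < 1/2 - δ := by
        have := hcon (i * q.toNat)
        have e : ((i * q.toNat : ℕ) : ℤ) = (i:ℤ) * q := by
          push_cast
          rw [Int.toNat_of_nonneg hq.le]
        rwa [e] at this
      have hi' : th (j + ((i:ℤ)+1) * q) < 1/2 - δ := by
        have := hcon ((i+1) * q.toNat)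
        have e : (((i+1) * q.toNat : ℕ) : ℤ) = ((i:ℤ)+1) * q := by
          push_cast
          rw [Int.toNat_of_nonneg hq.le]
        rwa [e] at this
      have hlo := lt_th (j + (i:ℤ) * q)
      have hlo' := lt_th (j + ((i:ℤ)+1) * q)
      -- th (j + (i+1) q) = th (j + i q) + ε - m
      have hm : th (j + ((i:ℤ)+1) * q) = th (j + (i:ℤ) * q) + ε -
          ((nn (j + ((i:ℤ)+1) * q) - nn (j + (i:ℤ) * q) - p : ℤ) : ℝ) := by
        unfold th; rw [hε]; push_cast; ring
      set m := nn (j + ((i:ℤ)+1) * q) - nn (j + (i:ℤ) * q) - p with hmdef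
      have habs := abs_lt.mp hlt
      have hm0 : m = 0 := by
        have h1 : (m:ℝ) < 1 := by linarith
        have h2 : (-1:ℝ) < m := by linarith
        have h1' : m < 1 := by exact_mod_cast h1
        have h2' : -1 < m := by exact_mod_cast h2
        omega
      rw [hm0] at hm
      push_cast
      rw [hm, ih]
      push_cast; ring
  -- unbounded
  obtain ⟨i, hi⟩ := exists_nat_gt (2 / |ε|)
  have hε0 : 0 < |ε| := abs_pos.mpr hne
  rw [div_lt_iff₀ hε0] at hi
  have h1 := hstep i
  have h2 := th_lt (j + (i:ℤ) * q)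
  have h3 := lt_th (j + (i:ℤ) * q)
  have h4 := th_lt j
  have h5 := lt_th j
  have h6 : |(i:ℝ) * ε| = i * |ε| := by rw [abs_mul, Nat.abs_cast]
  have h7 : |(i:ℝ) * ε| < 2 := by
    rw [abs_lt]; constructor <;> linarith
  linarith

/-- the forward endpoint at the `j`-th cell -/
noncomputable def xx (j : ℤ) : ℝ := Xi (fun i : ℕ => aa (j + i))

lemma xx_mem (j : ℤ) : 2/5 ≤ xx j ∧ xx j ≤ 5/2 := Xi_mem _
lemma xx_pos (j : ℤ) : 0 < xx j := Xi_pos _

lemma xx_eq (j : ℤ) : xx j = mob (aa j) (xx (j+1)) := by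
  unfold xx
  rw [Xi_eq]
  congr 1
  · simp
  · congr 1
    ext i
    push_cast
    congr 1
    ring

theorem xx_lt {i j : ℤ} (h : th i < th j) : xx i < xx j := by
  set δ := th j - th i with hδ
  have hδ0 : 0 < δ := by linarith
  have hex : ∃ n : ℕ, aa (i + n) ≠ aa (j + n) := by
    by_contra hcon
    push Not at hcon
    have hconst : ∀ n : ℕ, th (j + n) - th (i + n) = δ := by
      intro n
      induction n with
      | zero => simp [hδ]
      | succ n ih =>
        have h1 := th_succ (j + n)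
        have h2 := th_succ (i + n)
        rw [hcon n] at h2
        push_cast
        rw [← add_assoc, ← add_assoc, h1, h2]
        linarith
    obtain ⟨n, hn⟩ := visit i hδ0
    have h1 := hconst n
    have h2 := th_lt (j + n)
    linarith
  classical
  obtain ⟨n, hn, hmin⟩ := Nat.find_spec hex |> fun h => (⟨Nat.find hex, h, fun m hm => Nat.find_min hex hm⟩ :
    ∃ n : ℕ, aa (i + n) ≠ aa (j + n) ∧ ∀ m < n, ¬ aa (i + m) ≠ aa (j + m))
  have hconst : ∀ m : ℕ, m ≤ n → th (j + m) - th (i + m) = δ := by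
    intro m
    induction m with
    | zero => intro _; simp [hδ]
    | succ m ih =>
      intro hm
      have h1 := th_succ (j + m)
      have h2 := th_succ (i + m)
      have h3 : aa (i + m) = aa (j + m) := by
        have := hmin m (by omega)
        push Not at this
        exact this
      rw [h3] at h2
      push_cast
      rw [← add_assoc, ← add_assoc, h1, h2]
      linarith [ih (by omega)]
  have hc := hconst n le_rfl
  have hf : aa (i + n) = false ∧ aa (j + n) = true := by
    cases hi : aa (i + n)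
    · cases hj : aa (j + n)
      · rw [hi, hj] at hn; exact absurd rfl hn
      · exact ⟨rfl, rfl⟩
    · exfalso
      have h1 := (aa_iff _).mp hi
      have h2 : aa (j + n) = true := by
        rw [aa_iff]; linarith
      rw [hi, h2] at hn; exact hn rfl
  exact Xi_lex n _ _ (fun m hm => by
    have := hmin m hm
    push Not at this
    exact this) hf.1 hf.2

/-- recurrence of the coding -/
theorem recur (k : ℤ) (N : ℕ) (T : ℤ) : ∃ j : ℤ, T ≤ j ∧ Even (nn j - nn k) ∧
    Even ((j - nn j) - (k - nn k)) ∧ ∀ i : ℤ, |i| ≤ N → aa (j + i) = aa (k + i) := by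
  -- a positive distance to the half integers
  have hfin : ∃ ε : ℝ, 0 < ε ∧ ∀ i : ℤ, |i| ≤ (N:ℤ) + 1 → -1/2 + ε ≤ th (k + i) ∧ th (k + i) ≤ 1/2 - ε := by
    classical
    set S : Finset ℤ := Finset.Icc (-((N:ℤ)+1)) ((N:ℤ)+1) with hS
    have hne : S.Nonempty := ⟨0, by rw [hS, Finset.mem_Icc]; constructor <;> omega⟩
    set f : ℤ → ℝ := fun i => min (th (k+i) + 1/2) (1/2 - th (k+i)) with hf
    refine ⟨S.inf' hne f, ?_, ?_⟩
    · rw [Finset.lt_inf'_iff]
      intro i _
      rw [hf]
      simp only [lt_min_iff]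
      constructor
      · linarith [lt_th (k+i)]
      · linarith [th_lt (k+i)]
    · intro i hi
      have hmem : i ∈ S := by
        rw [hS, Finset.mem_Icc]
        exact abs_le.mp hi
      have h := Finset.inf'_le f hmem
      have h1 : f i ≤ th (k+i) + 1/2 := min_le_left _ _
      have h2 : f i ≤ 1/2 - th (k+i) := min_le_right _ _
      constructor <;> linarith
  obtain ⟨ε, hε, hdist⟩ := hfin
  set M : ℕ := (T - k).toNat + 1 with hM
  have hM0 : (0:ℝ) < M := by rw [hM]; positivity
  obtain ⟨q, hq, p, _, hlt⟩ := dirichlet (ε := ε / (2 * M)) (by positivity)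
  refine ⟨k + 2 * M * q, ?_, ?_, ?_, ?_⟩
  · have h1 : T - k ≤ M := by rw [hM]; push_cast; have := Int.self_le_toNat (T - k); omega
    have h2 : (M:ℤ) ≤ 2 * M * q := by nlinarith
    omega
  all_goals
    have key : ∀ i : ℤ, |i| ≤ (N:ℤ) + 1 → nn (k + 2 * M * q + i) = nn (k + i) + 2 * M * p := by
      intro i hi
      have h1 := hdist i hi
      have h2 : |2 * M * ((q:ℝ) * tau - p)| < ε := by
        rw [abs_mul, abs_of_pos (show (0:ℝ) < 2 * M by positivity)]
        rw [lt_div_iff₀ (by positivity)] at hlt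
        linarith
      rw [abs_lt] at h2
      unfold th at h1
      apply nn_unique
      · push_cast
        push_cast at h1
        have : ((k:ℝ) + 2 * M * q + i) * tau - (nn (k+i) + 2 * M * p) =
          (((k:ℝ) + i) * tau - nn (k+i)) + 2 * M * (q * tau - p) := by ring
        rw [this]; linarith [h1.2, h2.2]
      · push_cast
        push_cast at h1
        have : ((k:ℝ) + 2 * M * q + i) * tau - (nn (k+i) + 2 * M * p) =
          (((k:ℝ) + i) * tau - nn (k+i)) + 2 * M * (q * tau - p) := by ring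
        rw [this]; linarith [h1.1, h2.1]
  · have h := key 0 (by simp; omega)
    rw [add_zero, add_zero] at h
    rw [h]
    exact ⟨M * p, by ring⟩
  · have h := key 0 (by simp; omega)
    rw [add_zero, add_zero] at h
    rw [h]
    exact ⟨M * q - M * p, by ring⟩
  · intro i hi
    have hi' := abs_le.mp hi
    have h1 := key i (by omega)
    have h2 := key (i+1) (by rw [abs_le]; constructor <;> omega)
    unfold aa
    rw [show k + 2 * M * q + i + 1 = k + 2 * M * q + (i+1) by ring, h2, h1,
      show k + i + 1 = k + (i + 1) by ring]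
    congr 1
    apply propext
    constructor <;> intro h <;> omega

lemma xx_close {j k : ℤ} {N : ℕ} (h : ∀ i : ℤ, |i| ≤ N → aa (j + i) = aa (k + i)) :
    |xx j - xx k| ≤ 3 * (1/2) ^ N ∧ |xx (-j) - xx (-k)| ≤ 3 * (1/2) ^ N := by
  constructor
  · apply Xi_close N
    intro i hi
    exact h i (by rw [abs_le]; constructor <;> omega)
  · apply Xi_close N
    intro i hi
    rw [← aa_symm (-j + i), ← aa_symm (-k + i)]
    have := h (-1 - i) (by rw [abs_le]; constructor <;> omega)
    rw [show -1 - (-j + (i:ℤ)) = j + (-1 - i) by ring, show -1 - (-k + (i:ℤ)) = k + (-1 - i) by ring]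
    exact this

/-- backward recursion in terms of `y = 1 / xx (-j)` -/
lemma xx_neg_eq (j : ℤ) : xx (-(j+1)) = mob (aa j) (xx (-j)) := by
  rw [xx_eq (-(j+1))]
  have h1 : aa (-(j+1)) = aa j := by
    rw [← aa_symm j]; congr 1; ring
  have h2 : -(j+1) + 1 = -j := by ring
  rw [h1, h2]

end H64.Ray
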