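import Pool.Agent.H64.Ray.Family

set_option autoImplicit false

open Set Filter Topology Real

namespace H64.Ray

/-! ### signs and rotations by `π` -/

/-- a sign as a real number -/
def sr (e : ℤˣ) : ℝ := ((e : ℤ) : ℝ)

lemma sr_mul (e f : ℤˣ) : sr (e * f) = sr e * sr f := by simp [sr]

lemma sr_cases (e : ℤˣ) : sr e = 1 ∨ sr e = -1 := by
  rcases Int.units_eq_one_or e with h | h
  · left; rw [h]; simp [sr]
  · right; rw [h]; simp [sr]

lemma sr_sq (e : ℤˣ) : sr e ^ 2 = 1 := by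
  rcases sr_cases e with h | h <;> rw [h] <;> norm_num

lemma sr_one : sr 1 = 1 := by simp [sr]
lemma sr_neg (e : ℤˣ) : sr (-e) = - sr e := by simp [sr]

lemma sr_inj {e f : ℤˣ} (h : sr e = sr f) : e = f := by
  unfold sr at h
  have : (e:ℤ) = (f:ℤ) := by exact_mod_cast h
  exact Units.ext this

/-- the rotation `diag (e, f, e f)` -/
noncomputable def RdFun (e f : ℤˣ) (v : E3) : E3 := !₂[sr e * v 0, sr f * v 1, sr (e * f) * v 2]

lemma RdFun_RdFun (e f : ℤˣ) (v : E3) : RdFun e f (RdFun e f v) = v := by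
  ext i
  have h1 := sr_sq e
  have h2 := sr_sq f
  have h3 := sr_sq (e * f)
  fin_cases i
  · show sr e * (sr e * v 0) = v 0
    linear_combination (v 0) * h1
  · show sr f * (sr f * v 1) = v 1
    linear_combination (v 1) * h2
  · show sr (e * f) * (sr (e * f) * v 2) = v 2
    linear_combination (v 2) * h3

noncomputable def RdLin (e f : ℤˣ) : E3 ≃ₗ[ℝ] E3 where
  toFun := RdFun e f
  map_add' v w := by
    ext i
    fin_cases i
    · show sr e * (v 0 + w 0) = sr e * v 0 + sr e * w 0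
      ring
    · show sr f * (v 1 + w 1) = sr f * v 1 + sr f * w 1
      ring
    · show sr (e*f) * (v 2 + w 2) = sr (e*f) * v 2 + sr (e*f) * w 2
      ring
  map_smul' a v := by
    ext i
    fin_cases i
    · show sr e * (a * v 0) = a * (sr e * v 0)
      ring
    · show sr f * (a * v 1) = a * (sr f * v 1)
      ring
    · show sr (e*f) * (a * v 2) = a * (sr (e*f) * v 2)
      ring
  invFun := RdFun e f
  left_inv := RdFun_RdFun e f
  right_inv := RdFun_RdFun e f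

noncomputable def Rd (e f : ℤˣ) : E3 ≃ₗᵢ[ℝ] E3 :=
  (RdLin e f).isometryOfInner (by
    intro v w
    rw [inner_eq, inner_eq]
    show sr e * v 0 * (sr e * w 0) + sr f * v 1 * (sr f * w 1) + sr (e*f) * v 2 * (sr (e*f) * w 2) = _
    have h1 := sr_sq e
    have h2 := sr_sq f
    have h3 := sr_sq (e * f)
    linear_combination (v 0 * w 0) * h1 + (v 1 * w 1) * h2 + (v 2 * w 2) * h3)

lemma Rd0 (e f : ℤˣ) (v : E3) : Rd e f v 0 = sr e * v 0 := rfl
lemma Rd1 (e f : ℤˣ) (v : E3) : Rd e f v 1 = sr f * v 1 := rfl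
lemma Rd2 (e f : ℤˣ) (v : E3) : Rd e f v 2 = sr (e * f) * v 2 := rfl

lemma Rd_Rd (e f e' f' : ℤˣ) (v : E3) : Rd e f (Rd e' f' v) = Rd (e * e') (f * f') v := by
  ext i
  fin_cases i
  · show Rd e f (Rd e' f' v) 0 = Rd (e * e') (f * f') v 0
    rw [Rd0, Rd0, Rd0, sr_mul]; ring
  · show Rd e f (Rd e' f' v) 1 = Rd (e * e') (f * f') v 1
    rw [Rd1, Rd1, Rd1, sr_mul]; ring
  · show Rd e f (Rd e' f' v) 2 = Rd (e * e') (f * f') v 2
    rw [Rd2, Rd2, Rd2, sr_mul, sr_mul, sr_mul, sr_mul, sr_mul]; ring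

lemma Rd_one (v : E3) : Rd 1 1 v = v := by
  ext i
  fin_cases i
  · show Rd 1 1 v 0 = v 0
    rw [Rd0, sr_one, one_mul]
  · show Rd 1 1 v 1 = v 1
    rw [Rd1, sr_one, one_mul]
  · show Rd 1 1 v 2 = v 2
    rw [Rd2, one_mul, sr_one, one_mul]

lemma Rd_invol (e f : ℤˣ) (v : E3) : Rd e f (Rd e f v) = v := RdFun_RdFun e f v

lemma Rd_sw (e f : ℤˣ) (v : E3) : Rd e f (sw v) = sw (Rd f e v) := by
  ext i
  fin_cases i
  · rfl
  · rfl
  · show sr (e * f) * v 2 = sr (f * e) * v 2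
    rw [mul_comm e f]

lemma r2_Rd (e f : ℤˣ) (p : E3) : r2 (Rd e f p) = r2 p := by
  unfold r2
  rw [Rd1, Rd2]
  have h2 := sr_sq f
  have h3 := sr_sq (e * f)
  linear_combination (p 1 ^ 2) * h2 + (p 2 ^ 2) * h3

lemma Tf_Rd (e f : ℤˣ) (p : E3) : Tf (Rd e f p) = sr f * Tf p := by
  unfold Tf
  rw [r2_Rd, Rd1]; ring

lemma gh_sr (e : ℤˣ) (T : ℝ) : gh (sr e * T) = gh T := by
  rcases sr_cases e with h | h <;> rw [h]
  · rw [one_mul]
  · rw [neg_one_mul, gh_neg]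

lemma wf_Rd (e f : ℤˣ) (p : E3) : wf (Rd e f p) = sr e * wf p := by
  unfold wf
  rw [Tf_Rd, gh_sr, r2_Rd, Rd0]; ring

lemma wf_Rd_sq (e f : ℤˣ) (p : E3) : wf (Rd e f p) ^ 2 = wf p ^ 2 := by
  rw [wf_Rd, mul_pow, sr_sq, one_mul]

lemma fderiv_wf_Rd (e f : ℤˣ) {p : E3} (h : 0 < r2 p) (v : E3) :
    fderiv ℝ wf (Rd e f p) (Rd e f v) = sr e * fderiv ℝ wf p v := by
  have h1 : HasFDerivAt wf (fderiv ℝ wf (Rd e f p)) (Rd e f p) :=
    (differentiableAt_wf (by rw [r2_Rd]; exact h)).hasFDerivAt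
  have h2 : HasFDerivAt (fun p => wf (Rd e f p)) ((fderiv ℝ wf (Rd e f p)).comp
      ((Rd e f).toContinuousLinearEquiv : E3 →L[ℝ] E3)) p :=
    h1.comp p (Rd e f).toContinuousLinearEquiv.hasFDerivAt
  have h3 : HasFDerivAt (fun p => sr e * wf p) (sr e • fderiv ℝ wf p) p :=
    ((differentiableAt_wf h).hasFDerivAt).const_mul (sr e)
  have h4 : (fun p => wf (Rd e f p)) = fun p => sr e * wf p := by
    ext q; exact wf_Rd e f q
  rw [h4] at h2
  have h5 := h2.unique h3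
  have h6 := congrArg (fun l => l v) h5
  exact h6

lemma om_Rd (e f : ℤˣ) (p v : E3) : om (Rd e f p) (Rd e f v) = sr e * om p v := by
  rw [om_apply, om_apply, Tf_Rd, gh_sr, r2_Rd, Rd1, Rd1, Rd2, Rd2, sr_mul]
  have h2 := sr_sq f
  linear_combination (gh (Tf p) / r2 p * (p 2 * v 1 - p 1 * v 2) * sr e) * h2

lemma G1_Rd (e f : ℤˣ) {p : E3} (h : 0 < r2 p) (v : E3) :
    G1 (Rd e f p) (Rd e f v) (Rd e f v) = G1 p v v := by
  unfold G1
  rw [Qf_apply, Qf_apply, fderiv_wf_Rd e f h, om_Rd, wf_Rd_sq]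
  have h2 := sr_sq e
  linear_combination ((((1 - wf p ^ 2) ^ 2)⁻¹ * (fderiv ℝ wf p v * fderiv ℝ wf p v)) +
    ((1 - wf p ^ 2)⁻¹ * (om p v * om p v))) * h2

lemma Rd_sphere (e f : ℤˣ) {p : E3} (h : p ∈ Metric.sphere (0 : E3) 1) :
    Rd e f p ∈ Metric.sphere (0 : E3) 1 := by
  rw [mem_sphere_zero_iff_norm] at h ⊢
  rw [(Rd e f).norm_map, h]

lemma sw_sphere {p : E3} (h : p ∈ Metric.sphere (0 : E3) 1) :
    sw p ∈ Metric.sphere (0 : E3) 1 := by
  rw [mem_sphere_zero_iff_norm] at h ⊢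
  rw [sw.norm_map, h]

/-- the chart isometry -/
noncomputable def KK (a : Bool) (e f : ℤˣ) : E3 ≃ₗᵢ[ℝ] E3 :=
  if a then Rd e f else sw.trans (Rd e f)

lemma KK_true (e f : ℤˣ) (v : E3) : KK true e f v = Rd e f v := rfl
lemma KK_false (e f : ℤˣ) (v : E3) : KK false e f v = Rd e f (sw v) := rfl

lemma KK_sphere (a : Bool) (e f : ℤˣ) {p : E3} (h : p ∈ Metric.sphere (0 : E3) 1) :
    KK a e f p ∈ Metric.sphere (0 : E3) 1 := by
  rw [mem_sphere_zero_iff_norm] at h ⊢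
  rw [(KK a e f).norm_map, h]

theorem GG_KK (a : Bool) (e f : ℤˣ) : ∀ p ∈ Metric.sphere (0 : E3) 1, 0 < r2 ((KK a e f).symm p) →
    wf ((KK a e f).symm p) ^ 2 ≤ 2/5 → ∀ v,
      GG p v v = G1 ((KK a e f).symm p) ((KK a e f).symm v) ((KK a e f).symm v) := by
  intro p hp hr hw v
  cases a
  · have e1 : ∀ q, (KK false e f).symm q = Rd f e (sw q) := by
      intro q
      rw [LinearIsometryEquiv.symm_apply_eq, KK_false, ← Rd_sw e f, Rd_invol, sw_sw]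
    rw [e1, r2_Rd] at hr
    rw [e1, wf_Rd_sq] at hw
    rw [e1, e1, G1_Rd f e hr, GG_eq_G2 hp hr hw]
  · have e1 : ∀ q, (KK true e f).symm q = Rd e f q := by
      intro q
      rw [LinearIsometryEquiv.symm_apply_eq, KK_true, Rd_invol]
    rw [e1, r2_Rd] at hr
    rw [e1, wf_Rd_sq] at hw
    rw [e1, e1, G1_Rd e f hr, GG_eq_G1 hp hr hw]

/-! ### the centre chart -/

/-- the Klein point -/
noncomputable def ctr (x1 x2 : ℝ) : E3 :=
  (√(1 + 2 * (x1 ^ 2 + x2 ^ 2)))⁻¹ • (!₂[x1, x2, √(1 + x1 ^ 2 + x2 ^ 2)] : E3)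

lemma ctr0 (x1 x2 : ℝ) : ctr x1 x2 0 = (√(1 + 2 * (x1 ^ 2 + x2 ^ 2)))⁻¹ * x1 := by simp [ctr]
lemma ctr1 (x1 x2 : ℝ) : ctr x1 x2 1 = (√(1 + 2 * (x1 ^ 2 + x2 ^ 2)))⁻¹ * x2 := by simp [ctr]
lemma ctr2 (x1 x2 : ℝ) : ctr x1 x2 2 = (√(1 + 2 * (x1 ^ 2 + x2 ^ 2)))⁻¹ * √(1 + x1 ^ 2 + x2 ^ 2) := by
  simp [ctr]

lemma sw_ctr (x1 x2 : ℝ) : sw (ctr x1 x2) = ctr x2 x1 := by
  ext i
  fin_cases i
  · show ctr x1 x2 1 = ctr x2 x1 0
    rw [ctr1, ctr0, add_comm (x1 ^ 2)]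
  · show ctr x1 x2 0 = ctr x2 x1 1
    rw [ctr1, ctr0, add_comm (x1 ^ 2)]
  · show ctr x1 x2 2 = ctr x2 x1 2
    rw [ctr2, ctr2, add_comm (x1 ^ 2), show 1 + x1 ^ 2 + x2 ^ 2 = 1 + x2 ^ 2 + x1 ^ 2 by ring]

lemma V_ctr {x1 x2 : ℝ} (h : x2 ^ 2 ≤ 1 + x1 ^ 2) : V (wX x1) (sX x1 x2) = ctr x1 x2 := by
  set R := √(1 + x1 ^ 2) with hR
  have hRp : 0 < R := R_pos x1
  have hR2 : R ^ 2 = 1 + x1 ^ 2 := R_sq x1
  have hs : Real.sinh (sX x1 x2) = x2 / R := sinh_sX x1 x2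
  have hle : Real.sinh (sX x1 x2) ^ 2 ≤ 1 := by
    rw [hs, div_pow, hR2, div_le_one (by positivity)]; exact h
  set z := √(1 + x1 ^ 2 + x2 ^ 2) with hz
  have hz2 : z ^ 2 = 1 + x1 ^ 2 + x2 ^ 2 := Real.sq_sqrt (by positivity)
  have hz0 : 0 < z := by rw [hz]; positivity
  have hc : Real.cosh (sX x1 x2) = z / R := cosh_sX hz0 hz2
  set B := √(Real.cosh (sX x1 x2) ^ 2 + Real.sinh (sX x1 x2) ^ 2) with hB
  have hB0 : 0 < B := Real.sqrt_pos.mpr (sqrt_aux _)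
  have hB2 : B ^ 2 = (z ^ 2 + x2 ^ 2) / R ^ 2 := by
    rw [hB, Real.sq_sqrt (sqrt_aux _).le, hs, hc]; field_simp
  have hev : ev (wX x1) (sX x1 x2) = x1 / (R * B) := by
    unfold ev wX
    rw [gh_Nn_exact hle, ← hB, ← hR]; field_simp
  have hsin : Real.sin (Nn (sX x1 x2)) = x2 / (R * B) := by
    rw [sin_Nn_exact hle, ← hB, hs]; field_simp
  have hcos : Real.cos (Nn (sX x1 x2)) = z / (R * B) := by
    rw [cos_Nn_exact hle, ← hB, hc]; field_simp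
  set W := √(1 + 2 * (x1 ^ 2 + x2 ^ 2)) with hW
  have hW2 : W ^ 2 = 1 + 2 * (x1 ^ 2 + x2 ^ 2) := Real.sq_sqrt (by positivity)
  have hW0 : 0 < W := by rw [hW]; positivity
  have hn : (√(1 + ev (wX x1) (sX x1 x2) ^ 2))⁻¹ = R * B / W := by
    rw [hev]
    have h1 : 1 + (x1 / (R * B)) ^ 2 = (W / (R * B)) ^ 2 := by
      rw [div_pow, div_pow, mul_pow, hB2, hW2]
      have h3 : R ^ 2 * ((z ^ 2 + x2 ^ 2) / R ^ 2) = 1 + x1 ^ 2 + 2 * x2 ^ 2 := by
        rw [hz2]; field_simp; ring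
      rw [h3]
      have : (1:ℝ) + x1 ^ 2 + 2 * x2 ^ 2 ≠ 0 := by positivity
      field_simp
      ring
    rw [h1, Real.sqrt_sq (by positivity), inv_div]
  ext i
  fin_cases i
  · show V (wX x1) (sX x1 x2) 0 = ctr x1 x2 0
    rw [V0, ctr0, hn, hev, ← hW]; field_simp
  · show V (wX x1) (sX x1 x2) 1 = ctr x1 x2 1
    rw [V1, ctr1, hn, hsin, ← hW]; field_simp
  · show V (wX x1) (sX x1 x2) 2 = ctr x1 x2 2
    rw [V2, ctr2, hn, hcos, ← hW, ← hz]; field_simp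

lemma V_shift (w s : ℝ) : V w (s + 2 * ell) = Rd 1 (-1) (V w s) := by
  have h1 : Nn (s + 2 * ell) = Nn s + π := Nn_add_two_ell s
  have hev : ev w (s + 2 * ell) = ev w s := by
    unfold ev; rw [h1, Real.sin_add_pi, gh_neg]
  ext i
  fin_cases i
  · show V w (s + 2 * ell) 0 = sr 1 * V w s 0
    rw [V0, V0, hev, sr_one, one_mul]
  · show V w (s + 2 * ell) 1 = sr (-1) * V w s 1
    rw [V1, V1, hev, h1, Real.sin_add_pi, sr_neg, sr_one]; ring
  · show V w (s + 2 * ell) 2 = sr (1 * -1) * V w s 2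
    rw [V2, V2, hev, h1, Real.cos_add_pi, one_mul, sr_neg, sr_one]; ring

/-! ### the pieces of the curve -/

/-- horizontal sign -/
noncomputable def e1 (k : ℕ) : ℤˣ := Int.negOnePow (k - nn k)
/-- vertical sign -/
noncomputable def e2 (k : ℕ) : ℤˣ := Int.negOnePow (nn k)

/-- the `k`-th geodesic drawn in the chart of type `a` -/
noncomputable def cell (a : Bool) (k : ℕ) (t : ℝ) : E3 :=
  KK a (e1 k) (e2 k) (V ((gs a k).w t) ((gs a k).s t))

lemma cell_sphere (a : Bool) (k : ℕ) (t : ℝ) : cell a k t ∈ Metric.sphere (0 : E3) 1 :=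
  KK_sphere _ _ _ (V_sphere _ _)

theorem cell_step (k : ℕ) (t : ℝ) : cell (aa k) k t = cell (aa k) (k+1) t := by
  unfold cell
  rw [gs_w, gs_s, V_shift]
  cases h : aa k
  · have h1 := nn_succ_false h
    have f1 : e1 (k+1) = - e1 k := by
      unfold e1
      push_cast
      rw [h1, show (k:ℤ) + 1 - nn k = (k - nn k) + 1 by ring, Int.negOnePow_succ]
    have f2 : e2 (k+1) = e2 k := by
      unfold e2; push_cast; rw [h1]
    rw [f1, f2, KK_false, KK_false, ← Rd_sw, Rd_Rd]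
    simp
  · have h1 := nn_succ_true h
    have f1 : e1 (k+1) = e1 k := by
      unfold e1
      push_cast
      rw [h1, show (k:ℤ) + 1 - (nn k + 1) = (k - nn k) by ring]
    have f2 : e2 (k+1) = - e2 k := by
      unfold e2; push_cast; rw [h1, Int.negOnePow_succ]
    rw [f1, f2, KK_true, KK_true, Rd_Rd]
    simp

theorem cell_center (a b : Bool) (k : ℕ) {t : ℝ} (h1 : (gk k).X1 t ^ 2 ≤ 1 + (gk k).X2 t ^ 2)
    (h2 : (gk k).X2 t ^ 2 ≤ 1 + (gk k).X1 t ^ 2) : cell a k t = cell b k t := by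
  have ht : cell true k t = Rd (e1 k) (e2 k) (ctr ((gk k).X1 t) ((gk k).X2 t)) := by
    unfold cell
    rw [KK_true]
    show Rd (e1 k) (e2 k) (V (wX ((gk k).X1 t)) (sX ((gk k).X1 t) ((gk k).X2 t))) = _
    rw [V_ctr h2]
  have hf : cell false k t = Rd (e1 k) (e2 k) (ctr ((gk k).X1 t) ((gk k).X2 t)) := by
    unfold cell
    rw [KK_false]
    show Rd (e1 k) (e2 k) (sw (V (wX ((gk k).X2 t)) (sX ((gk k).X2 t) ((gk k).X1 t)))) = _
    rw [V_ctr h1, sw_ctr]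
  cases a <;> cases b <;> simp [ht, hf]

/-! ### the curve -/

lemma exists_mm_gt (t : ℝ) : ∃ k : ℕ, t < mm (k+1) := by
  obtain ⟨n, hn⟩ := exists_nat_gt (2 * t)
  refine ⟨n, ?_⟩
  have h1 := mm_ge (n+1)
  push_cast at h1
  linarith

open Classical in
/-- the index of the cell at time `t` -/
noncomputable def kk (t : ℝ) : ℕ := Nat.find (exists_mm_gt t)

lemma lt_mm_kk (t : ℝ) : t < mm (kk t + 1) := by
  classical
  exact Nat.find_spec (exists_mm_gt t)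

lemma mm_kk_le {t : ℝ} (ht : 0 ≤ t) : mm (kk t) ≤ t := by
  classical
  by_contra hc
  push Not at hc
  rcases Nat.eq_zero_or_pos (kk t) with h | h
  · rw [h] at hc
    simp only [mm] at hc
    linarith
  · obtain ⟨j, hj⟩ : ∃ j, kk t = j + 1 := ⟨kk t - 1, by omega⟩
    rw [hj] at hc
    have h1 : kk t ≤ j := Nat.find_min' (exists_mm_gt t) hc
    omega

lemma kk_unique {t : ℝ} {k : ℕ} (h1 : mm k ≤ t) (h2 : t < mm (k+1)) : kk t = k := by
  classical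
  have h3 : kk t ≤ k := Nat.find_min' (exists_mm_gt t) h2
  have h4 := lt_mm_kk t
  have h5 : mm k < mm (kk t + 1) := lt_of_le_of_lt h1 h4
  have h6 : k < kk t + 1 := strictMono_mm.lt_iff_lt.mp h5
  omega

/-- the geodesic ray -/
noncomputable def cur (t : ℝ) : E3 := cell (aa (kk t)) (kk t) t

lemma cur_sphere (t : ℝ) : cur t ∈ Metric.sphere (0 : E3) 1 := cell_sphere _ _ _

lemma mm_zero : mm 0 = 0 := rfl

lemma cell_center_near (a b : Bool) (k : ℕ) : ∀ᶠ t in 𝓝 (mm k), cell a k t = cell b k t := by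
  have h := gs_mid true k
  have hc1 : ContinuousAt (fun t => (gk k).X1 t ^ 2) (mm k) :=
    ((gk k).contDiff_X1.continuous.pow 2).continuousAt
  have hc2 : ContinuousAt (fun t => (gk k).X2 t ^ 2) (mm k) :=
    ((gk k).contDiff_X2.continuous.pow 2).continuousAt
  have h1 : ∀ᶠ t in 𝓝 (mm k), (gk k).X1 t ^ 2 < 9/16 := hc1.eventually (gt_mem_nhds h.1)
  have h2 : ∀ᶠ t in 𝓝 (mm k), (gk k).X2 t ^ 2 < 9/16 := hc2.eventually (gt_mem_nhds h.2)
  filter_upwards [h1, h2] with t h1 h2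
  apply cell_center
  · nlinarith [sq_nonneg ((gk k).X2 t)]
  · nlinarith [sq_nonneg ((gk k).X1 t)]

theorem cur_local {t₀ : ℝ} (ht₀ : 0 ≤ t₀) :
    ∀ᶠ t in 𝓝 t₀, t ∈ Set.Ici (0:ℝ) → cur t = cell (aa (kk t₀)) (kk t₀) t := by
  have h1 := mm_kk_le ht₀
  have h2 := lt_mm_kk t₀
  set k := kk t₀ with hk
  rcases h1.lt_or_eq with h1 | h1
  · filter_upwards [Ioo_mem_nhds h1 h2] with t ht _
    unfold cur
    rw [kk_unique ht.1.le ht.2]
  · rcases Nat.eq_zero_or_pos k with h0 | h0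
    · have h3 : ∀ᶠ t in 𝓝 t₀, t < mm (k+1) := gt_mem_nhds h2
      filter_upwards [h3] with t ht ht0
      unfold cur
      rw [kk_unique (k := k) _ ht]
      rw [h0, mm_zero]; exact ht0
    · obtain ⟨j, hj⟩ : ∃ j, k = j + 1 := ⟨k - 1, by omega⟩
      have h3 : ∀ᶠ t in 𝓝 t₀, t < mm (k+1) := gt_mem_nhds h2
      have h4 : ∀ᶠ t in 𝓝 t₀, mm j < t := by
        apply lt_mem_nhds
        rw [← h1, hj]; exact mm_lt_succ j
      have h5 := cell_center_near (aa j) (aa k) k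
      rw [h1] at h5
      filter_upwards [h3, h4, h5] with t ht3 ht4 ht5 _
      by_cases htk : mm k ≤ t
      · unfold cur
        rw [kk_unique htk ht3]
      · push Not at htk
        unfold cur
        rw [kk_unique ht4.le (by rw [← hj]; exact htk), cell_step, ← ht5, hj]

lemma LocMinAt.congr {G : E3 → Bil} {D : Set ℝ} {c c' : ℝ → E3} {t : ℝ}
    (h : LocMinAt G D c' t) (he : ∀ᶠ s in 𝓝 t, s ∈ D → c s = c' s) : LocMinAt G D c t := by
  obtain ⟨ε, hε, H⟩ := h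
  obtain ⟨ε', hε', he⟩ := Metric.eventually_nhds_iff.mp he
  refine ⟨min ε ε', lt_min hε hε', ?_⟩
  intro s₁ h₁ s₂ h₂ a1 a2 a3
  have b1 : t - ε < s₁ := by linarith [min_le_left ε ε']
  have b2 : s₂ < t + ε := by linarith [min_le_left ε ε']
  have b3 : t - ε' < s₁ := by linarith [min_le_right ε ε']
  have b4 : s₂ < t + ε' := by linarith [min_le_right ε ε']
  have e1 : c s₁ = c' s₁ := he (by rw [Real.dist_eq, abs_lt]; constructor <;> linarith) h₁
  have e2 : c s₂ = c' s₂ := he (by rw [Real.dist_eq, abs_lt]; constructor <;> linarith) h₂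
  rw [e1, e2]
  exact H s₁ h₁ s₂ h₂ b1 a2 b2

theorem cell_locMin {m : ℝ} (hm : 0 < m)
    (hlow : ∀ x ∈ Metric.sphere (0 : E3) 1, ∀ v : E3, inner ℝ x v = (0:ℝ) →
      m ^ 2 * ‖v‖ ^ 2 ≤ GG x v v) (a : Bool) (k : ℕ) (t : ℝ) (hw : (gs a k).w t ^ 2 < 2/5)
    (D : Set ℝ) : LocMinAt GG D (cell a k) t := by
  have h := (gs a k).street_locMin hm hlow (KK a (e1 k) (e2 k)).symm (GG_KK a (e1 k) (e2 k)) t hw D
  rw [LinearIsometryEquiv.symm_symm] at h
  exact h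

theorem cur_locMin {m : ℝ} (hm : 0 < m)
    (hlow : ∀ x ∈ Metric.sphere (0 : E3) 1, ∀ v : E3, inner ℝ x v = (0:ℝ) →
      m ^ 2 * ‖v‖ ^ 2 ≤ GG x v v) {t : ℝ} (ht : 0 ≤ t) :
    LocMinAt GG (Set.Ici 0) cur t := by
  have h := cell_locMin hm hlow (aa (kk t)) (kk t) t (gs_w_lt _ (mm_kk_le ht) (lt_mm_kk t).le) (Set.Ici 0)
  exact h.congr (cur_local ht)

lemma continuous_cell (a : Bool) (k : ℕ) : Continuous (cell a k) := by
  unfold cell
  exact (KK a (e1 k) (e2 k)).continuous.comp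
    (contDiff_V (gs a k).contDiff_w (gs a k).contDiff_s).continuous

theorem continuousOn_cur : ContinuousOn cur (Set.Ici 0) := by
  intro t ht
  have h1 : ContinuousWithinAt (cell (aa (kk t)) (kk t)) (Set.Ici 0) t :=
    (continuous_cell _ _).continuousWithinAt
  refine h1.congr_of_eventuallyEq ?_ ?_
  · exact eventually_nhdsWithin_iff.mpr (cur_local ht)
  · rfl

end H64.Ray
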