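import Pool.Agent.H64.Ray.Geod

set_option autoImplicit false

open Set Filter Topology Real

namespace H64.Ray

/-! ### equivariance -/

lemma poly_true (z : ℝ) :
    mnum true z ^ 2 + mden true z ^ 2 = (1 + 4 * kA ^ 2) * (z ^ 2 + 1) + 2 * (kA * cA) * (z ^ 2 + 2 * z - 1) ∧
    mden true z ^ 2 + 2 * mnum true z * mden true z - mnum true z ^ 2 = 1 + 2 * z - z ^ 2 ∧
    mnum true z ^ 2 + 2 * mnum true z * mden true z - mden true z ^ 2 =
      4 * (kA * cA) * (z ^ 2 + 1) + (1 + 4 * kA ^ 2) * (z ^ 2 + 2 * z - 1) := by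
  have hc := cA_sq
  unfold mnum mden
  simp only [if_true]
  refine ⟨?_, ?_, ?_⟩
  · linear_combination (z ^ 2 + 1) * hc
  · linear_combination (1 + 2 * z - z ^ 2) * hc
  · linear_combination (z ^ 2 + 2 * z - 1) * hc

lemma poly_false (z : ℝ) :
    mnum false z ^ 2 + mden false z ^ 2 = (1 + 4 * kA ^ 2) * (z ^ 2 + 1) + 2 * (kA * cA) * (1 + 2 * z - z ^ 2) ∧
    mnum false z ^ 2 + 2 * mnum false z * mden false z - mden false z ^ 2 = z ^ 2 + 2 * z - 1 ∧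
    mden false z ^ 2 + 2 * mnum false z * mden false z - mnum false z ^ 2 =
      4 * (kA * cA) * (z ^ 2 + 1) + (1 + 4 * kA ^ 2) * (1 + 2 * z - z ^ 2) := by
  have hc := cA_sq
  unfold mnum mden
  simp only [Bool.false_eq_true, if_false]
  refine ⟨?_, ?_, ?_⟩
  · linear_combination (z ^ 2 + 1) * hc
  · linear_combination (z ^ 2 + 2 * z - 1) * hc
  · linear_combination (1 + 2 * z - z ^ 2) * hc

/-- the three components of a scaled null vector -/
noncomputable def n0 (A z : ℝ) : ℝ := A * ((z ^ 2 + 1) / 2)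
noncomputable def n1 (A z : ℝ) : ℝ := A * ((1 + 2 * z - z ^ 2) / 2 / √2)
noncomputable def n2 (A z : ℝ) : ℝ := A * ((z ^ 2 + 2 * z - 1) / 2 / √2)

lemma vec_true {A A' z z' : ℝ} (hA : A = A' * mden true z' ^ 2)
    (hz : mnum true z' = z * mden true z') :
    n0 A z = Real.cosh (2 * ell) * n0 A' z' + Real.sinh (2 * ell) * n2 A' z' ∧
    n1 A z = n1 A' z' ∧
    n2 A z = Real.sinh (2 * ell) * n0 A' z' + Real.cosh (2 * ell) * n2 A' z' := by
  obtain ⟨h1, h2, h3⟩ := poly_true z'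
  have hs := sqrt2_sq
  have h0 : (√2:ℝ) ≠ 0 := by positivity
  rw [cosh_two_ell, sinh_two_ell]
  unfold n0 n1 n2
  rw [hA]
  rw [hz] at h1 h2 h3
  refine ⟨?_, ?_, ?_⟩
  · field_simp
    linear_combination A' * h1
  · field_simp
    linear_combination A' * h2
  · field_simp
    rw [hs]
    linear_combination A' * h3

lemma vec_false {A A' z z' : ℝ} (hA : A = A' * mden false z' ^ 2)
    (hz : mnum false z' = z * mden false z') :
    n0 A z = Real.cosh (2 * ell) * n0 A' z' + Real.sinh (2 * ell) * n1 A' z' ∧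
    n2 A z = n2 A' z' ∧
    n1 A z = Real.sinh (2 * ell) * n0 A' z' + Real.cosh (2 * ell) * n1 A' z' := by
  obtain ⟨h1, h2, h3⟩ := poly_false z'
  have hs := sqrt2_sq
  have h0 : (√2:ℝ) ≠ 0 := by positivity
  rw [cosh_two_ell, sinh_two_ell]
  unfold n0 n1 n2
  rw [hA]
  rw [hz] at h1 h2 h3
  refine ⟨?_, ?_, ?_⟩
  · field_simp
    linear_combination A' * h1
  · field_simp
    linear_combination A' * h2
  · field_simp
    rw [hs]
    linear_combination A' * h3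

lemma gk_P0 (k : ℕ) : (gk k).P0 = n0 (Real.exp (-mm k) * sigP (xx k) (yy k)) (xx k) := rfl
lemma gk_P1 (k : ℕ) : (gk k).P1 = n1 (Real.exp (-mm k) * sigP (xx k) (yy k)) (xx k) := rfl
lemma gk_P2 (k : ℕ) : (gk k).P2 = n2 (Real.exp (-mm k) * sigP (xx k) (yy k)) (xx k) := rfl
lemma gk_Q0 (k : ℕ) : (gk k).Q0 = n0 (Real.exp (mm k) * sigQ (xx k) (yy k)) (-yy k) := by
  show Real.exp (mm k) * sigQ (xx k) (yy k) * ((yy k ^ 2 + 1) / 2) = _
  unfold n0; ring
lemma gk_Q1 (k : ℕ) : (gk k).Q1 = n1 (Real.exp (mm k) * sigQ (xx k) (yy k)) (-yy k) := by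
  show Real.exp (mm k) * sigQ (xx k) (yy k) * ((1 - 2 * yy k - yy k ^ 2) / 2 / √2) = _
  unfold n1; ring
lemma gk_Q2 (k : ℕ) : (gk k).Q2 = n2 (Real.exp (mm k) * sigQ (xx k) (yy k)) (-yy k) := by
  show Real.exp (mm k) * sigQ (xx k) (yy k) * ((yy k ^ 2 - 2 * yy k - 1) / 2 / √2) = _
  unfold n2; ring

lemma yy_rel (j : ℤ) : (yy (j+1))⁻¹ = mob (aa j) (yy j)⁻¹ := by
  unfold yy
  rw [inv_inv, inv_inv, xx_neg_eq]

lemma yy_back (j : ℤ) : 0 < mden (aa j) (-yy (j+1)) ∧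
    mnum (aa j) (-yy (j+1)) = -yy j * mden (aa j) (-yy (j+1)) := by
  have h := back_rel (aa j) (Y := (yy j)⁻¹) (Y' := (yy (j+1))⁻¹) (inv_pos.mpr (yy_pos j)) (yy_rel j)
  rw [inv_inv, inv_inv] at h
  exact h

lemma xx_fwd (j : ℤ) : mnum (aa j) (xx (j+1)) = xx j * mden (aa j) (xx (j+1)) := by
  have h := mden_pos (a := aa j) (xx_pos (j+1))
  rw [xx_eq j]; unfold mob
  field_simp

lemma det_rel (a : Bool) (x y : ℝ) : mnum a x * mden a (-y) - mnum a (-y) * mden a x = x + y := by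
  have hc := cA_sq
  unfold mnum mden
  cases a
  · simp only [Bool.false_eq_true, if_false]
    linear_combination (x + y) * hc
  · simp only [if_true]
    linear_combination (x + y) * hc

lemma sum_rel (j : ℤ) : (xx j + yy j) * (mden (aa j) (xx (j+1)) * mden (aa j) (-yy (j+1))) =
    xx (j+1) + yy (j+1) := by
  rw [← det_rel (aa j) (xx (j+1)) (yy (j+1)), xx_fwd j, (yy_back j).2]
  ring

lemma coefP (k : ℕ) : Real.exp (-mm k) * sigP (xx k) (yy k) =
    Real.exp (-mm (k+1)) * sigP (xx (k+1)) (yy (k+1)) * mden (aa k) (xx (k+1)) ^ 2 := by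
  have h1 := sigP_pos (xx_pos k) (yy_pos k)
  have h2 := rho_pos k
  have h3 : Real.exp (-mm (k+1)) = Real.exp (-mm k) / rho k := by
    rw [Real.exp_neg, exp_mm, Real.exp_neg]
    field_simp
  rw [h3]
  have h4 : sigP (xx (k+1)) (yy (k+1)) * mden (aa k) (xx (k+1)) ^ 2 = rho k * sigP (xx k) (yy k) := by
    unfold rho; field_simp
  rw [mul_assoc, h4]
  field_simp

lemma coefQ (k : ℕ) : Real.exp (mm k) * sigQ (xx k) (yy k) =
    Real.exp (mm (k+1)) * sigQ (xx (k+1)) (yy (k+1)) * mden (aa k) (-yy (k+1)) ^ 2 := by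
  have hP := sigP_pos (xx_pos k) (yy_pos k)
  have h4 : sigP (xx (k+1)) (yy (k+1)) * mden (aa k) (xx (k+1)) ^ 2 = rho k * sigP (xx k) (yy k) := by
    unfold rho; field_simp
  have h5 := sigPQ (xx_pos k) (yy_pos k)
  have h6 := sigPQ (xx_pos (k+1)) (yy_pos (k+1))
  have h7 := sum_rel k
  rw [exp_mm]
  have hx := xx_pos k
  have hy := yy_pos k
  have hx' := xx_pos (k+1)
  have hy' := yy_pos (k+1)
  set S := sigP (xx k) (yy k) with hS
  set S' := sigP (xx (k+1)) (yy (k+1)) with hS'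
  set Q := sigQ (xx k) (yy k) with hQ
  set Q' := sigQ (xx (k+1)) (yy (k+1)) with hQ'
  set d := mden (aa k) (xx (k+1)) with hd
  set e := mden (aa k) (-yy (k+1)) with he
  have h8 : S * Q = S * (rho k * Q' * e ^ 2) := by
    have h9 : S * (rho k * Q' * e ^ 2) = (S' * Q') * (d * e) ^ 2 := by
      linear_combination (-(Q' * e ^ 2)) * h4
    rw [h9, h5, h6, ← h7]
    have hde : d * e ≠ 0 := by
      intro h0
      rw [h0, mul_zero] at h7
      linarith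
    field_simp
    rw [div_self hde]
  have h9 := mul_left_cancel₀ hP.ne' h8
  rw [h9]; ring

/-- the geodesic of type `a` -/
noncomputable def gs (a : Bool) (k : ℕ) : Geo := if a then gk k else (gk k).sw

theorem gs_step (k : ℕ) (t : ℝ) :
    (gs (aa k) k).X0 t = Real.cosh (2 * ell) * (gs (aa k) (k+1)).X0 t +
      Real.sinh (2 * ell) * (gs (aa k) (k+1)).X2 t ∧
    (gs (aa k) k).X1 t = (gs (aa k) (k+1)).X1 t ∧
    (gs (aa k) k).X2 t = Real.sinh (2 * ell) * (gs (aa k) (k+1)).X0 t +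
      Real.cosh (2 * ell) * (gs (aa k) (k+1)).X2 t := by
  have hA := coefP k
  have hB := coefQ k
  have hx := xx_fwd k
  have hy := (yy_back k).2
  have c1 : ((k+1 : ℕ) : ℤ) = (k:ℤ) + 1 := by push_cast; ring
  cases h : aa k
  · rw [h] at hA hB hx hy
    obtain ⟨p0, p2, p1⟩ := vec_false hA hx
    obtain ⟨q0, q2, q1⟩ := vec_false hB hy
    rw [← c1, ← gk_P0, ← gk_P0, ← gk_P1] at p0
    rw [← c1, ← gk_P1, ← gk_P0, ← gk_P1] at p1
    rw [← c1, ← gk_P2, ← gk_P2] at p2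
    rw [← c1, ← gk_Q0, ← gk_Q0, ← gk_Q1] at q0
    rw [← c1, ← gk_Q1, ← gk_Q0, ← gk_Q1] at q1
    rw [← c1, ← gk_Q2, ← gk_Q2] at q2
    simp only [gs, Bool.false_eq_true, if_false, Geo.sw_X0, Geo.sw_X1, Geo.sw_X2]
    unfold Geo.X0 Geo.X1 Geo.X2
    rw [p0, p1, p2, q0, q1, q2]
    refine ⟨by ring, by ring, by ring⟩
  · rw [h] at hA hB hx hy
    obtain ⟨p0, p1, p2⟩ := vec_true hA hx
    obtain ⟨q0, q1, q2⟩ := vec_true hB hy
    rw [← c1, ← gk_P0, ← gk_P0, ← gk_P2] at p0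
    rw [← c1, ← gk_P2, ← gk_P0, ← gk_P2] at p2
    rw [← c1, ← gk_P1, ← gk_P1] at p1
    rw [← c1, ← gk_Q0, ← gk_Q0, ← gk_Q2] at q0
    rw [← c1, ← gk_Q2, ← gk_Q0, ← gk_Q2] at q2
    rw [← c1, ← gk_Q1, ← gk_Q1] at q1
    simp only [gs, if_true]
    unfold Geo.X0 Geo.X1 Geo.X2
    rw [p0, p1, p2, q0, q1, q2]
    refine ⟨by ring, by ring, by ring⟩

lemma Geo.sinh_s (g : Geo) (t : ℝ) : Real.sinh (g.s t) = g.X2 t / √(1 + g.X1 t ^ 2) := sinh_sX _ _
lemma Geo.cosh_s (g : Geo) (t : ℝ) : Real.cosh (g.s t) = g.X0 t / √(1 + g.X1 t ^ 2) :=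
  cosh_sX (g.X0_pos t) (g.norm_eq t)

theorem gs_w (k : ℕ) (t : ℝ) : (gs (aa k) k).w t = (gs (aa k) (k+1)).w t := by
  unfold Geo.w; rw [(gs_step k t).2.1]

theorem gs_s (k : ℕ) (t : ℝ) : (gs (aa k) k).s t = (gs (aa k) (k+1)).s t + 2 * ell := by
  apply Real.sinh_injective
  rw [Real.sinh_add, Geo.sinh_s, Geo.sinh_s, Geo.cosh_s, (gs_step k t).2.2, (gs_step k t).2.1]
  ring

/-! ### bounds -/

lemma gs_mid (a : Bool) (k : ℕ) : (gs a k).X1 (mm k) ^ 2 < 9/16 ∧ (gs a k).X2 (mm k) ^ 2 < 9/16 := by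
  have h := mk_mid_bound (m := mm k) (xx_pos k) (yy_pos k) (xx_mem k).1 (xx_mem k).2
    (yy_mem k).1 (yy_mem k).2
  cases a
  · exact ⟨h.2, h.1⟩
  · exact h

lemma convex_sq {p q a b t M : ℝ} (hat : a ≤ t) (htb : t ≤ b)
    (ha : (Real.exp a * p + Real.exp (-a) * q) ^ 2 < M) (hb : (Real.exp b * p + Real.exp (-b) * q) ^ 2 < M) :
    (Real.exp t * p + Real.exp (-t) * q) ^ 2 < M := by
  have hE : ∀ r : ℝ, (Real.exp r * p + Real.exp (-r) * q) ^ 2 =
      p ^ 2 * Real.exp (2 * r) + q ^ 2 * (Real.exp (2 * r))⁻¹ + 2 * p * q := by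
    intro r
    have h1 : Real.exp (2 * r) = Real.exp r ^ 2 := by
      rw [← Real.exp_nat_mul]; norm_num
    have h2 : (Real.exp (2 * r))⁻¹ = Real.exp (-r) ^ 2 := by
      rw [h1, Real.exp_neg, inv_pow]
    rw [h2, h1]
    linear_combination 2 * p * q * Geo.exp_mul r
  rw [hE] at ha hb ⊢
  by_contra hc
  push Not at hc
  set u := Real.exp (2 * a) with hu
  set v := Real.exp (2 * t) with hv
  set w := Real.exp (2 * b) with hw
  have hu0 : 0 < u := Real.exp_pos _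
  have hv0 : 0 < v := Real.exp_pos _
  have hw0 : 0 < w := Real.exp_pos _
  have huv : u ≤ v := Real.exp_le_exp.mpr (by linarith)
  have hvw : v ≤ w := Real.exp_le_exp.mpr (by linarith)
  have e1 : 0 < p ^ 2 * v + q ^ 2 * v⁻¹ - (p ^ 2 * u + q ^ 2 * u⁻¹) := by linarith
  have e2 : 0 < p ^ 2 * v + q ^ 2 * v⁻¹ - (p ^ 2 * w + q ^ 2 * w⁻¹) := by linarith
  have f1 : p ^ 2 * v + q ^ 2 * v⁻¹ - (p ^ 2 * u + q ^ 2 * u⁻¹) = (v - u) * (p ^ 2 - q ^ 2 / (u * v)) := by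
    field_simp; ring
  have f2 : p ^ 2 * v + q ^ 2 * v⁻¹ - (p ^ 2 * w + q ^ 2 * w⁻¹) = (w - v) * (q ^ 2 / (w * v) - p ^ 2) := by
    field_simp; ring
  rw [f1] at e1
  rw [f2] at e2
  have g1 : 0 < p ^ 2 - q ^ 2 / (u * v) := by
    by_contra hneg
    push Not at hneg
    have := mul_nonpos_of_nonneg_of_nonpos (sub_nonneg.mpr huv) hneg
    linarith
  have g2 : 0 < q ^ 2 / (w * v) - p ^ 2 := by
    by_contra hneg
    push Not at hneg
    have := mul_nonpos_of_nonneg_of_nonpos (sub_nonneg.mpr hvw) hneg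
    linarith
  have g3 : q ^ 2 / (w * v) ≤ q ^ 2 / (u * v) := by
    apply div_le_div_of_nonneg_left (by positivity) (by positivity)
    exact mul_le_mul_of_nonneg_right (le_trans huv hvw) hv0.le
  linarith

theorem gs_X1_lt (k : ℕ) {t : ℝ} (h1 : mm k ≤ t) (h2 : t ≤ mm (k+1)) :
    (gs (aa k) k).X1 t ^ 2 < 9/16 := by
  have ha := (gs_mid (aa k) k).1
  have hb := (gs_mid (aa k) (k+1)).1
  rw [← (gs_step k (mm (k+1))).2.1] at hb
  exact convex_sq h1 h2 ha hb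

theorem gs_w_lt (k : ℕ) {t : ℝ} (h1 : mm k ≤ t) (h2 : t ≤ mm (k+1)) :
    (gs (aa k) k).w t ^ 2 < 2/5 := by
  have h := gs_X1_lt k h1 h2
  unfold Geo.w
  rw [wX_sq, div_lt_iff₀ (by positivity)]
  linarith

lemma incr_ge {p q a t : ℝ} (hp : 0 < p) (hat : a ≤ t)
    (ha : -(3/4) < Real.exp a * p + Real.exp (-a) * q) :
    -(3/4) < Real.exp t * p + Real.exp (-t) * q := by
  by_cases hq : 0 ≤ q
  · have h1 := Real.exp_pos t
    have h2 := Real.exp_pos (-t)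
    have : 0 ≤ Real.exp t * p + Real.exp (-t) * q := by positivity
    linarith
  · push Not at hq
    have h1 : Real.exp a ≤ Real.exp t := Real.exp_le_exp.mpr hat
    have h2 : Real.exp (-t) ≤ Real.exp (-a) := Real.exp_le_exp.mpr (by linarith)
    nlinarith

lemma decr_le {p q b t : ℝ} (hq : q < 0) (htb : t ≤ b)
    (hb : Real.exp b * p + Real.exp (-b) * q < 3/4) :
    Real.exp t * p + Real.exp (-t) * q < 3/4 := by
  by_cases hp : p ≤ 0
  · have h1 := Real.exp_pos t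
    have h2 := Real.exp_pos (-t)
    have : Real.exp t * p + Real.exp (-t) * q ≤ 0 := by
      have e1 : Real.exp t * p ≤ 0 := mul_nonpos_of_nonneg_of_nonpos h1.le hp
      have e2 : Real.exp (-t) * q ≤ 0 := mul_nonpos_of_nonneg_of_nonpos h2.le hq.le
      linarith
    linarith
  · push Not at hp
    have h1 : Real.exp t ≤ Real.exp b := Real.exp_le_exp.mpr htb
    have h2 : Real.exp (-b) ≤ Real.exp (-t) := Real.exp_le_exp.mpr (by linarith)
    nlinarith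

lemma gs_X2_gt (k : ℕ) {t : ℝ} (h1 : mm k ≤ t) : -(3/4) < (gs (aa k) k).X2 t := by
  have hm := (gs_mid (aa k) k).2
  have hm' : -(3/4) < (gs (aa k) k).X2 (mm k) := by nlinarith
  have hs : 0 < sigP (xx k) (yy k) := sigP_pos (xx_pos k) (yy_pos k)
  have hP : 0 < (gs (aa k) k).P2 := by
    have hx := xx_eq (k:ℤ)
    cases h : aa k
    · rw [h] at hx
      have h2 := mob_false_lt (xx_pos ((k:ℤ)+1))
      rw [← hx] at h2
      have h3 := xx_pos (k:ℤ)
      show 0 < (gk k).P1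
      rw [gk_P1]; unfold n1
      have : 0 < 1 + 2 * xx k - xx k ^ 2 := by nlinarith
      positivity
    · rw [h] at hx
      have h2 := mob_true_gt (xx_pos ((k:ℤ)+1))
      rw [← hx] at h2
      show 0 < (gk k).P2
      rw [gk_P2]; unfold n2
      have : 0 < xx k ^ 2 + 2 * xx k - 1 := by nlinarith
      positivity
  exact incr_ge hP h1 hm'

lemma gs_X2_lt (k : ℕ) {t : ℝ} (h1 : t ≤ mm (k+1)) : (gs (aa k) (k+1)).X2 t < 3/4 := by
  have hm := (gs_mid (aa k) (k+1)).2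
  have hm' : (gs (aa k) (k+1)).X2 (mm (k+1)) < 3/4 := by nlinarith
  have hs : 0 < sigQ (xx ((k+1:ℕ):ℤ)) (yy ((k+1:ℕ):ℤ)) := sigQ_pos (xx_pos _) (yy_pos _)
  have hQ : (gs (aa k) (k+1)).Q2 < 0 := by
    have hy := yy_rel (k:ℤ)
    have c1 : ((k+1 : ℕ) : ℤ) = (k:ℤ) + 1 := by push_cast; ring
    have hy0 := yy_pos ((k:ℤ)+1)
    cases h : aa k
    · rw [h] at hy
      have h2 := mob_false_lt (inv_pos.mpr (yy_pos (k:ℤ)))
      rw [← hy] at h2
      have h3 : 1 < yy ((k:ℤ)+1) := (inv_lt_one₀ hy0).mp h2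
      show (gk (k+1)).Q1 < 0
      rw [gk_Q1]; unfold n1
      rw [c1] at hs ⊢
      have : (1 + 2 * -yy ((k:ℤ)+1) - (-yy ((k:ℤ)+1)) ^ 2) / 2 / √2 < 0 := by
        apply div_neg_of_neg_of_pos _ (by positivity)
        nlinarith
      exact mul_neg_of_pos_of_neg (by positivity) this
    · rw [h] at hy
      have h2 := mob_true_gt (inv_pos.mpr (yy_pos (k:ℤ)))
      rw [← hy] at h2
      have h3 : yy ((k:ℤ)+1) < 1 := by
        rw [one_lt_inv₀ hy0] at h2; exact h2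
      show (gk (k+1)).Q2 < 0
      rw [gk_Q2]; unfold n2
      rw [c1] at hs ⊢
      have : ((-yy ((k:ℤ)+1)) ^ 2 + 2 * -yy ((k:ℤ)+1) - 1) / 2 / √2 < 0 := by
        apply div_neg_of_neg_of_pos _ (by positivity)
        nlinarith
      exact mul_neg_of_pos_of_neg (by positivity) this
  exact decr_le hQ h1 hm'

/-- bounds for the longitudinal coordinate -/
lemma s_gt_of_X2 {g : Geo} {t : ℝ} (h : -(3/4) < g.X2 t) : -1 < g.s t := by
  rw [← Real.sinh_lt_sinh, Geo.sinh_s]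
  have hR : 1 ≤ √(1 + g.X1 t ^ 2) := by
    rw [Real.one_le_sqrt]; nlinarith [sq_nonneg (g.X1 t)]
  have h1 : Real.sinh (-1) < -(3/4) := by
    rw [Real.sinh_neg]
    have := Real.self_le_sinh_iff.mpr (show (0:ℝ) ≤ 1 by norm_num)
    linarith
  refine lt_of_lt_of_le h1 ?_
  rw [le_div_iff₀ (by linarith)]
  nlinarith

lemma s_lt_of_X2 {g : Geo} {t : ℝ} (h : g.X2 t < 3/4) : g.s t < 1 := by
  rw [← Real.sinh_lt_sinh, Geo.sinh_s]
  have hR : 1 ≤ √(1 + g.X1 t ^ 2) := by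
    rw [Real.one_le_sqrt]; nlinarith [sq_nonneg (g.X1 t)]
  have h1 : 3/4 < Real.sinh 1 := by
    have := Real.self_le_sinh_iff.mpr (show (0:ℝ) ≤ 1 by norm_num)
    linarith
  refine lt_of_le_of_lt ?_ h1
  rw [div_le_iff₀ (by linarith)]
  nlinarith

theorem gs_s_gt (k : ℕ) {t : ℝ} (h1 : mm k ≤ t) : -1 < (gs (aa k) k).s t :=
  s_gt_of_X2 (gs_X2_gt k h1)

theorem gs_s_lt (k : ℕ) {t : ℝ} (h1 : t ≤ mm (k+1)) : (gs (aa k) (k+1)).s t < 1 :=
  s_lt_of_X2 (gs_X2_lt k h1)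

end H64.Ray
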