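import Pool.Agent.H64.Ray.Recur

set_option autoImplicit false

open MeasureTheory intervalIntegral Set Filter Topology Real

namespace H64.Ray

/-- locally minimising curves are continuous -/
theorem continuous_of_locMin {G : E3 → Bil} (hG : Continuous G) {m : ℝ} (hm : 0 < m)
    (hlow : ∀ x ∈ Metric.sphere (0 : E3) 1, ∀ v : E3, inner ℝ x v = (0:ℝ) →
      m ^ 2 * ‖v‖ ^ 2 ≤ G x v v) {γ : ℝ → E3} (h : ∀ t, LocMinAt G Set.univ γ t) : Continuous γ := by
  rw [continuous_iff_continuousAt]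
  intro t
  obtain ⟨ε, hε, H⟩ := h t
  have key : ∀ s₁ s₂, t - ε < s₁ → s₁ ≤ s₂ → s₂ < t + ε → ‖γ s₂ - γ s₁‖ ≤ (s₂ - s₁) / m := by
    intro s₁ s₂ h1 h2 h3
    rw [le_div_iff₀ hm]
    apply le_of_forall_pos_le_add
    intro δ hδ
    obtain ⟨σ, hσ, hS, h0, h1', hlen⟩ := (H s₁ trivial s₂ trivial h1 h2 h3).2 δ hδ
    have h4 := len_ge_dist hG hm hlow hσ hS le_rfl zero_le_one le_rfl
    rw [h0, h1'] at h4
    linarith
  have key2 : ∀ s, |s - t| < ε → ‖γ s - γ t‖ ≤ |s - t| / m := by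
    intro s hs
    rw [abs_lt] at hs
    rcases le_total s t with hst | hst
    · have := key s t (by linarith [hs.1]) hst (by linarith)
      rw [norm_sub_rev, abs_of_nonpos (by linarith)]
      rwa [neg_sub]
    · have := key t s (by linarith) hst (by linarith [hs.2])
      rwa [abs_of_nonneg (by linarith)]
  rw [Metric.continuousAt_iff]
  intro η hη
  refine ⟨min ε (m * η), lt_min hε (by positivity), ?_⟩
  intro s hs
  rw [Real.dist_eq] at hs
  rw [dist_eq_norm]
  have h1 := key2 s (lt_of_lt_of_le hs (min_le_left _ _))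
  have h2 : |s - t| < m * η := lt_of_lt_of_le hs (min_le_right _ _)
  refine lt_of_le_of_lt h1 ?_
  rw [div_lt_iff₀ hm]; linarith

lemma per_inj {γ : ℝ → E3} {L : ℝ} (hL : 0 < L) (hper : Function.Periodic γ L)
    (hγi : Set.InjOn γ (Set.Ico 0 L)) {a b : ℝ} (h : γ a = γ b) : ∃ n : ℤ, b - a = n • L := by
  have h1 : ∀ x, γ (toIcoMod hL 0 x) = γ x := by
    intro x
    rw [← self_sub_toIcoDiv_zsmul]
    exact hper.sub_zsmul_eq _
  have h0 : ∀ x, toIcoMod hL 0 x ∈ Set.Ico 0 L := by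
    intro x
    have := toIcoMod_mem_Ico hL 0 x
    rwa [zero_add] at this
  have h2 : toIcoMod hL 0 a = toIcoMod hL 0 b := by
    apply hγi (h0 a) (h0 b)
    rw [h1, h1, h]
  exact AddCommGroup.modEq_iff_zsmul'.mp ((toIcoMod_inj hL).mp h2)

/-- a recurrent injective ray does not accumulate only on a simple closed curve -/
theorem no_simple_closed {c : ℝ → E3} (hc : ContinuousOn c (Set.Ici 0)) (hinj : Set.InjOn c (Set.Ici 0))
    (hrec : ∀ t₀ : ℝ, 0 ≤ t₀ → ∃ τ : ℕ → ℝ, Tendsto τ atTop atTop ∧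
      Tendsto (fun N => c (τ N)) atTop (𝓝 (c t₀)))
    {γ : ℝ → E3} {L : ℝ} (hL : 0 < L) (hγ : Continuous γ) (hper : Function.Periodic γ L)
    (hγi : Set.InjOn γ (Set.Ico 0 L))
    (hlim : Tendsto (fun t => Metric.infDist (c t) (Set.range γ)) atTop (𝓝 0)) : False := by
  -- the range is closed
  have hrange : Set.range γ = γ '' Set.Icc 0 L := by
    apply Set.Subset.antisymm
    · rintro _ ⟨x, rfl⟩
      refine ⟨toIcoMod hL 0 x, ?_, ?_⟩
      · have := toIcoMod_mem_Ico hL 0 x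
        rw [zero_add] at this
        exact ⟨this.1, this.2.le⟩
      · rw [← self_sub_toIcoDiv_zsmul]
        exact hper.sub_zsmul_eq _
    · rintro _ ⟨x, _, rfl⟩
      exact ⟨x, rfl⟩
  have hclosed : IsClosed (Set.range γ) := by
    rw [hrange]; exact (isCompact_Icc.image hγ).isClosed
  have hmem : ∀ t₀ : ℝ, 0 ≤ t₀ → c t₀ ∈ Set.range γ := by
    intro t₀ ht₀
    obtain ⟨τ, h1, h2⟩ := hrec t₀ ht₀
    have h3 : Tendsto (fun N => Metric.infDist (c (τ N)) (Set.range γ)) atTop (𝓝 0) := hlim.comp h1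
    have h4 : Tendsto (fun N => Metric.infDist (c (τ N)) (Set.range γ)) atTop
        (𝓝 (Metric.infDist (c t₀) (Set.range γ))) :=
      ((Metric.continuous_infDist_pt (Set.range γ)).tendsto _).comp h2
    have h5 := tendsto_nhds_unique h4 h3
    exact (hclosed.mem_iff_infDist_zero (Set.range_nonempty γ)).mpr h5
  obtain ⟨θ₀, hθ₀⟩ := hmem 0 le_rfl
  have hex : ∀ r : ℝ, ∃ x ∈ Set.Ioo θ₀ (θ₀ + L), γ x = c (Real.exp r) := by
    intro r
    obtain ⟨y, hy⟩ := hmem (Real.exp r) (Real.exp_pos r).le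
    have h1 : γ (toIcoMod hL θ₀ y) = γ y := by
      rw [← self_sub_toIcoDiv_zsmul]
      exact hper.sub_zsmul_eq _
    have h2 := toIcoMod_mem_Ico hL θ₀ y
    refine ⟨toIcoMod hL θ₀ y, ⟨lt_of_le_of_ne h2.1 ?_, h2.2⟩, by rw [h1, hy]⟩
    intro h3
    rw [← h3, hy, hθ₀] at h1
    have h4 : (0:ℝ) = Real.exp r := hinj (Set.mem_Ici.mpr le_rfl) (Set.mem_Ici.mpr (Real.exp_pos r).le) h1
    exact (Real.exp_pos r).ne h4
  choose φ hφ hφc using hex
  have hφinj : Function.Injective φ := by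
    intro r r' h
    have h1 : c (Real.exp r) = c (Real.exp r') := by rw [← hφc, ← hφc, h]
    have h2 := hinj (Set.mem_Ici.mpr (Real.exp_pos r).le) (Set.mem_Ici.mpr (Real.exp_pos r').le) h1
    exact Real.exp_injective h2
  have hcexp : Continuous (fun r => c (Real.exp r)) :=
    hc.comp_continuous Real.continuous_exp (fun r => (Real.exp_pos r).le)
  have hφcont : Continuous φ := by
    rw [continuous_iff_continuousAt]
    intro r₀
    rw [ContinuousAt, tendsto_def]
    intro U hU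
    obtain ⟨O, hO, hOo, hOm⟩ := mem_nhds_iff.mp hU
    set K := Set.Icc θ₀ (θ₀ + L) \ O with hK
    have hKc : IsCompact K := isCompact_Icc.diff hOo
    have hKi : IsClosed (γ '' K) := (hKc.image hγ).isClosed
    have hnot : c (Real.exp r₀) ∉ γ '' K := by
      rintro ⟨x, hx, hx2⟩
      rw [← hφc r₀] at hx2
      obtain ⟨n, hn⟩ := per_inj hL hper hγi hx2
      have h1 := hφ r₀
      have h2 := hx.1
      rw [zsmul_eq_mul] at hn
      have h3 : (n:ℝ) < 1 := by
        by_contra hcon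
        push Not at hcon
        nlinarith [h1.2, h2.1]
      have h4 : (-1:ℝ) < n := by
        by_contra hcon
        push Not at hcon
        nlinarith [h1.1, h2.2]
      have h3' : n < 1 := by exact_mod_cast h3
      have h4' : -1 < n := by exact_mod_cast h4
      have h5 : n = 0 := by omega
      rw [h5] at hn
      simp at hn
      have h6 : φ r₀ = x := by linarith
      rw [← h6] at hx
      exact hx.2 hOm
    have hev : ∀ᶠ r in 𝓝 r₀, c (Real.exp r) ∈ (γ '' K)ᶜ :=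
      hcexp.continuousAt.eventually_mem (hKi.isOpen_compl.mem_nhds hnot)
    filter_upwards [hev] with r hr
    apply hO
    by_contra hcon
    apply hr
    exact ⟨φ r, ⟨⟨(hφ r).1.le, (hφ r).2.le⟩, hcon⟩, hφc r⟩
  -- convergence
  have hconv : ∃ l, Tendsto φ atTop (𝓝 l) := by
    rcases hφcont.strictMono_of_inj hφinj with h | h
    · exact ⟨_, tendsto_atTop_ciSup h.monotone ⟨θ₀ + L, by rintro _ ⟨r, rfl⟩; exact (hφ r).2.le⟩⟩
    · exact ⟨_, tendsto_atTop_ciInf h.antitone ⟨θ₀, by rintro _ ⟨r, rfl⟩; exact (hφ r).1.le⟩⟩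
  obtain ⟨l, hl⟩ := hconv
  have hcl : Tendsto c atTop (𝓝 (γ l)) := by
    have h1 : Tendsto (fun t => γ (φ (Real.log t))) atTop (𝓝 (γ l)) :=
      (hγ.tendsto l).comp (hl.comp Real.tendsto_log_atTop)
    refine h1.congr' ?_
    filter_upwards [eventually_gt_atTop 0] with t ht
    rw [hφc, Real.exp_log ht]
  have hconst : ∀ t₀ : ℝ, 0 ≤ t₀ → c t₀ = γ l := by
    intro t₀ ht₀
    obtain ⟨τ, h1, h2⟩ := hrec t₀ ht₀
    exact tendsto_nhds_unique h2 (hcl.comp h1)
  have h01 : c 0 = c 1 := by rw [hconst 0 le_rfl, hconst 1 zero_le_one]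
  have := hinj (Set.mem_Ici.mpr le_rfl) (Set.mem_Ici.mpr zero_le_one) h01
  norm_num at this

end H64.Ray
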