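import Pool.Agent.H64.Ray.Local
import Pool.Agent.H64.Ray.Code

set_option autoImplicit false

open Set Filter Topology Real

namespace H64.Ray

noncomputable def sigP (x y : ℝ) : ℝ := y / (√(x * y) * (x + y))
noncomputable def sigQ (x y : ℝ) : ℝ := x / (√(x * y) * (x + y))

lemma sigP_pos {x y : ℝ} (hx : 0 < x) (hy : 0 < y) : 0 < sigP x y := by
  unfold sigP; positivity
lemma sigQ_pos {x y : ℝ} (hx : 0 < x) (hy : 0 < y) : 0 < sigQ x y := by
  unfold sigQ; positivity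

lemma sigPQ {x y : ℝ} (hx : 0 < x) (hy : 0 < y) : sigP x y * sigQ x y = 1 / (x + y) ^ 2 := by
  unfold sigP sigQ
  have h : √(x * y) ^ 2 = x * y := Real.sq_sqrt (by positivity)
  have h0 : √(x * y) ≠ 0 := by positivity
  rw [div_mul_div_comm, show √(x * y) * (x + y) * (√(x * y) * (x + y)) =
    √(x * y) ^ 2 * (x + y) ^ 2 by ring, h]
  field_simp

lemma sqrt2_sq : (√2 : ℝ) ^ 2 = 2 := Real.sq_sqrt (by norm_num)

/-- the geodesic with endpoints `-y`, `x`, passing the antidiagonal at time `m` -/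
noncomputable def mkGeo (x y m : ℝ) (hx : 0 < x) (hy : 0 < y) : Geo where
  P0 := Real.exp (-m) * sigP x y * ((x ^ 2 + 1) / 2)
  P1 := Real.exp (-m) * sigP x y * ((1 + 2 * x - x ^ 2) / 2 / √2)
  P2 := Real.exp (-m) * sigP x y * ((x ^ 2 + 2 * x - 1) / 2 / √2)
  Q0 := Real.exp m * sigQ x y * ((y ^ 2 + 1) / 2)
  Q1 := Real.exp m * sigQ x y * ((1 - 2 * y - y ^ 2) / 2 / √2)
  Q2 := Real.exp m * sigQ x y * ((y ^ 2 - 2 * y - 1) / 2 / √2)
  hP0 := by have := sigP_pos hx hy; positivity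
  hQ0 := by have := sigQ_pos hx hy; positivity
  hP := by
    rw [mul_pow, mul_pow _ ((1 + 2 * x - x ^ 2) / 2 / √2), mul_pow _ ((x ^ 2 + 2 * x - 1) / 2 / √2),
      div_pow _ √2, div_pow _ √2, sqrt2_sq]
    ring
  hQ := by
    rw [mul_pow, mul_pow _ ((1 - 2 * y - y ^ 2) / 2 / √2), mul_pow _ ((y ^ 2 - 2 * y - 1) / 2 / √2),
      div_pow _ √2, div_pow _ √2, sqrt2_sq]
    ring
  hPQ := by
    have h1 := sigPQ hx hy
    have h2 : Real.exp (-m) * Real.exp m = 1 := by rw [← Real.exp_add]; simp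
    have h3 : Real.exp (-m) * sigP x y * ((x ^ 2 + 1) / 2) * (Real.exp m * sigQ x y * ((y ^ 2 + 1) / 2)) -
        Real.exp (-m) * sigP x y * ((1 + 2 * x - x ^ 2) / 2 / √2) *
          (Real.exp m * sigQ x y * ((1 - 2 * y - y ^ 2) / 2 / √2)) -
        Real.exp (-m) * sigP x y * ((x ^ 2 + 2 * x - 1) / 2 / √2) *
          (Real.exp m * sigQ x y * ((y ^ 2 - 2 * y - 1) / 2 / √2)) =
        (Real.exp (-m) * Real.exp m) * (sigP x y * sigQ x y) *
        ((x ^ 2 + 1) / 2 * ((y ^ 2 + 1) / 2) - ((1 + 2 * x - x ^ 2) / 2 * ((1 - 2 * y - y ^ 2) / 2) +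
          (x ^ 2 + 2 * x - 1) / 2 * ((y ^ 2 - 2 * y - 1) / 2)) / √2 ^ 2) := by
      field_simp
      ring
    rw [h3, h2, h1, sqrt2_sq]
    field_simp
    ring

namespace Geo
/-- swap of the two spacelike coordinates -/
def sw (g : Geo) : Geo where
  P0 := g.P0
  P1 := g.P2
  P2 := g.P1
  Q0 := g.Q0
  Q1 := g.Q2
  Q2 := g.Q1
  hP0 := g.hP0
  hQ0 := g.hQ0
  hP := by rw [g.hP]; ring
  hQ := by rw [g.hQ]; ring
  hPQ := by rw [← g.hPQ]; ring

@[simp] lemma sw_X0 (g : Geo) (t : ℝ) : g.sw.X0 t = g.X0 t := rfl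
@[simp] lemma sw_X1 (g : Geo) (t : ℝ) : g.sw.X1 t = g.X2 t := rfl
@[simp] lemma sw_X2 (g : Geo) (t : ℝ) : g.sw.X2 t = g.X1 t := rfl
end Geo

/-- the point lies on the geodesic with endpoints `-y`, `x` -/
def OnG (x y X0 X1 X2 : ℝ) : Prop :=
  0 < x * (X0 - (X2 - X1) / √2) - (X1 + X2) / √2 ∧
  0 < y * (X0 - (X2 - X1) / √2) + (X1 + X2) / √2 ∧
  (x * (X0 - (X2 - X1) / √2) - (X1 + X2) / √2) * (y * (X0 - (X2 - X1) / √2) + (X1 + X2) / √2) = 1

lemma onG_disj {x y x' y' X0 X1 X2 : ℝ} (hx : 0 < x) (hy : 0 < y) (hxx : x < x') (hyy : y < y')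
    (h : OnG x y X0 X1 X2) (h' : OnG x' y' X0 X1 X2) : False := by
  obtain ⟨h1, h2, h3⟩ := h
  obtain ⟨h1', h2', h3'⟩ := h'
  set γ := X0 - (X2 - X1) / √2
  set D := (X1 + X2) / √2
  have hγ : 0 < γ := by
    have : 0 < (x + y) * γ := by nlinarith
    exact (mul_pos_iff_of_pos_left (by positivity)).mp this
  have e1 : x * γ - D < x' * γ - D := by nlinarith
  have e2 : y * γ + D < y' * γ + D := by nlinarith
  nlinarith

section mk
variable {x y m : ℝ} (hx : 0 < x) (hy : 0 < y)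

lemma mk_gamma (t : ℝ) : (mkGeo x y m hx hy).X0 t -
    ((mkGeo x y m hx hy).X2 t - (mkGeo x y m hx hy).X1 t) / √2 =
    Real.exp (t - m) * sigP x y + Real.exp (-(t - m)) * sigQ x y := by
  have e1 : Real.exp (t - m) = Real.exp t * Real.exp (-m) := by rw [← Real.exp_add]; ring_nf
  have e2 : Real.exp (-(t - m)) = Real.exp (-t) * Real.exp m := by rw [← Real.exp_add]; ring_nf
  unfold Geo.X0 Geo.X1 Geo.X2 mkGeo
  simp only
  rw [e1, e2]
  have h2 := sqrt2_sq
  have h0 : (√2:ℝ) ≠ 0 := by positivity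
  field_simp
  rw [h2]
  ring

lemma mk_D (t : ℝ) : ((mkGeo x y m hx hy).X1 t + (mkGeo x y m hx hy).X2 t) / √2 =
    Real.exp (t - m) * sigP x y * x - Real.exp (-(t - m)) * sigQ x y * y := by
  have e1 : Real.exp (t - m) = Real.exp t * Real.exp (-m) := by rw [← Real.exp_add]; ring_nf
  have e2 : Real.exp (-(t - m)) = Real.exp (-t) * Real.exp m := by rw [← Real.exp_add]; ring_nf
  unfold Geo.X1 Geo.X2 mkGeo
  simp only
  rw [e1, e2]
  have h2 := sqrt2_sq
  have h0 : (√2:ℝ) ≠ 0 := by positivity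
  field_simp
  rw [h2]
  ring

lemma mk_alpha (t : ℝ) : (mkGeo x y m hx hy).X0 t +
    ((mkGeo x y m hx hy).X2 t - (mkGeo x y m hx hy).X1 t) / √2 =
    Real.exp (t - m) * sigP x y * x ^ 2 + Real.exp (-(t - m)) * sigQ x y * y ^ 2 := by
  have e1 : Real.exp (t - m) = Real.exp t * Real.exp (-m) := by rw [← Real.exp_add]; ring_nf
  have e2 : Real.exp (-(t - m)) = Real.exp (-t) * Real.exp m := by rw [← Real.exp_add]; ring_nf
  unfold Geo.X0 Geo.X1 Geo.X2 mkGeo
  simp only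
  rw [e1, e2]
  have h2 := sqrt2_sq
  have h0 : (√2:ℝ) ≠ 0 := by positivity
  field_simp
  rw [h2]
  ring

lemma onG_mk (t : ℝ) : OnG x y ((mkGeo x y m hx hy).X0 t) ((mkGeo x y m hx hy).X1 t)
    ((mkGeo x y m hx hy).X2 t) := by
  unfold OnG
  rw [mk_gamma hx hy t, mk_D hx hy t]
  have hP := sigP_pos hx hy
  have hQ := sigQ_pos hx hy
  have e1 : x * (Real.exp (t - m) * sigP x y + Real.exp (-(t - m)) * sigQ x y) -
      (Real.exp (t - m) * sigP x y * x - Real.exp (-(t - m)) * sigQ x y * y) =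
      Real.exp (-(t - m)) * sigQ x y * (x + y) := by ring
  have e2 : y * (Real.exp (t - m) * sigP x y + Real.exp (-(t - m)) * sigQ x y) +
      (Real.exp (t - m) * sigP x y * x - Real.exp (-(t - m)) * sigQ x y * y) =
      Real.exp (t - m) * sigP x y * (x + y) := by ring
  rw [e1, e2]
  refine ⟨by positivity, by positivity, ?_⟩
  have h := sigPQ hx hy
  have h2 := Geo.exp_mul (t - m)
  have : Real.exp (-(t - m)) * sigQ x y * (x + y) * (Real.exp (t - m) * sigP x y * (x + y)) =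
    (Real.exp (t - m) * Real.exp (-(t - m))) * (sigP x y * sigQ x y) * (x + y) ^ 2 := by ring
  rw [this, h, h2]
  field_simp

lemma onG_J (t : ℝ) : OnG (1 / y) (1 / x) ((mkGeo x y m hx hy).X0 t) (-(mkGeo x y m hx hy).X1 t)
    (-(mkGeo x y m hx hy).X2 t) := by
  unfold OnG
  have hP := sigP_pos hx hy
  have hQ := sigQ_pos hx hy
  have e3 : (mkGeo x y m hx hy).X0 t - (-(mkGeo x y m hx hy).X2 t - -(mkGeo x y m hx hy).X1 t) / √2 =
    (mkGeo x y m hx hy).X0 t + ((mkGeo x y m hx hy).X2 t - (mkGeo x y m hx hy).X1 t) / √2 := by ring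
  have e4 : (-(mkGeo x y m hx hy).X1 t + -(mkGeo x y m hx hy).X2 t) / √2 =
    -(((mkGeo x y m hx hy).X1 t + (mkGeo x y m hx hy).X2 t) / √2) := by ring
  rw [e3, e4, mk_alpha hx hy t, mk_D hx hy t]
  have e1 : 1 / y * (Real.exp (t - m) * sigP x y * x ^ 2 + Real.exp (-(t - m)) * sigQ x y * y ^ 2) -
      -(Real.exp (t - m) * sigP x y * x - Real.exp (-(t - m)) * sigQ x y * y) =
      Real.exp (t - m) * sigP x y * (x + y) * x / y := by field_simp; ring
  have e2 : 1 / x * (Real.exp (t - m) * sigP x y * x ^ 2 + Real.exp (-(t - m)) * sigQ x y * y ^ 2) +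
      -(Real.exp (t - m) * sigP x y * x - Real.exp (-(t - m)) * sigQ x y * y) =
      Real.exp (-(t - m)) * sigQ x y * (x + y) * y / x := by field_simp; ring
  rw [e1, e2]
  refine ⟨by positivity, by positivity, ?_⟩
  have h := sigPQ hx hy
  have h2 := Geo.exp_mul (t - m)
  have : Real.exp (t - m) * sigP x y * (x + y) * x / y * (Real.exp (-(t - m)) * sigQ x y * (x + y) * y / x) =
    (Real.exp (t - m) * Real.exp (-(t - m))) * (sigP x y * sigQ x y) * (x + y) ^ 2 := by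
    field_simp
  rw [this, h, h2]
  field_simp

/-- at mid time -/
lemma mk_mid : (mkGeo x y m hx hy).X1 m = -((√(x * y) - 1 / √(x * y)) / 2) / √2 ∧
    (mkGeo x y m hx hy).X2 m = ((√(x * y) - 1 / √(x * y)) / 2) / √2 := by
  have hD := mk_D hx hy (m := m) m
  have hα := mk_alpha hx hy (m := m) m
  have hγ := mk_gamma hx hy (m := m) m
  rw [sub_self, neg_zero, Real.exp_zero, one_mul, one_mul] at hD hα hγ
  have hs : √(x * y) ^ 2 = x * y := Real.sq_sqrt (by positivity)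
  have hs0 : 0 < √(x * y) := by positivity
  have e1 : sigP x y * x - sigQ x y * y = 0 := by
    unfold sigP sigQ; field_simp; ring
  have e2 : sigP x y * x ^ 2 + sigQ x y * y ^ 2 = √(x * y) := by
    unfold sigP sigQ
    generalize √(x * y) = s at *
    have : y / (s * (x + y)) * x ^ 2 + x / (s * (x + y)) * y ^ 2 = (x * y) / s := by
      field_simp
    rw [this, ← hs]
    field_simp
  have e3 : sigP x y + sigQ x y = 1 / √(x * y) := by
    unfold sigP sigQ
    field_simp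
    ring
  rw [e1] at hD
  rw [e2] at hα
  rw [e3] at hγ
  have h2 := sqrt2_sq
  have h0 : (√2:ℝ) ≠ 0 := by positivity
  set A := (mkGeo x y m hx hy).X1 m
  set B := (mkGeo x y m hx hy).X2 m
  have hsum : A + B = 0 := by
    rw [div_eq_zero_iff] at hD
    rcases hD with h | h
    · exact h
    · exact absurd h h0
  have hdiff : (B - A) / √2 = (√(x * y) - 1 / √(x * y)) / 2 := by linarith
  constructor
  · rw [← hdiff, eq_div_iff h0, ← neg_div, eq_div_iff h0]
    have : A * √2 * √2 = A * √2 ^ 2 := by ring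
    rw [this, h2]; linarith
  · rw [← hdiff, eq_div_iff h0, eq_div_iff h0]
    have : B * √2 * √2 = B * √2 ^ 2 := by ring
    rw [this, h2]; linarith

lemma mk_mid_bound (hx1 : 2/5 ≤ x) (hx2 : x ≤ 5/2) (hy1 : 2/5 ≤ y) (hy2 : y ≤ 5/2) :
    (mkGeo x y m hx hy).X1 m ^ 2 < 9/16 ∧ (mkGeo x y m hx hy).X2 m ^ 2 < 9/16 := by
  have hs1 : 2/5 ≤ √(x * y) := by
    apply Real.le_sqrt_of_sq_le; nlinarith
  have hs2 : √(x * y) ≤ 5/2 := by
    rw [Real.sqrt_le_left (by norm_num)]; nlinarith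
  have hs0 : 0 < √(x * y) := by linarith
  have h1 : 1 / √(x * y) ≤ 5/2 := by
    rw [div_le_iff₀ hs0]; linarith
  have h2 : 2/5 ≤ 1 / √(x * y) := by
    rw [le_div_iff₀ hs0]; linarith
  have hE : ((√(x * y) - 1 / √(x * y)) / 2) ^ 2 < 9/8 := by
    have : |(√(x * y) - 1 / √(x * y)) / 2| ≤ 21/20 := by
      rw [abs_le]; constructor <;> linarith
    rw [← sq_abs]
    nlinarith [abs_nonneg ((√(x * y) - 1 / √(x * y)) / 2)]
  rw [(mk_mid hx hy).1, (mk_mid hx hy).2, div_pow, div_pow, neg_sq, sqrt2_sq]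
  constructor <;> linarith

end mk

/-! ### the family of geodesics -/

noncomputable def yy (j : ℤ) : ℝ := (xx (-j))⁻¹

lemma yy_pos (j : ℤ) : 0 < yy j := inv_pos.mpr (xx_pos _)

lemma yy_mem (j : ℤ) : 2/5 ≤ yy j ∧ yy j ≤ 5/2 := by
  unfold yy
  have h := xx_mem (-j)
  constructor
  · rw [le_inv_comm₀ (by norm_num) (xx_pos _)]; norm_num; exact h.2
  · rw [inv_le_comm₀ (xx_pos _) (by norm_num)]; norm_num; exact h.1

lemma yy_lt {i j : ℤ} (h : th i < th j) : yy i < yy j := by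
  unfold yy
  apply inv_strictAnti₀ (xx_pos _)
  apply xx_lt
  rw [th_neg, th_neg]; linarith

noncomputable def rho (j : ℤ) : ℝ :=
  sigP (xx (j+1)) (yy (j+1)) * mden (aa j) (xx (j+1)) ^ 2 / sigP (xx j) (yy j)

lemma sigP_sq {x y : ℝ} (hx : 0 < x) (hy : 0 < y) : sigP x y ^ 2 = y / (x * (x + y) ^ 2) := by
  unfold sigP
  rw [div_pow, mul_pow, Real.sq_sqrt (by positivity)]
  field_simp

lemma sigP_le {x y : ℝ} (hx1 : 2/5 ≤ x) (hy1 : 2/5 ≤ y) : sigP x y ≤ 5/4 := by
  have hx : 0 < x := by linarith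
  have hy : 0 < y := by linarith
  have h1 : sigP x y ^ 2 ≤ (5/4) ^ 2 := by
    rw [sigP_sq hx hy, div_le_iff₀ (by positivity)]
    have h2 : (2/5 + y) ^ 2 ≤ (x + y) ^ 2 := by nlinarith
    have h3 : y ≤ (25/16) * (2/5) * (2/5 + y) ^ 2 := by nlinarith [sq_nonneg (y - 2/5)]
    have h4 : (2/5) * (2/5 + y) ^ 2 ≤ x * (x + y) ^ 2 := by
      apply mul_le_mul hx1 h2 (by positivity) hx.le
    linarith
  exact (abs_le_of_sq_le_sq' h1 (by norm_num)).2

lemma le_sigP {x y : ℝ} (hx1 : 2/5 ≤ x) (hx2 : x ≤ 5/2) (hy1 : 2/5 ≤ y) (hy2 : y ≤ 5/2) :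
    1/8 ≤ sigP x y := by
  have hx : 0 < x := by linarith
  have hy : 0 < y := by linarith
  have h1 : (1/8) ^ 2 ≤ sigP x y ^ 2 := by
    rw [sigP_sq hx hy, le_div_iff₀ (by positivity)]
    have h2 : (x + y) ^ 2 ≤ (5/2 + y) ^ 2 := by nlinarith
    have h4 : x * (x + y) ^ 2 ≤ (5/2) * (5/2 + y) ^ 2 := by
      apply mul_le_mul hx2 h2 (by positivity) (by norm_num)
    have h5 : (5/2) * (5/2 + y) ^ 2 ≤ 64 * y := by nlinarith
    linarith
  exact (abs_le_of_sq_le_sq' h1 (sigP_pos hx hy).le).2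

lemma rho_ge (j : ℤ) : Real.exp (1/2) ≤ rho j := by
  have hx := xx_mem j
  have hy := yy_mem j
  have hx' := xx_mem (j+1)
  have hy' := yy_mem (j+1)
  have h1 := sigP_le hx.1 hy.1
  have h2 := le_sigP hx'.1 hx'.2 hy'.1 hy'.2
  have h3 := sigP_pos (xx_pos j) (yy_pos j)
  have h5 : 9/2 ≤ mden (aa j) (xx (j+1)) := by
    have h1 := six_lt_kA
    have h2 := lt_cA
    unfold mden
    cases aa j
    · simp only [Bool.false_eq_true, if_false]; nlinarith
    · simp only [if_true]; nlinarith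
  have h6 : Real.exp (1/2) ≤ 2 := by
    have : Real.exp (1/2) ^ 2 ≤ 2 ^ 2 := by
      rw [← Real.exp_nat_mul]
      norm_num
      have := Real.exp_one_lt_d9; linarith
    exact (abs_le_of_sq_le_sq' this (by norm_num)).2
  refine le_trans h6 ?_
  unfold rho
  rw [le_div_iff₀ h3]
  have h7 : 20 ≤ mden (aa j) (xx (j+1)) ^ 2 := by nlinarith
  have h8 : (1/8) * 20 ≤ sigP (xx (j+1)) (yy (j+1)) * mden (aa j) (xx (j+1)) ^ 2 :=
    mul_le_mul h2 h7 (by norm_num) (by linarith)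
  linarith

lemma rho_pos (j : ℤ) : 0 < rho j := lt_of_lt_of_le (Real.exp_pos _) (rho_ge j)

noncomputable def mm : ℕ → ℝ
  | 0 => 0
  | (k+1) => mm k + Real.log (rho k)

lemma mm_succ (k : ℕ) : mm k + 1/2 ≤ mm (k+1) := by
  have : 1/2 ≤ Real.log (rho k) := by
    rw [Real.le_log_iff_exp_le (rho_pos _)]; exact rho_ge _
  simp only [mm]; linarith

lemma mm_ge (k : ℕ) : (k:ℝ) / 2 ≤ mm k := by
  induction k with
  | zero => simp [mm]
  | succ k ih =>
    have := mm_succ k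
    push_cast; linarith

lemma mm_lt_succ (k : ℕ) : mm k < mm (k+1) := by linarith [mm_succ k]

lemma strictMono_mm : StrictMono mm := strictMono_nat_of_lt_succ mm_lt_succ

lemma exp_mm (k : ℕ) : Real.exp (mm (k+1)) = Real.exp (mm k) * rho k := by
  simp only [mm]
  rw [Real.exp_add, Real.exp_log (rho_pos _)]

noncomputable def gk (k : ℕ) : Geo := mkGeo (xx k) (yy k) (mm k) (xx_pos _) (yy_pos _)

/-- boosts -/
lemma cosh_two_ell : Real.cosh (2 * ell) = 1 + 4 * kA ^ 2 := by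
  rw [Real.cosh_two_mul]
  have h := cA_sq
  have h1 : Real.sinh ell ^ 2 = 2 * kA ^ 2 := by
    unfold kA; rw [div_pow, sqrt2_sq]; ring
  have h2 : Real.cosh ell ^ 2 = cA ^ 2 := rfl
  rw [h1, h2, h]; ring

lemma sinh_two_ell : Real.sinh (2 * ell) = 2 * √2 * (kA * cA) := by
  rw [Real.sinh_two_mul]
  have h1 : Real.sinh ell = √2 * kA := by
    unfold kA; field_simp
  rw [h1]; unfold cA; ring

/-- backward endpoint relation -/
lemma back_rel (a : Bool) {Y Y' : ℝ} (hY : 0 < Y) (h : Y' = mob a Y) :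
    0 < mden a (-Y'⁻¹) ∧ mnum a (-Y'⁻¹) = -Y⁻¹ * mden a (-Y'⁻¹) := by
  have hn := mnum_pos (a := a) hY
  have he := mden_pos (a := a) hY
  have hc := cA_sq
  have hy' : Y'⁻¹ = mden a Y / mnum a Y := by
    rw [h]; unfold mob; rw [inv_div]
  have key1 : -kA * mden a Y + (if a then cA - kA else cA + kA) * mnum a Y = Y := by
    unfold mden mnum
    cases a
    · simp only [Bool.false_eq_true, if_false]
      linear_combination Y * hc
    · simp only [if_true]
      linear_combination Y * hc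
  have key2 : -(if a then cA + kA else cA - kA) * mden a Y + kA * mnum a Y = -1 := by
    unfold mden mnum
    cases a
    · simp only [Bool.false_eq_true, if_false]
      linear_combination (-1) * hc
    · simp only [if_true]
      linear_combination (-1) * hc
  have hd : mden a (-Y'⁻¹) = Y / mnum a Y := by
    rw [hy']
    have : mden a (-(mden a Y / mnum a Y)) =
        (-kA * mden a Y + (if a then cA - kA else cA + kA) * mnum a Y) / mnum a Y := by
      conv_lhs => unfold mden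
      field_simp
      unfold mden
      ring
    rw [this, key1]
  have hnn : mnum a (-Y'⁻¹) = -1 / mnum a Y := by
    rw [hy']
    have : ∀ e n : ℝ, n ≠ 0 → mnum a (-(e / n)) =
        (-(if a then cA + kA else cA - kA) * e + kA * n) / n := by
      intro e n hn
      unfold mnum
      field_simp
    rw [this _ _ hn.ne', key2]
  rw [hd, hnn]
  refine ⟨by positivity, ?_⟩
  field_simp

end H64.Ray
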