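import Pool.Agent.H64.Ray.Curve

set_option autoImplicit false

open Set Filter Topology Real

namespace H64.Ray

theorem V_rel {w s w' s' : ℝ} {e f : ℤˣ} (h : V w s = Rd e f (V w' s')) :
    ∃ i : ℤ, (w = w' ∧ s = s' + i * (2 * ell)) ∨ (w = -w' ∧ s = -s' + i * (2 * ell)) := by
  have hw : w = sr e * w' := by
    have := congrArg wf h
    rwa [wf_Rd, wf_V, wf_V] at this
  have hr : ((√(1 + ev w s ^ 2))⁻¹) ^ 2 = ((√(1 + ev w' s' ^ 2))⁻¹) ^ 2 := by
    have := congrArg r2 h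
    rwa [r2_Rd, r2_V, r2_V] at this
  have hn : (√(1 + ev w s ^ 2))⁻¹ = (√(1 + ev w' s' ^ 2))⁻¹ :=
    (pow_left_inj₀ (nV_pos w s).le (nV_pos w' s').le two_ne_zero).mp hr
  have h1 : V w s 1 = Rd e f (V w' s') 1 := by rw [h]
  have h2 : V w s 2 = Rd e f (V w' s') 2 := by rw [h]
  rw [Rd1, V1, V1, hn] at h1
  rw [Rd2, V2, V2, hn] at h2
  have hp := (nV_pos w' s').ne'
  set n := (√(1 + ev w' s' ^ 2))⁻¹
  have h1' : Real.sin (Nn s) = sr f * Real.sin (Nn s') := by
    apply mul_left_cancel₀ hp; rw [h1]; ring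
  have h2' : Real.cos (Nn s) = sr e * sr f * Real.cos (Nn s') := by
    apply mul_left_cancel₀ hp; rw [h2, sr_mul]; ring
  rcases sr_cases e with he | he
  · rw [he] at hw h2'
    have hsin : Real.sin (Nn s - Nn s') = 0 := by
      rw [Real.sin_sub, h1', h2']; ring
    obtain ⟨i, hi⟩ := Real.sin_eq_zero_iff.mp hsin
    refine ⟨i, Or.inl ⟨by rw [hw, one_mul], ?_⟩⟩
    apply strictMono_Nn.injective
    rw [Nn_add_int]; linarith
  · rw [he] at hw h2'
    have hsin : Real.sin (Nn s + Nn s') = 0 := by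
      rw [Real.sin_add, h1', h2']; ring
    obtain ⟨i, hi⟩ := Real.sin_eq_zero_iff.mp hsin
    refine ⟨i, Or.inr ⟨by rw [hw]; ring, ?_⟩⟩
    apply strictMono_Nn.injective
    rw [Nn_add_int, Nn_neg]; linarith

theorem cell_rel {a : Bool} {n m : ℕ} {t t' : ℝ} (h : cell a n t = cell a m t') :
    ∃ i : ℤ, ((gs a n).w t = (gs a m).w t' ∧ (gs a n).s t = (gs a m).s t' + i * (2 * ell)) ∨
      ((gs a n).w t = -(gs a m).w t' ∧ (gs a n).s t = -(gs a m).s t' + i * (2 * ell)) := by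
  unfold cell at h
  cases a
  · rw [KK_false, KK_false, Rd_sw, Rd_sw] at h
    have h1 := sw.injective h
    have h2 := congrArg (Rd (e2 n) (e1 n)) h1
    rw [Rd_invol, Rd_Rd] at h2
    exact V_rel h2
  · rw [KK_true, KK_true] at h
    have h2 := congrArg (Rd (e1 n) (e2 n)) h
    rw [Rd_invol, Rd_Rd] at h2
    exact V_rel h2

lemma wX_neg (x : ℝ) : wX (-x) = - wX x := by
  unfold wX; rw [neg_sq, neg_div]

lemma sX_neg (x y : ℝ) : sX (-x) (-y) = - sX x y := by
  unfold sX; rw [neg_sq, neg_div, Real.arsinh_neg]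

lemma wX_inj {x y : ℝ} (h : wX x = wX y) : x = y := by
  have key : ∀ x : ℝ, wX x / √(1 - wX x ^ 2) = x := by
    intro x
    rw [one_sub_wX_sq, Real.sqrt_inv]
    unfold wX
    have := R_pos x
    field_simp
  rw [← key x, h, key y]

lemma ws_inj {x y x' y' : ℝ} (h : wX x = wX x') (h2 : sX x y = sX x' y') : x = x' ∧ y = y' := by
  have hx := wX_inj h
  refine ⟨hx, ?_⟩
  subst hx
  unfold sX at h2
  have h3 := Real.arsinh_injective h2
  have := R_pos x
  field_simp at h3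
  exact h3

/-- a good representation -/
def Good (a : Bool) (n : ℕ) (t : ℝ) : Prop :=
  -1 < (gs a n).s t ∧ ((gs a n).s t < 1 ∨ (aa n = a ∧ (gs a n).s t < 1 + 2 * ell))

lemma Good.lt {a : Bool} {n : ℕ} {t : ℝ} (h : Good a n t) : (gs a n).s t < 1 + 2 * ell := by
  have := ell_pos
  rcases h.2 with h | h
  · linarith
  · exact h.2

lemma Good.shift {a : Bool} {n : ℕ} {t : ℝ} (h : Good a n t) (h1 : 1 ≤ (gs a n).s t) :
    (gs a (n+1)).w t = (gs a n).w t ∧ (gs a (n+1)).s t = (gs a n).s t - 2 * ell := by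
  rcases h.2 with h | ⟨h, _⟩
  · linarith
  · subst h
    exact ⟨(gs_w n t).symm, by linarith [gs_s n t]⟩

/-- equality (up to sign) of the points on two geodesics -/
def SameX (n m : ℕ) (t t' : ℝ) : Prop :=
  ((gk n).X1 t = (gk m).X1 t' ∧ (gk n).X2 t = (gk m).X2 t') ∨
  ((gk n).X1 t = -(gk m).X1 t' ∧ (gk n).X2 t = -(gk m).X2 t')

lemma sameX_pos {a : Bool} {n m : ℕ} {t t' : ℝ} (h : (gs a n).w t = (gs a m).w t')
    (h2 : (gs a n).s t = (gs a m).s t') : SameX n m t t' := by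
  unfold Geo.w at h
  unfold Geo.s at h2
  have h3 := ws_inj h h2
  left
  cases a
  · exact ⟨h3.2, h3.1⟩
  · exact h3

lemma sameX_neg {a : Bool} {n m : ℕ} {t t' : ℝ} (h : (gs a n).w t = -(gs a m).w t')
    (h2 : (gs a n).s t = -(gs a m).s t') : SameX n m t t' := by
  unfold Geo.w at h
  unfold Geo.s at h2
  rw [← wX_neg] at h
  rw [← sX_neg] at h2
  have h3 := ws_inj h h2
  right
  cases a
  · exact ⟨h3.2, h3.1⟩
  · exact h3

theorem key_index {a : Bool} {n m : ℕ} {t t' : ℝ} (h : cell a n t = cell a m t')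
    (hn : Good a n t) (hm : Good a m t') : ∃ n' m' : ℕ, SameX n' m' t t' := by
  obtain ⟨i, hi⟩ := cell_rel h
  have hl := three_le_ell
  have n1 := hn.1
  have n2 := hn.lt
  have m1 := hm.1
  have m2 := hm.lt
  rcases hi with ⟨hw, hs⟩ | ⟨hw, hs⟩
  · have hi1 : (i:ℝ) < 2 := by nlinarith
    have hi2 : (-2:ℝ) < i := by nlinarith
    have hi1' : i < 2 := by exact_mod_cast hi1
    have hi2' : -2 < i := by exact_mod_cast hi2
    have : i = -1 ∨ i = 0 ∨ i = 1 := by omega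
    rcases this with h0 | h0 | h0
    · rw [h0] at hs
      push_cast at hs
      obtain ⟨c1, c2⟩ := hm.shift (by linarith)
      exact ⟨n, m+1, sameX_pos (by rw [hw, c1]) (by rw [hs, c2]; ring)⟩
    · rw [h0] at hs
      push_cast at hs
      exact ⟨n, m, sameX_pos hw (by rw [hs]; ring)⟩
    · rw [h0] at hs
      push_cast at hs
      obtain ⟨c1, c2⟩ := hn.shift (by linarith)
      exact ⟨n+1, m, sameX_pos (by rw [c1, hw]) (by rw [c2, hs]; ring)⟩
  · have hi1 : (i:ℝ) < 3 := by nlinarith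
    have hi2 : (-1:ℝ) < i := by nlinarith
    have hi1' : i < 3 := by exact_mod_cast hi1
    have hi2' : -1 < i := by exact_mod_cast hi2
    have : i = 0 ∨ i = 1 ∨ i = 2 := by omega
    rcases this with h0 | h0 | h0
    · rw [h0] at hs
      push_cast at hs
      exact ⟨n, m, sameX_neg hw (by rw [hs]; ring)⟩
    · rw [h0] at hs
      push_cast at hs
      by_cases hc : 1 ≤ (gs a n).s t
      · obtain ⟨c1, c2⟩ := hn.shift hc
        exact ⟨n+1, m, sameX_neg (by rw [c1, hw]) (by rw [c2, hs]; ring)⟩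
      · obtain ⟨c1, c2⟩ := hm.shift (by linarith)
        exact ⟨n, m+1, sameX_neg (by rw [hw, c1]) (by rw [hs, c2]; ring)⟩
    · rw [h0] at hs
      push_cast at hs
      obtain ⟨c1, c2⟩ := hn.shift (by linarith)
      obtain ⟨d1, d2⟩ := hm.shift (by linarith)
      exact ⟨n+1, m+1, sameX_neg (by rw [c1, hw, d1]) (by rw [c2, hs, d2]; ring)⟩

lemma X0_eq_of_sq {g g' : Geo} {t t' : ℝ} (h : g.X1 t ^ 2 = g'.X1 t' ^ 2) (h2 : g.X2 t ^ 2 = g'.X2 t' ^ 2) :
    g.X0 t = g'.X0 t' := by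
  apply (pow_left_inj₀ (g.X0_pos t).le (g'.X0_pos t').le two_ne_zero).mp
  rw [g.norm_eq, g'.norm_eq, h, h2]

lemma onG_th {i j : ℤ} {X0 X1 X2 : ℝ} (h : OnG (xx i) (yy i) X0 X1 X2)
    (h' : OnG (xx j) (yy j) X0 X1 X2) : i = j := by
  rcases lt_trichotomy (th i) (th j) with h0 | h0 | h0
  · exact (onG_disj (xx_pos i) (yy_pos i) (xx_lt h0) (yy_lt h0) h h').elim
  · exact th_inj h0
  · exact (onG_disj (xx_pos j) (yy_pos j) (xx_lt h0) (yy_lt h0) h' h).elim

lemma gk_zero_X0 (t : ℝ) : (gk 0).X0 t = Real.cosh t := by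
  have hx := xx_pos 0
  have hy : yy 0 = (xx 0)⁻¹ := by unfold yy; rw [neg_zero]
  have h1 : √(xx 0 * (xx 0)⁻¹) = 1 := by
    rw [mul_inv_cancel₀ hx.ne', Real.sqrt_one]
  have hP : (gk 0).P0 = 1/2 := by
    show Real.exp (-mm 0) * sigP (xx 0) (yy 0) * ((xx 0 ^ 2 + 1) / 2) = 1 / 2
    unfold sigP
    rw [mm_zero, neg_zero, Real.exp_zero, hy, h1]
    field_simp
  have hQ : (gk 0).Q0 = 1/2 := by
    show Real.exp (mm 0) * sigQ (xx 0) (yy 0) * ((yy 0 ^ 2 + 1) / 2) = 1 / 2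
    unfold sigQ
    rw [mm_zero, Real.exp_zero, hy, h1]
    field_simp
    ring
  unfold Geo.X0
  rw [hP, hQ, Real.cosh_eq]; ring

theorem sameX_time {n m : ℕ} {t t' : ℝ} (ht : 0 ≤ t) (ht' : 0 ≤ t') (h : SameX n m t t') : t = t' := by
  rcases h with ⟨h1, h2⟩ | ⟨h1, h2⟩
  · have h0 : (gk n).X0 t = (gk m).X0 t' := X0_eq_of_sq (by rw [h1]) (by rw [h2])
    have g1 : OnG (xx n) (yy n) ((gk n).X0 t) ((gk n).X1 t) ((gk n).X2 t) :=
      onG_mk (xx_pos n) (yy_pos n) t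
    have g2 : OnG (xx m) (yy m) ((gk m).X0 t') ((gk m).X1 t') ((gk m).X2 t') :=
      onG_mk (xx_pos m) (yy_pos m) t'
    rw [h0, h1, h2] at g1
    have hnm : (n:ℤ) = m := onG_th g1 g2
    have hnm' : n = m := by exact_mod_cast hnm
    subst hnm'
    rw [← (gk n).bcal_curve t, ← (gk n).bcal_curve t']
    unfold Geo.w Geo.s
    rw [h1, h2]
  · have h0 : (gk n).X0 t = (gk m).X0 t' := X0_eq_of_sq (by rw [h1, neg_sq]) (by rw [h2, neg_sq])
    have g1 : OnG (xx n) (yy n) ((gk n).X0 t) ((gk n).X1 t) ((gk n).X2 t) :=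
      onG_mk (xx_pos n) (yy_pos n) t
    have g2 : OnG (1 / yy m) (1 / xx m) ((gk m).X0 t') (-(gk m).X1 t') (-(gk m).X2 t') :=
      onG_J (xx_pos m) (yy_pos m) t'
    have f1 : 1 / yy (m:ℤ) = xx (-(m:ℤ)) := by unfold yy; rw [one_div, inv_inv]
    have f2 : 1 / xx (m:ℤ) = yy (-(m:ℤ)) := by unfold yy; rw [neg_neg, one_div]
    rw [h0, h1, h2] at g1
    rw [f1, f2] at g2
    have hnm : (n:ℤ) = -(m:ℤ) := onG_th g1 g2
    have hn : n = 0 := by omega
    have hm : m = 0 := by omega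
    subst hn
    subst hm
    rw [gk_zero_X0, gk_zero_X0] at h0
    have h3 := Real.cosh_le_cosh.mp h0.le
    have h4 := Real.cosh_le_cosh.mp h0.ge
    rw [abs_of_nonneg ht, abs_of_nonneg ht'] at h3 h4
    linarith

lemma sinh_small {s : ℝ} (hs : |s| ≤ ell) (h : Real.sin (Nn s) ^ 2 < 1/3) : Real.sinh s ^ 2 < 1 := by
  have key : ∀ s : ℝ, 0 ≤ s → s ≤ ell → Real.sin (Nn s) ^ 2 < 1/3 → Real.sinh s ^ 2 < 1 := by
    intro s h0 h1 h2
    by_contra hc
    push Not at hc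
    set s1 := Real.arsinh 1 with hs1d
    have hs1 : Real.sinh s1 = 1 := Real.sinh_arsinh 1
    have hsn : 0 ≤ Real.sinh s := Real.sinh_nonneg_iff.mpr h0
    have h3 : s1 ≤ s := by
      rw [← Real.sinh_le_sinh, hs1]; nlinarith
    have h4 : Nn s1 ≤ Nn s := strictMono_Nn.monotone h3
    have h5 : Nn s ≤ π / 2 := by rw [← Nn_ell]; exact strictMono_Nn.monotone h1
    have hs1' : 0 ≤ s1 := by rw [← Real.sinh_nonneg_iff, hs1]; norm_num
    have h6 : 0 ≤ Nn s1 := by rw [← Nn_zero]; exact strictMono_Nn.monotone hs1'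
    have h7 : Real.sin (Nn s1) ≤ Real.sin (Nn s) :=
      Real.sin_le_sin_of_le_of_le_pi_div_two (by linarith [Real.pi_pos]) h5 h4
    have h8 : Real.sin (Nn s1) ^ 2 = 1/3 := by
      rw [sin_Nn_exact (by rw [hs1]; norm_num), div_pow, Real.sq_sqrt (sqrt_aux _).le, Real.cosh_sq, hs1]
      norm_num
    have h9 : 0 ≤ Real.sin (Nn s1) :=
      Real.sin_nonneg_of_nonneg_of_le_pi h6 (by linarith [Real.pi_pos])
    nlinarith
  rw [abs_le] at hs
  rcases le_total 0 s with h0 | h0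
  · exact key s h0 hs.2 h
  · have := key (-s) (by linarith) (by linarith [hs.1]) (by rw [Nn_neg, Real.sin_neg, neg_sq]; exact h)
    rwa [Real.sinh_neg, neg_sq] at this

lemma s_abs_lt {g : Geo} {t : ℝ} (h : g.X2 t ^ 2 < 1) : -1 < g.s t ∧ g.s t < 1 := by
  have hR : 1 ≤ √(1 + g.X1 t ^ 2) := by
    rw [Real.one_le_sqrt]; nlinarith [sq_nonneg (g.X1 t)]
  have h1 : 1 ≤ Real.sinh 1 := Real.self_le_sinh_iff.mpr (show (0:ℝ) ≤ 1 by norm_num)
  have h2' : |g.X2 t| < 1 := by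
    have h0 : g.X2 t ^ 2 < (1:ℝ) ^ 2 := by rw [one_pow]; exact h
    exact abs_lt_of_sq_lt_sq h0 zero_le_one
  have h2 := abs_lt.mp h2'
  constructor
  · rw [← Real.sinh_lt_sinh, Geo.sinh_s, Real.sinh_neg]
    have : -1 < g.X2 t / √(1 + g.X1 t ^ 2) := by
      rw [lt_div_iff₀ (by linarith)]; linarith [h2.1]
    linarith
  · rw [← Real.sinh_lt_sinh, Geo.sinh_s]
    have : g.X2 t / √(1 + g.X1 t ^ 2) < 1 := by
      rw [div_lt_iff₀ (by linarith)]; linarith [h2.2]
    linarith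

lemma X1_of_w {g : Geo} {t : ℝ} (h : g.w t ^ 2 < 2/5) : g.X1 t ^ 2 < 2/3 := by
  unfold Geo.w at h
  rw [wX_sq, div_lt_iff₀ (by positivity)] at h
  linarith

lemma X2_of_s {g : Geo} {t : ℝ} (h : Real.sinh (g.s t) ^ 2 < 1) : g.X2 t ^ 2 < 1 + g.X1 t ^ 2 := by
  rw [Geo.sinh_s, div_pow, R_sq, div_lt_iff₀ (by positivity)] at h
  linarith

lemma center_good {a b : Bool} {k : ℕ} {t : ℝ} (hab : a ≠ b) (hw : (gs a k).w t ^ 2 < 2/5)
    (hs : Real.sinh ((gs a k).s t) ^ 2 < 1) : cell a k t = cell b k t ∧ Good b k t := by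
  have h1 := X1_of_w hw
  have h2 := X2_of_s hs
  have h3 : (gs b k).X2 t = (gs a k).X1 t := by
    cases a <;> cases b
    · exact absurd rfl hab
    · rfl
    · rfl
    · exact absurd rfl hab
  constructor
  · apply cell_center
    · cases a
      · exact h2.le
      · show (gs true k).X1 t ^ 2 ≤ 1 + (gs true k).X2 t ^ 2
        nlinarith [sq_nonneg ((gs true k).X2 t)]
    · cases a
      · show (gs false k).X1 t ^ 2 ≤ 1 + (gs false k).X2 t ^ 2
        nlinarith [sq_nonneg ((gs false k).X2 t)]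
      · exact h2.le
  · have h4 : (gs b k).X2 t ^ 2 < 1 := by rw [h3]; linarith
    have h5 := s_abs_lt h4
    exact ⟨h5.1, Or.inl h5.2⟩

theorem to_type {n m : ℕ} {t t' : ℝ} {b : Bool} (h1 : mm n ≤ t) (h2 : t ≤ mm (n+1)) (hb : aa n ≠ b)
    (h : cell (aa n) n t = cell b m t') (hw : (gs b m).w t' ^ 2 < 2/5) :
    ∃ n', Good b n' t ∧ cell (aa n) n t = cell b n' t := by
  have hwn := gs_w_lt n h1 h2
  have hsn := gs_s_gt n h1
  have hsn' := gs_s_lt n h2
  have hstep := gs_s n t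
  have hstepw := gs_w n t
  have hcs := cell_step n t
  have hl := three_le_ell
  set a := aa n with ha
  -- the point in the chart
  have hsin : Real.sin (Nn ((gs a n).s t)) ^ 2 < 1/3 := by
    set q := V ((gs a n).w t) ((gs a n).s t) with hq
    obtain ⟨e, f, hsw⟩ : ∃ e f : ℤˣ, sw q = Rd e f (V ((gs b m).w t') ((gs b m).s t')) := by
      unfold cell at h
      rw [← hq] at h
      cases hca : a
      · cases hcb : b
        · rw [hca, hcb] at hb; exact absurd rfl hb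
        · rw [hca, hcb, KK_false, KK_true] at h
          have h3 := congrArg (Rd (e1 n) (e2 n)) h
          rw [Rd_invol, Rd_Rd] at h3
          exact ⟨_, _, h3⟩
      · cases hcb : b
        · rw [hca, hcb, KK_false, KK_true, Rd_sw] at h
          have h3 := congrArg sw h
          rw [sw_sw, ← Rd_sw] at h3
          have h4 := congrArg (Rd (e2 n) (e1 n)) h3
          rw [Rd_invol, Rd_Rd] at h4
          exact ⟨_, _, h4⟩
        · rw [hca, hcb] at hb; exact absurd rfl hb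
    have hr : 0 < r2 q := r2_V_pos _ _
    have hr' : 0 < r2 (sw q) := by rw [hsw, r2_Rd]; exact r2_V_pos _ _
    have hw1 : wf q ^ 2 < 1/2 := by rw [hq, wf_V]; linarith
    have hw2 : wf (sw q) ^ 2 < 1/2 := by rw [hsw, wf_Rd_sq, wf_V]; linarith
    have ho := (overlap hr hw1 hr' hw2).1
    rw [hq, V1, V2] at ho
    have hn := nV_pos ((gs a n).w t) ((gs a n).s t)
    have hcs := Real.sin_sq_add_cos_sq (Nn ((gs a n).s t))
    rw [mul_pow, mul_pow] at ho
    have hn2 : 0 < ((√(1 + ev ((gs a n).w t) ((gs a n).s t) ^ 2))⁻¹) ^ 2 := by positivity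
    have h5 : 2 * Real.sin (Nn ((gs a n).s t)) ^ 2 < Real.cos (Nn ((gs a n).s t)) ^ 2 := by
      by_contra hc
      push Not at hc
      have := mul_le_mul_of_nonneg_left hc hn2.le
      linarith
    linarith
  by_cases hc : (gs a n).s t ≤ ell
  · have h6 : Real.sinh ((gs a n).s t) ^ 2 < 1 := sinh_small (by rw [abs_le]; constructor <;> linarith) hsin
    obtain ⟨g1, g2⟩ := center_good hb hwn h6
    exact ⟨n, g2, g1⟩
  · push Not at hc
    have h7 : Real.sin (Nn ((gs a (n+1)).s t)) ^ 2 < 1/3 := by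
      rw [hstep, Nn_add_two_ell, Real.sin_add_pi, neg_sq] at hsin
      exact hsin
    have h6 : Real.sinh ((gs a (n+1)).s t) ^ 2 < 1 :=
      sinh_small (by rw [abs_le]; constructor <;> linarith) h7
    obtain ⟨g1, g2⟩ := center_good hb (by rw [← hstepw]; exact hwn) h6
    exact ⟨n+1, g2, by rw [hcs, g1]⟩

theorem cur_injOn : Set.InjOn cur (Set.Ici 0) := by
  intro t ht t' ht' h
  have ht0 : 0 ≤ t := ht
  have ht0' : 0 ≤ t' := ht'
  have a1 := mm_kk_le ht0
  have a2 := lt_mm_kk t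
  have b1 := mm_kk_le ht0'
  have b2 := lt_mm_kk t'
  have good : ∀ {t : ℝ}, 0 ≤ t → Good (aa (kk t)) (kk t) t := by
    intro t ht
    refine ⟨gs_s_gt _ (mm_kk_le ht), Or.inr ⟨rfl, ?_⟩⟩
    have h1 := gs_s_lt (kk t) (lt_mm_kk t).le
    have h2 := gs_s (kk t) t
    linarith
  unfold cur at h
  have main : ∃ n' m' : ℕ, SameX n' m' t t' := by
    by_cases hab : aa (kk t) = aa (kk t')
    · have g1 := good ht0
      have g2 := good ht0'
      rw [hab] at h g1
      exact key_index h g1 g2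
    · obtain ⟨n', g1, g2⟩ := to_type a1 a2.le hab h (gs_w_lt _ b1 b2.le)
      rw [g2] at h
      exact key_index h g1 (good ht0')
  obtain ⟨n', m', hX⟩ := main
  exact sameX_time ht0 ht0' hX

end H64.Ray
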