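import Pool.Agent.H64.Ray.Chart

set_option autoImplicit false

open Set Filter Topology Real

namespace H64.Ray

/-- A geodesic of the hyperboloid model, `X(t) = exp t • P + exp (-t) • Q`, given by two
null vectors. -/
structure Geo where
  P0 : ℝ
  P1 : ℝ
  P2 : ℝ
  Q0 : ℝ
  Q1 : ℝ
  Q2 : ℝ
  hP0 : 0 < P0
  hQ0 : 0 < Q0
  hP : P0 ^ 2 = P1 ^ 2 + P2 ^ 2
  hQ : Q0 ^ 2 = Q1 ^ 2 + Q2 ^ 2
  hPQ : P0 * Q0 - P1 * Q1 - P2 * Q2 = 1 / 2

namespace Geo

variable (g : Geo)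

noncomputable def X0 (t : ℝ) : ℝ := Real.exp t * g.P0 + Real.exp (-t) * g.Q0
noncomputable def X1 (t : ℝ) : ℝ := Real.exp t * g.P1 + Real.exp (-t) * g.Q1
noncomputable def X2 (t : ℝ) : ℝ := Real.exp t * g.P2 + Real.exp (-t) * g.Q2

lemma exp_mul (t : ℝ) : Real.exp t * Real.exp (-t) = 1 := by
  rw [← Real.exp_add]; simp

lemma X0_pos (t : ℝ) : 0 < g.X0 t := by
  have := g.hP0; have := g.hQ0
  unfold X0; positivity

lemma norm_eq (t : ℝ) : g.X0 t ^ 2 = 1 + g.X1 t ^ 2 + g.X2 t ^ 2 := by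
  unfold X0 X1 X2
  have h := exp_mul t
  linear_combination (Real.exp t ^ 2) * g.hP + (Real.exp (-t) ^ 2) * g.hQ +
    2 * (Real.exp t * Real.exp (-t)) * g.hPQ + h

end Geo

/-- transverse coordinate -/
noncomputable def wX (x1 : ℝ) : ℝ := x1 / √(1 + x1 ^ 2)
/-- longitudinal coordinate -/
noncomputable def sX (x1 x2 : ℝ) : ℝ := Real.arsinh (x2 / √(1 + x1 ^ 2))

lemma R_pos (x : ℝ) : 0 < √(1 + x ^ 2) := by positivity
lemma R_sq (x : ℝ) : √(1 + x ^ 2) ^ 2 = 1 + x ^ 2 := Real.sq_sqrt (by positivity)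

lemma wX_sq (x : ℝ) : wX x ^ 2 = x ^ 2 / (1 + x ^ 2) := by
  unfold wX; rw [div_pow, R_sq]

lemma one_sub_wX_sq (x : ℝ) : 1 - wX x ^ 2 = (1 + x ^ 2)⁻¹ := by
  rw [wX_sq]; field_simp; ring

lemma wX_sq_lt_one (x : ℝ) : wX x ^ 2 < 1 := by
  have h := one_sub_wX_sq x
  have : 0 < (1 + x ^ 2)⁻¹ := by positivity
  linarith

lemma sinh_sX (x1 x2 : ℝ) : Real.sinh (sX x1 x2) = x2 / √(1 + x1 ^ 2) := Real.sinh_arsinh _

lemma cosh_sX {x0 x1 x2 : ℝ} (h0 : 0 < x0) (h : x0 ^ 2 = 1 + x1 ^ 2 + x2 ^ 2) :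
    Real.cosh (sX x1 x2) = x0 / √(1 + x1 ^ 2) := by
  have h1 : Real.cosh (sX x1 x2) ^ 2 = (x0 / √(1 + x1 ^ 2)) ^ 2 := by
    rw [Real.cosh_sq, sinh_sX, div_pow, div_pow, R_sq, h]
    field_simp
    ring
  have h2 : 0 ≤ x0 / √(1 + x1 ^ 2) := (div_pos h0 (R_pos _)).le
  exact (pow_left_inj₀ (Real.cosh_pos _).le h2 two_ne_zero).mp h1

lemma contDiff_wX : ContDiff ℝ (⊤ : ℕ∞) wX := by
  unfold wX
  exact contDiff_id.div ((contDiff_const.add (contDiff_id.pow 2)).sqrt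
    (fun x => by simp only [id]; positivity)) (fun x => (R_pos x).ne')

lemma contDiff_sX {x1 x2 : ℝ → ℝ} (h1 : ContDiff ℝ (⊤ : ℕ∞) x1) (h2 : ContDiff ℝ (⊤ : ℕ∞) x2) :
    ContDiff ℝ (⊤ : ℕ∞) (fun t => sX (x1 t) (x2 t)) := by
  unfold sX
  apply Real.contDiff_arsinh.comp
  exact h2.div ((contDiff_const.add (h1.pow 2)).sqrt (fun x => by positivity))
    (fun x => (R_pos _).ne')

namespace Geo

variable (g : Geo)

noncomputable def w (t : ℝ) : ℝ := wX (g.X1 t)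
noncomputable def s (t : ℝ) : ℝ := sX (g.X1 t) (g.X2 t)

lemma contDiff_X1 : ContDiff ℝ (⊤ : ℕ∞) g.X1 := by
  unfold X1
  exact (Real.contDiff_exp.mul contDiff_const).add
    ((Real.contDiff_exp.comp contDiff_neg).mul contDiff_const)

lemma contDiff_X2 : ContDiff ℝ (⊤ : ℕ∞) g.X2 := by
  unfold X2
  exact (Real.contDiff_exp.mul contDiff_const).add
    ((Real.contDiff_exp.comp contDiff_neg).mul contDiff_const)

lemma contDiff_w : ContDiff ℝ (⊤ : ℕ∞) g.w := contDiff_wX.comp g.contDiff_X1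
lemma contDiff_s : ContDiff ℝ (⊤ : ℕ∞) g.s := contDiff_sX g.contDiff_X1 g.contDiff_X2

lemma hasDerivAt_lin (P Q t : ℝ) : HasDerivAt (fun t => Real.exp t * P + Real.exp (-t) * Q)
    (Real.exp t * P - Real.exp (-t) * Q) t := by
  have h1 : HasDerivAt (fun t => Real.exp t * P) (Real.exp t * P) t :=
    (Real.hasDerivAt_exp t).mul_const P
  have h2 : HasDerivAt (fun t => Real.exp (-t) * Q) (Real.exp (-t) * (-1) * Q) t :=
    ((Real.hasDerivAt_exp (-t)).comp t (hasDerivAt_neg t)).mul_const Q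
  have h3 : HasDerivAt (fun t => Real.exp t * P + Real.exp (-t) * Q) _ t := h1.add h2
  exact h3.congr_deriv (by ring)

lemma unit_speed (t : ℝ) : ((1 - g.w t ^ 2) ^ 2)⁻¹ * (deriv g.w t * deriv g.w t) +
    (1 - g.w t ^ 2)⁻¹ * (deriv g.s t * deriv g.s t) = 1 := by
  set a := g.X1 t with ha
  set b := g.X2 t with hb
  set z := g.X0 t with hz
  set a' := Real.exp t * g.P1 - Real.exp (-t) * g.Q1 with ha'
  set b' := Real.exp t * g.P2 - Real.exp (-t) * g.Q2 with hb'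
  set z' := Real.exp t * g.P0 - Real.exp (-t) * g.Q0 with hz'
  have hA : HasDerivAt g.X1 a' t := hasDerivAt_lin _ _ _
  have hB : HasDerivAt g.X2 b' t := hasDerivAt_lin _ _ _
  set R := √(1 + a ^ 2) with hR
  have hRp : 0 < R := R_pos a
  have hR2 : R ^ 2 = 1 + a ^ 2 := R_sq a
  have hRd : HasDerivAt (fun t => √(1 + g.X1 t ^ 2)) (a * a' / R) t := by
    have h1 : HasDerivAt (fun t => 1 + g.X1 t ^ 2) (2 * a * a') t := by
      have := (hA.pow 2).const_add 1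
      refine this.congr_deriv ?_
      push_cast; rw [← ha]; ring
    have h2 := h1.sqrt (by rw [← ha]; positivity)
    refine h2.congr_deriv ?_
    rw [← ha, ← hR]; field_simp
  have hw : HasDerivAt g.w (a' / R ^ 3) t := by
    have h1 : HasDerivAt g.w _ t := hA.div hRd (by rw [← ha]; exact hRp.ne')
    refine h1.congr_deriv ?_
    rw [← ha, ← hR]
    field_simp
    linear_combination a' * hR2
  have hz0 : 0 < z := g.X0_pos t
  have hnorm : z ^ 2 = 1 + a ^ 2 + b ^ 2 := g.norm_eq t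
  have hs : HasDerivAt g.s ((b' * R ^ 2 - a * b * a') / (R ^ 2 * z)) t := by
    have h1 : HasDerivAt (fun t => g.X2 t / √(1 + g.X1 t ^ 2)) _ t :=
      hB.div hRd (by rw [← ha]; exact hRp.ne')
    have h2 : HasDerivAt g.s _ t := h1.arsinh
    refine h2.congr_deriv ?_
    rw [← ha, ← hR, ← hb]
    have h3 : √(1 + (b / R) ^ 2) = z / R := by
      have : 1 + (b / R) ^ 2 = (z / R) ^ 2 := by
        rw [div_pow, div_pow, hnorm, hR2]; field_simp
      rw [this, Real.sqrt_sq (div_pos hz0 hRp).le]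
    rw [h3]
    simp only [smul_eq_mul]
    field_simp
  rw [hw.deriv, hs.deriv]
  have h1 : 1 - g.w t ^ 2 = (R ^ 2)⁻¹ := by
    rw [hR2]; exact one_sub_wX_sq a
  rw [h1]
  have key : a' ^ 2 * z ^ 2 + (b' * R ^ 2 - a * b * a') ^ 2 = R ^ 2 * z ^ 2 := by
    have e1 : z'^2 = a' ^ 2 + b' ^ 2 - 1 := by
      rw [hz', ha', hb']
      linear_combination (Real.exp t ^ 2) * g.hP + (Real.exp (-t) ^ 2) * g.hQ -
        2 * (Real.exp t * Real.exp (-t)) * g.hPQ - exp_mul t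
    have e2 : z * z' = a * a' + b * b' := by
      rw [hz, hz', ha, ha', hb, hb']
      unfold X0 X1 X2
      linear_combination (Real.exp t ^ 2) * g.hP - (Real.exp (-t) ^ 2) * g.hQ
    have e3 : (1 + a ^ 2 + b ^ 2) * (a' ^ 2 + b' ^ 2 - 1) = (a * a' + b * b') ^ 2 := by
      rw [← e1, ← e2, ← hnorm]; ring
    rw [hnorm, hR2]
    linear_combination (1 + a ^ 2) * e3
  field_simp
  linear_combination key

/-! ### the calibration -/

lemma Lpos {w s : ℝ} (hw : w ^ 2 < 1) :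
    0 < g.P0 * Real.cosh s - g.P1 * w - g.P2 * Real.sinh s := by
  have hc := Real.cosh_pos s
  have hcs : Real.cosh s ^ 2 = 1 + Real.sinh s ^ 2 := by rw [Real.cosh_sq]; ring
  have h0 := g.hP0
  have hP := g.hP
  set a := g.P0 * Real.cosh s - g.P2 * Real.sinh s with ha
  have ha0 : 0 < a := by
    have h1 : (g.P2 * Real.sinh s) ^ 2 < (g.P0 * Real.cosh s) ^ 2 := by
      rw [mul_pow, mul_pow, hcs, hP]
      have : 0 < g.P1 ^ 2 + g.P2 ^ 2 := by rw [← hP]; positivity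
      nlinarith [sq_nonneg (g.P1 * Real.sinh s)]
    have h2 := abs_lt_of_sq_lt_sq h1 (by positivity)
    have := (abs_lt.mp h2).2
    linarith
  have h3 : g.P1 ^ 2 ≤ a ^ 2 := by
    have : a ^ 2 = g.P1 ^ 2 + (g.P0 * Real.sinh s - g.P2 * Real.cosh s) ^ 2 := by
      rw [ha]
      linear_combination (g.P0 ^ 2 - g.P2 ^ 2) * hcs + hP
    rw [this]; nlinarith [sq_nonneg (g.P0 * Real.sinh s - g.P2 * Real.cosh s)]
  have h4 : (g.P1 * w) ^ 2 < a ^ 2 := by
    rw [mul_pow]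
    have : 0 < a ^ 2 := by positivity
    nlinarith [sq_nonneg w, sq_nonneg g.P1]
  have h5 := (abs_lt.mp (abs_lt_of_sq_lt_sq h4 ha0.le)).2
  linarith

noncomputable def bcal (w s : ℝ) : ℝ :=
  -Real.log (2 * (g.P0 * Real.cosh s - g.P1 * w - g.P2 * Real.sinh s)) + Real.log (1 - w ^ 2) / 2

lemma bcal_curve (t : ℝ) : g.bcal (g.w t) (g.s t) = t := by
  unfold bcal w s
  rw [sinh_sX, cosh_sX (g.X0_pos t) (g.norm_eq t), one_sub_wX_sq]
  unfold wX
  set R := √(1 + g.X1 t ^ 2) with hR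
  have hRp : 0 < R := R_pos _
  have hR2 : R ^ 2 = 1 + g.X1 t ^ 2 := R_sq _
  have h1 : g.P0 * (g.X0 t / R) - g.P1 * (g.X1 t / R) - g.P2 * (g.X2 t / R) =
      Real.exp (-t) / (2 * R) := by
    have : g.P0 * g.X0 t - g.P1 * g.X1 t - g.P2 * g.X2 t = Real.exp (-t) / 2 := by
      unfold X0 X1 X2
      linear_combination Real.exp t * g.hP + Real.exp (-t) * g.hPQ
    field_simp
    linear_combination 2 * this
  rw [h1, ← hR2]
  have h2 : 2 * (Real.exp (-t) / (2 * R)) = Real.exp (-t) / R := by field_simp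
  rw [h2, Real.log_div (Real.exp_pos _).ne' hRp.ne', Real.log_exp, Real.log_inv, Real.log_pow]
  push_cast; ring

noncomputable def bq (η₀ : ℝ) (q : E3) : ℝ := g.bcal (wf q) (sloc η₀ q)

lemma contDiffAt_sloc {η₀ : ℝ} {q : E3} (h : 0 < Zr η₀ q) : ContDiffAt ℝ (⊤ : ℕ∞) (sloc η₀) q := by
  unfold sloc
  apply contDiff_sg.contDiffAt.comp q
  apply contDiffAt_const.add
  apply Real.contDiff_arctan.contDiffAt.comp q
  apply ContDiffAt.div
  · unfold Yr
    exact ((contDiff_coord 1).contDiffAt.mul contDiffAt_const).sub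
      ((contDiff_coord 2).contDiffAt.mul contDiffAt_const)
  · unfold Zr
    exact ((contDiff_coord 2).contDiffAt.mul contDiffAt_const).add
      ((contDiff_coord 1).contDiffAt.mul contDiffAt_const)
  · exact h.ne'

lemma contDiffAt_bq {η₀ : ℝ} {q : E3} (h : 0 < Zr η₀ q) (hr : 0 < r2 q) (hw : wf q ^ 2 < 1) :
    ContDiffAt ℝ (⊤ : ℕ∞) (g.bq η₀) q := by
  unfold bq bcal
  have hs := contDiffAt_sloc h
  have hwd := contDiffAt_wf hr
  have hL := g.Lpos (s := sloc η₀ q) hw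
  apply ContDiffAt.add
  · apply ContDiffAt.neg
    apply ContDiffAt.log
    · apply contDiffAt_const.mul
      exact ((contDiffAt_const.mul (Real.contDiff_cosh.contDiffAt.comp q hs)).sub
        (contDiffAt_const.mul hwd)).sub (contDiffAt_const.mul (Real.contDiff_sinh.contDiffAt.comp q hs))
    · positivity
  · apply ContDiffAt.div_const
    apply ContDiffAt.log
    · exact contDiffAt_const.sub (hwd.pow 2)
    · have : 0 < 1 - wf q ^ 2 := by linarith
      exact this.ne'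

lemma hasFDerivAt_bq {η₀ : ℝ} {q : E3} (h : 0 < Zr η₀ q) (hr : 0 < r2 q) (hw : wf q ^ 2 < 1) :
    HasFDerivAt (g.bq η₀)
      ((g.P1 / (g.P0 * Real.cosh (sloc η₀ q) - g.P1 * wf q - g.P2 * Real.sinh (sloc η₀ q)) -
          wf q / (1 - wf q ^ 2)) • fderiv ℝ wf q +
        (-(g.P0 * Real.sinh (sloc η₀ q) - g.P2 * Real.cosh (sloc η₀ q)) /
          (g.P0 * Real.cosh (sloc η₀ q) - g.P1 * wf q - g.P2 * Real.sinh (sloc η₀ q))) • om q) q := by
  have hs := hasFDerivAt_sloc h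
  have hwd : HasFDerivAt wf (fderiv ℝ wf q) q := (differentiableAt_wf hr).hasFDerivAt
  have hL := g.Lpos (s := sloc η₀ q) hw
  have hq : 0 < 1 - wf q ^ 2 := by linarith
  have hcosh : HasFDerivAt (fun q => Real.cosh (sloc η₀ q)) (Real.sinh (sloc η₀ q) • om q) q :=
    (Real.hasDerivAt_cosh _).comp_hasFDerivAt q hs
  have hsinh : HasFDerivAt (fun q => Real.sinh (sloc η₀ q)) (Real.cosh (sloc η₀ q) • om q) q :=
    (Real.hasDerivAt_sinh _).comp_hasFDerivAt q hs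
  have h1 : HasFDerivAt (fun q => 2 * (g.P0 * Real.cosh (sloc η₀ q) - g.P1 * wf q -
      g.P2 * Real.sinh (sloc η₀ q)))
      ((2:ℝ) • ((g.P0 • (Real.sinh (sloc η₀ q) • om q) - g.P1 • fderiv ℝ wf q) -
        g.P2 • (Real.cosh (sloc η₀ q) • om q))) q :=
    (((hcosh.const_mul g.P0).sub (hwd.const_mul g.P1)).sub (hsinh.const_mul g.P2)).const_mul 2
  have h2 := (h1.log (by positivity)).neg
  have h3 : HasFDerivAt (fun q => 1 - wf q ^ 2) (-((2 * wf q) • fderiv ℝ wf q)) q := by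
    have h4 : HasFDerivAt (fun q => wf q ^ 2) ((2 * wf q) • fderiv ℝ wf q) q := by
      have := hwd.pow 2
      refine this.congr_fderiv ?_
      ext v; simp
    exact h4.const_sub 1
  have h5 := (h3.log hq.ne').mul_const ((2:ℝ)⁻¹)
  have h6 := h2.add h5
  have hfun : ∀ x, g.bq η₀ x = ((-fun q => Real.log (2 * (g.P0 * Real.cosh (sloc η₀ q) - g.P1 * wf q -
      g.P2 * Real.sinh (sloc η₀ q)))) + fun q => Real.log (1 - wf q ^ 2) * (2:ℝ)⁻¹) x := by
    intro x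
    simp [bq, bcal, div_eq_mul_inv]
  refine HasFDerivAt.congr_fderiv (h6.congr_of_eventuallyEq (Eventually.of_forall hfun)) ?_
  ext v
  simp only [smul_apply, add_apply, sub_apply, neg_apply, smul_eq_mul]
  have hL' : g.P0 * Real.cosh (sloc η₀ q) - g.P1 * wf q - g.P2 * Real.sinh (sloc η₀ q) ≠ 0 := hL.ne'
  field_simp
  ring

lemma eikonal {w s : ℝ} (hw : w ^ 2 < 1) (a o : ℝ) :
    ((g.P1 / (g.P0 * Real.cosh s - g.P1 * w - g.P2 * Real.sinh s) - w / (1 - w ^ 2)) * a +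
      (-(g.P0 * Real.sinh s - g.P2 * Real.cosh s) /
        (g.P0 * Real.cosh s - g.P1 * w - g.P2 * Real.sinh s)) * o) ^ 2 ≤
      ((1 - w ^ 2) ^ 2)⁻¹ * (a * a) + (1 - w ^ 2)⁻¹ * (o * o) := by
  have hL := g.Lpos (s := s) hw
  have hq : 0 < 1 - w ^ 2 := by linarith
  have hcs : Real.cosh s ^ 2 = 1 + Real.sinh s ^ 2 := by rw [Real.cosh_sq]; ring
  set L := g.P0 * Real.cosh s - g.P1 * w - g.P2 * Real.sinh s with hLdef
  set q := 1 - w ^ 2 with hqdef
  set c := g.P0 * Real.cosh s - g.P2 * Real.sinh s with hc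
  set d := g.P0 * Real.sinh s - g.P2 * Real.cosh s with hd
  have hcd : c ^ 2 - d ^ 2 = g.P1 ^ 2 := by
    rw [hc, hd]
    linear_combination (g.P0 ^ 2 - g.P2 ^ 2) * hcs + g.hP
  have hLc : L = c - g.P1 * w := by rw [hLdef, hc]; ring
  -- the two coefficients
  set A := q * g.P1 / L - w with hA
  set B := -d / L with hB
  have hAB : A ^ 2 + q * B ^ 2 = 1 := by
    rw [hA, hB]
    field_simp
    rw [hLc, hqdef]
    linear_combination (-(1 - w ^ 2)) * hcd
  have e1 : (g.P1 / L - w / q) * a + -d / L * o = A * (a / q) + B * o := by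
    rw [hA, hB]; field_simp
  rw [e1]
  have e2 : (q ^ 2)⁻¹ * (a * a) + q⁻¹ * (o * o) =
      (A ^ 2 + q * B ^ 2) * ((q ^ 2)⁻¹ * (a * a) + q⁻¹ * (o * o)) := by rw [hAB, one_mul]
  rw [e2]
  have e3 : (A ^ 2 + q * B ^ 2) * ((q ^ 2)⁻¹ * (a * a) + q⁻¹ * (o * o)) - (A * (a / q) + B * o) ^ 2 =
      q⁻¹ * (A * o - B * a) ^ 2 := by
    field_simp
    ring
  have e4 : 0 ≤ q⁻¹ * (A * o - B * a) ^ 2 := by positivity
  linarith

lemma calib_bq {η₀ : ℝ} {q : E3} (h : 0 < Zr η₀ q) (hr : 0 < r2 q) (hw : wf q ^ 2 < 1) (v : E3) :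
    (fderiv ℝ (g.bq η₀) q v) ^ 2 ≤ G1 q v v := by
  rw [(g.hasFDerivAt_bq h hr hw).fderiv]
  unfold G1
  rw [Qf_apply]
  simp only [smul_apply, add_apply, smul_eq_mul]
  exact g.eikonal hw _ _

/-- **Local minimality of street geodesics.** -/
theorem street_locMin {m : ℝ} (hm : 0 < m)
    (hlow : ∀ x ∈ Metric.sphere (0 : E3) 1, ∀ v : E3, inner ℝ x v = (0:ℝ) →
      m ^ 2 * ‖v‖ ^ 2 ≤ GG x v v)
    (K : E3 ≃ₗᵢ[ℝ] E3) (hG : ∀ p ∈ Metric.sphere (0 : E3) 1, 0 < r2 (K p) → wf (K p) ^ 2 ≤ 2/5 →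
      ∀ v, GG p v v = G1 (K p) (K v) (K v)) (t₀ : ℝ) (hw : g.w t₀ ^ 2 < 2/5) (D : Set ℝ) :
    LocMinAt GG D (fun t => K.symm (V (g.w t) (g.s t))) t₀ := by
  have hVc : ContDiff ℝ (⊤ : ℕ∞) (fun t => V (g.w t) (g.s t)) := contDiff_V g.contDiff_w g.contDiff_s
  have hκ : ContDiff ℝ (⊤ : ℕ∞) (fun t => K.symm (V (g.w t) (g.s t))) :=
    K.symm.contDiff.comp hVc
  have hKs : ∀ q : E3, K (K.symm q) = q := fun q => K.apply_symm_apply q
  have hev : ∀ᶠ t in 𝓝 t₀, g.w t ^ 2 < 2/5 := by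
    have : ContinuousAt (fun t => g.w t ^ 2) t₀ := (g.contDiff_w.continuous.pow 2).continuousAt
    exact this.eventually (gt_mem_nhds hw)
  have hsph : ∀ t, K.symm (V (g.w t) (g.s t)) ∈ Metric.sphere (0 : E3) 1 := by
    intro t
    have := V_sphere (g.w t) (g.s t)
    rw [mem_sphere_zero_iff_norm] at this ⊢
    rw [K.symm.norm_map, this]
  set η₀ := Nn (g.s t₀) with hη₀
  set q₀ := V (g.w t₀) (g.s t₀) with hq₀
  -- good points
  have hr0 : 0 < r2 q₀ := r2_V_pos _ _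
  have hZ0 : 0 < Zr η₀ q₀ := by
    rw [hq₀, Zr_V, hη₀, sub_self, Real.cos_zero, mul_one]
    exact nV_pos _ _
  have hw0 : wf q₀ ^ 2 < 2/5 := by rw [hq₀, wf_V]; exact hw
  have good : ∀ᶠ q in 𝓝 q₀, 0 < r2 q ∧ 0 < Zr η₀ q ∧ wf q ^ 2 < 2/5 := by
    have h1 : ∀ᶠ q in 𝓝 q₀, 0 < r2 q :=
      contDiff_r2.continuous.continuousAt.eventually (lt_mem_nhds hr0)
    have h2 : ∀ᶠ q in 𝓝 q₀, 0 < Zr η₀ q := by
      have : Continuous (Zr η₀) := by
        unfold Zr
        exact ((contDiff_coord 2).continuous.mul continuous_const).add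
          ((contDiff_coord 1).continuous.mul continuous_const)
      exact this.continuousAt.eventually (lt_mem_nhds hZ0)
    have h3 : ∀ᶠ q in 𝓝 q₀, wf q ^ 2 < 2/5 :=
      ((contDiffAt_wf hr0).continuousAt.pow 2).eventually (gt_mem_nhds hw0)
    exact h1.and (h2.and h3)
  have goodK : ∀ᶠ p in 𝓝 (K.symm q₀), 0 < r2 (K p) ∧ 0 < Zr η₀ (K p) ∧ wf (K p) ^ 2 < 2/5 := by
    have hc : ContinuousAt (fun p => K p) (K.symm q₀) := K.continuous.continuousAt
    have : Tendsto (fun p => K p) (𝓝 (K.symm q₀)) (𝓝 q₀) := by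
      have := hc.tendsto
      rwa [hKs] at this
    exact this.eventually good
  refine locMinAt_of_calib (κ := fun t => K.symm (V (g.w t) (g.s t))) (β := fun p => g.bq η₀ (K p))
    contDiff_GG.continuous hm hlow
    (hκ.of_le (by exact_mod_cast le_top)) hsph t₀ ?_ ?_ ?_ ?_ D
  · filter_upwards [hev] with t ht
    have hd : deriv (fun t => K.symm (V (g.w t) (g.s t))) t =
        K.symm (deriv (fun t => V (g.w t) (g.s t)) t) := by
      have h1 : HasDerivAt (fun t => V (g.w t) (g.s t)) (deriv (fun t => V (g.w t) (g.s t)) t) t :=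
        (hVc.differentiable (by simp) t).hasDerivAt
      have h2 := (K.symm.toContinuousLinearEquiv.hasFDerivAt
        (x := V (g.w t) (g.s t))).comp_hasDerivAt t h1
      exact h2.deriv
    rw [hd, hG _ (hsph t) (by rw [hKs]; exact r2_V_pos _ _)
      (by rw [hKs, wf_V]; exact ht.le), hKs, hKs, G1_V g.contDiff_w g.contDiff_s]
    exact g.unit_speed t
  · filter_upwards [goodK] with p hp
    have h1 := g.contDiffAt_bq hp.2.1 hp.1 (by linarith [hp.2.2])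
    have h2 : ContDiffAt ℝ (⊤ : ℕ∞) (fun p => g.bq η₀ (K p)) p :=
      h1.comp p K.contDiff.contDiffAt
    exact h2.of_le (by exact_mod_cast le_top)
  · filter_upwards [goodK] with p hp hps v _
    have h1 := g.hasFDerivAt_bq hp.2.1 hp.1 (by linarith [hp.2.2])
    have h2 : HasFDerivAt (fun p => g.bq η₀ (K p)) ((fderiv ℝ (g.bq η₀) (K p)).comp
        (K.toContinuousLinearEquiv : E3 →L[ℝ] E3)) p := by
      rw [h1.fderiv]
      exact h1.comp p K.toContinuousLinearEquiv.hasFDerivAt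
    rw [h2.fderiv, hG p hps hp.1 hp.2.2.le v]
    exact g.calib_bq hp.2.1 hp.1 (by linarith [hp.2.2]) (K v)
  · have hNc : ∀ᶠ t in 𝓝 t₀, |Nn (g.s t) - η₀| < π / 2 := by
      have hc : ContinuousAt (fun t => |Nn (g.s t) - η₀|) t₀ :=
        ((contDiff_Nn.continuous.comp g.contDiff_s.continuous).sub continuous_const).abs.continuousAt
      apply hc.eventually (gt_mem_nhds _)
      show |Nn (g.s t₀) - η₀| < π / 2
      rw [hη₀, sub_self, abs_zero]
      positivity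
    filter_upwards [hNc] with t ht
    show g.bq η₀ (K (K.symm (V (g.w t) (g.s t)))) = t
    rw [hKs]
    unfold bq
    rw [wf_V, sloc_V ht, g.bcal_curve]

end Geo

end H64.Ray
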