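import Pool.Agent.H64.Ray.Street

set_option autoImplicit false

open Set Filter Topology Real

namespace H64.Ray

/-- squared distance to the `X`-axis -/
noncomputable def r2 (p : E3) : ℝ := p 1 ^ 2 + p 2 ^ 2

/-- sine of the angle about the `X`-axis -/
noncomputable def Tf (p : E3) : ℝ := p 1 / √(r2 p)

/-- the transverse street coordinate -/
noncomputable def wf (p : E3) : ℝ := √(gh (Tf p)) * (p 0 / √(r2 p))

/-- coordinate functionals -/
noncomputable def cc (i : Fin 3) : E3 →L[ℝ] ℝ := EuclideanSpace.proj i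

lemma cc_apply (i : Fin 3) (v : E3) : cc i v = v i := rfl

/-- the differential of the street coordinate -/
noncomputable def om (p : E3) : E3 →L[ℝ] ℝ :=
  (gh (Tf p) / r2 p) • (p 2 • cc 1 - p 1 • cc 2)

lemma om_apply (p v : E3) : om p v = gh (Tf p) / r2 p * (p 2 * v 1 - p 1 * v 2) := by
  simp [om, cc_apply]

noncomputable def kap (p : E3) : ℝ := r2 p / (r2 p + gh (Tf p) * p 0 ^ 2)

noncomputable def af (p : E3) : ℝ := Real.smoothTransition (21 * kap p - 14)

instance instBS : IsBoundedSMul ℝ Bil := @NormedSpace.toIsBoundedSMul ℝ Bil _ _ _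

lemma bil_zero_smul (B : Bil) : (0:ℝ) • B = 0 := by ext v w; simp

lemma bil_one_smul (B : Bil) : (1:ℝ) • B = B := by ext v w; simp

/-- rank one form -/
noncomputable def rk (l : E3 →L[ℝ] ℝ) : Bil := l.smulRight l

lemma rk_apply (l : E3 →L[ℝ] ℝ) (v w : E3) : rk l v w = l v * l w := by
  simp [rk]

/-- the Euclidean inner product -/
noncomputable def eucl : Bil := rk (cc 0) + rk (cc 1) + rk (cc 2)

lemma eucl_apply (v w : E3) : eucl v w = v 0 * w 0 + v 1 * w 1 + v 2 * w 2 := by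
  simp [eucl, rk_apply, cc_apply]

/-- the hyperbolic metric in street coordinates -/
noncomputable def Qf (w : E3 → ℝ) (o : E3 → (E3 →L[ℝ] ℝ)) (p : E3) : Bil :=
  ((1 - w p ^ 2) ^ 2)⁻¹ • rk (fderiv ℝ w p) + (1 - w p ^ 2)⁻¹ • rk (o p)

lemma Qf_apply (w : E3 → ℝ) (o : E3 → (E3 →L[ℝ] ℝ)) (p v v' : E3) :
    Qf w o p v v' = ((1 - w p ^ 2) ^ 2)⁻¹ * (fderiv ℝ w p v * fderiv ℝ w p v') +
      (1 - w p ^ 2)⁻¹ * (o p v * o p v') := by
  simp [Qf, rk_apply]

/-- the swap of the first two coordinates -/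
noncomputable def sw : E3 ≃ₗᵢ[ℝ] E3 :=
  LinearIsometryEquiv.piLpCongrLeft 2 ℝ ℝ (Equiv.swap (0 : Fin 3) 1)

lemma sw0 (p : E3) : sw p 0 = p 1 := rfl
lemma sw1 (p : E3) : sw p 1 = p 0 := rfl
lemma sw2 (p : E3) : sw p 2 = p 2 := rfl

lemma sw_sw (p : E3) : sw (sw p) = p := by
  ext i
  fin_cases i
  · exact sw0 _
  · exact sw1 _
  · exact sw2 _

noncomputable def G1 : E3 → Bil := Qf wf om

noncomputable def wf2 (p : E3) : ℝ := wf (sw p)
noncomputable def om2 (p : E3) : E3 →L[ℝ] ℝ := (om (sw p)).comp (sw : E3 →L[ℝ] E3)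
noncomputable def G2 : E3 → Bil := Qf wf2 om2

noncomputable def GU (p : E3) : Bil :=
  af p • G1 p + (1 - af p) • (af (sw p) • G2 p + (1 - af (sw p)) • eucl)

/-- the Riemannian metric -/
noncomputable def GG (p : E3) : Bil := Real.smoothTransition (4 * ‖p‖ ^ 2 - 2) • GU p

lemma af_nonneg (p : E3) : 0 ≤ af p := Real.smoothTransition.nonneg _
lemma af_le_one (p : E3) : af p ≤ 1 := Real.smoothTransition.le_one _

lemma r2_nonneg (p : E3) : 0 ≤ r2 p := by unfold r2; positivity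

lemma wf_sq {p : E3} : wf p ^ 2 = gh (Tf p) * (p 0 ^ 2 / r2 p) := by
  unfold wf
  rw [mul_pow, div_pow, Real.sq_sqrt (gh_pos _).le, Real.sq_sqrt (r2_nonneg p)]

lemma Tf_sq {p : E3} : Tf p ^ 2 = p 1 ^ 2 / r2 p := by
  unfold Tf
  rw [div_pow, Real.sq_sqrt (r2_nonneg p)]

lemma kap_eq {p : E3} (h : 0 < r2 p) : kap p = (1 + wf p ^ 2)⁻¹ := by
  rw [wf_sq]; unfold kap
  have := gh_pos (Tf p)
  have h2 : 0 < r2 p + gh (Tf p) * p 0 ^ 2 := by positivity
  field_simp

lemma af_pos_imp {p : E3} (h : 0 < af p) : 0 < r2 p ∧ wf p ^ 2 < 1/2 := by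
  have h1 : 2/3 < kap p := by
    by_contra hc
    push Not at hc
    have : af p = 0 := Real.smoothTransition.zero_of_nonpos (by linarith)
    linarith
  have h2 : 0 < r2 p := by
    rcases (r2_nonneg p).lt_or_eq with h | h
    · exact h
    · exfalso
      unfold kap at h1
      rw [← h] at h1
      norm_num at h1
  refine ⟨h2, ?_⟩
  rw [kap_eq h2] at h1
  rw [lt_inv_comm₀ (by norm_num) (by positivity)] at h1
  linarith

lemma af_eq_one {p : E3} (h : 0 < r2 p) (hw : wf p ^ 2 ≤ 2/5) : af p = 1 := by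
  apply Real.smoothTransition.one_of_one_le
  rw [kap_eq h]
  have : 5/7 ≤ (1 + wf p ^ 2)⁻¹ := by
    rw [le_inv_comm₀ (by norm_num) (by positivity)]; linarith
  linarith

lemma af_zero_of_lt {p : E3} (h : r2 p < p 0 ^ 2) : af p = 0 := by
  apply Real.smoothTransition.zero_of_nonpos
  have h1 : kap p ≤ 1/2 := by
    unfold kap
    have hg := one_le_gh (Tf p)
    have h0 := r2_nonneg p
    have h2 : 0 < r2 p + gh (Tf p) * p 0 ^ 2 := by nlinarith
    rw [div_le_iff₀ h2]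
    nlinarith
  linarith

/-! ### smoothness -/

lemma contDiff_coord (i : Fin 3) : ContDiff ℝ (⊤ : ℕ∞) (fun p : E3 => p i) :=
  (cc i).contDiff

lemma contDiff_r2 : ContDiff ℝ (⊤ : ℕ∞) r2 := by
  unfold r2
  exact ((contDiff_coord 1).pow 2).add ((contDiff_coord 2).pow 2)

lemma contDiffAt_sqrt_r2 {p : E3} (h : 0 < r2 p) : ContDiffAt ℝ (⊤ : ℕ∞) (fun p => √(r2 p)) p :=
  contDiff_r2.contDiffAt.sqrt h.ne'

lemma contDiffAt_Tf {p : E3} (h : 0 < r2 p) : ContDiffAt ℝ (⊤ : ℕ∞) Tf p := by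
  unfold Tf
  exact (contDiff_coord 1).contDiffAt.div (contDiffAt_sqrt_r2 h) (Real.sqrt_pos.mpr h).ne'

lemma contDiffAt_ghTf {p : E3} (h : 0 < r2 p) : ContDiffAt ℝ (⊤ : ℕ∞) (fun p => gh (Tf p)) p :=
  contDiff_gh.contDiffAt.comp p (contDiffAt_Tf h)

lemma contDiffAt_wf {p : E3} (h : 0 < r2 p) : ContDiffAt ℝ (⊤ : ℕ∞) wf p := by
  unfold wf
  exact ((contDiffAt_ghTf h).sqrt (gh_pos _).ne').mul
    ((contDiff_coord 0).contDiffAt.div (contDiffAt_sqrt_r2 h) (Real.sqrt_pos.mpr h).ne')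

lemma contDiffAt_om {p : E3} (h : 0 < r2 p) : ContDiffAt ℝ (⊤ : ℕ∞) om p := by
  unfold om
  apply ContDiffAt.fun_smul
  · exact (contDiffAt_ghTf h).div contDiff_r2.contDiffAt h.ne'
  · apply ContDiffAt.sub
    · exact (contDiff_coord 2).contDiffAt.fun_smul contDiffAt_const
    · exact (contDiff_coord 1).contDiffAt.fun_smul contDiffAt_const

lemma contDiffAt_kap {p : E3} (h : 0 < r2 p) : ContDiffAt ℝ (⊤ : ℕ∞) kap p := by
  unfold kap
  apply contDiff_r2.contDiffAt.div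
  · exact contDiff_r2.contDiffAt.add ((contDiffAt_ghTf h).mul ((contDiff_coord 0).contDiffAt.pow 2))
  · have := gh_pos (Tf p)
    positivity

lemma clm_expand (l : E3 →L[ℝ] ℝ) (v : E3) : l v =
    v 0 * l (EuclideanSpace.single 0 1) + v 1 * l (EuclideanSpace.single 1 1) +
      v 2 * l (EuclideanSpace.single 2 1) := by
  have hv : v = v 0 • EuclideanSpace.single (0 : Fin 3) (1:ℝ) + v 1 • EuclideanSpace.single (1 : Fin 3) (1:ℝ) +
      v 2 • EuclideanSpace.single (2 : Fin 3) (1:ℝ) := by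
    ext i
    fin_cases i <;> simp
  conv_lhs => rw [hv]
  simp

lemma rk_expand (l : E3 →L[ℝ] ℝ) : rk l = ∑ i : Fin 3, ∑ j : Fin 3,
    (l (EuclideanSpace.single i 1) * l (EuclideanSpace.single j 1)) • (cc i).smulRight (cc j) := by
  ext v w
  rw [rk_apply, clm_expand l v, clm_expand l w]
  simp [Fin.sum_univ_three, cc_apply]
  ring

lemma contDiffAt_rk {l : E3 → (E3 →L[ℝ] ℝ)} {p : E3} (h : ContDiffAt ℝ (⊤ : ℕ∞) l p) :
    ContDiffAt ℝ (⊤ : ℕ∞) (fun p => rk (l p)) p := by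
  simp_rw [rk_expand]
  apply ContDiffAt.sum
  intro i _
  apply ContDiffAt.sum
  intro j _
  apply ContDiffAt.fun_smul
  · exact (h.clm_apply contDiffAt_const).mul (h.clm_apply contDiffAt_const)
  · exact contDiffAt_const

lemma contDiffAt_Qf {w : E3 → ℝ} {o : E3 → (E3 →L[ℝ] ℝ)} {p : E3}
    (hw : ContDiffAt ℝ (⊤ : ℕ∞) w p) (ho : ContDiffAt ℝ (⊤ : ℕ∞) o p) (h1 : w p ^ 2 < 1) :
    ContDiffAt ℝ (⊤ : ℕ∞) (Qf w o) p := by
  unfold Qf
  have h2 : (1 - w p ^ 2) ≠ 0 := by
    have : 0 < 1 - w p ^ 2 := by linarith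
    exact this.ne'
  apply ContDiffAt.add
  · apply ContDiffAt.fun_smul
    · exact ((contDiffAt_const.sub (hw.pow 2)).pow 2).inv (pow_ne_zero 2 h2)
    · apply contDiffAt_rk
      exact hw.fderiv_right (by simp)
  · apply ContDiffAt.fun_smul
    · exact (contDiffAt_const.sub (hw.pow 2)).inv h2
    · exact contDiffAt_rk ho

lemma eventually_zero_of_lt {p : E3} (h : r2 p < p 0 ^ 2) : ∀ᶠ q in 𝓝 p, af q = 0 := by
  have hc1 : Continuous r2 := contDiff_r2.continuous
  have hc2 : Continuous (fun p : E3 => p 0 ^ 2) := (contDiff_coord 0).continuous.pow 2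
  have : ∀ᶠ q in 𝓝 p, r2 q < q 0 ^ 2 := (hc1.continuousAt.eventually_lt hc2.continuousAt h)
  filter_upwards [this] with q hq
  exact af_zero_of_lt hq

lemma r2_pos_of_le {p : E3} (hp : p ≠ 0) (h : p 0 ^ 2 ≤ r2 p) : 0 < r2 p := by
  rcases (r2_nonneg p).lt_or_eq with h' | h'
  · exact h'
  · exfalso
    apply hp
    have h0 : p 0 = 0 := by
      have : p 0 ^ 2 = 0 := le_antisymm (by linarith) (by positivity)
      exact pow_eq_zero_iff (two_ne_zero) |>.mp this
    have h1 : p 1 ^ 2 + p 2 ^ 2 = 0 := h'.symm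
    have h2 : p 1 = 0 := by
      have : p 1 ^ 2 = 0 := le_antisymm (by nlinarith [sq_nonneg (p 2)]) (by positivity)
      exact pow_eq_zero_iff (two_ne_zero) |>.mp this
    have h3 : p 2 = 0 := by
      have : p 2 ^ 2 = 0 := le_antisymm (by nlinarith [sq_nonneg (p 1)]) (by positivity)
      exact pow_eq_zero_iff (two_ne_zero) |>.mp this
    ext i
    fin_cases i
    · exact h0
    · exact h2
    · exact h3

lemma contDiffAt_af {p : E3} (hp : p ≠ 0) : ContDiffAt ℝ (⊤ : ℕ∞) af p := by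
  by_cases h : r2 p < p 0 ^ 2
  · exact (contDiffAt_const (c := (0:ℝ))).congr_of_eventuallyEq (eventually_zero_of_lt h)
  · push Not at h
    have h0 := r2_pos_of_le hp h
    unfold af
    exact Real.smoothTransition.contDiff.contDiffAt.comp p
      ((contDiffAt_const.mul (contDiffAt_kap h0)).sub contDiffAt_const)

lemma contDiffAt_afG1 {p : E3} (hp : p ≠ 0) : ContDiffAt ℝ (⊤ : ℕ∞) (fun p => af p • G1 p) p := by
  by_cases h : r2 p < p 0 ^ 2
  · refine (contDiffAt_const (c := (0:Bil))).congr_of_eventuallyEq ?_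
    filter_upwards [eventually_zero_of_lt h] with q hq
    rw [hq, bil_zero_smul]
  · push Not at h
    have h0 := r2_pos_of_le hp h
    by_cases hw : wf p ^ 2 < 1
    · exact (contDiffAt_af hp).fun_smul (contDiffAt_Qf (contDiffAt_wf h0) (contDiffAt_om h0) hw)
    · push Not at hw
      refine (contDiffAt_const (c := (0:Bil))).congr_of_eventuallyEq ?_
      have h1 : kap p < 2/3 := by
        rw [kap_eq h0, inv_lt_comm₀ (by positivity) (by norm_num)]
        linarith
      have h2 : ∀ᶠ q in 𝓝 p, kap q < 2/3 :=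
        (contDiffAt_kap h0).continuousAt.eventually (gt_mem_nhds h1)
      filter_upwards [h2] with q hq
      have : af q = 0 := Real.smoothTransition.zero_of_nonpos (by linarith)
      rw [this, bil_zero_smul]

lemma contDiffAt_sw {p : E3} : ContDiffAt ℝ (⊤ : ℕ∞) (fun p => sw p) p :=
  sw.contDiff.contDiffAt

lemma fderiv_wf2 {p : E3} : fderiv ℝ wf2 p = (fderiv ℝ wf (sw p)).comp (sw : E3 →L[ℝ] E3) := by
  have : wf2 = wf ∘ sw := rfl
  rw [this]
  exact (sw.toContinuousLinearEquiv).comp_right_fderiv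

lemma G2_apply (p v v' : E3) : G2 p v v' = G1 (sw p) (sw v) (sw v') := by
  unfold G2 G1
  rw [Qf_apply, Qf_apply, fderiv_wf2]
  rfl

lemma contDiffAt_afG2 {p : E3} (hp : p ≠ 0) :
    ContDiffAt ℝ (⊤ : ℕ∞) (fun p => af (sw p) • G2 p) p := by
  have hsp : sw p ≠ 0 := by
    intro h; apply hp
    have := congrArg sw h
    rwa [sw_sw, map_zero] at this
  have h := (contDiffAt_afG1 hsp).comp p (contDiffAt_sw (p := p))
  -- pull back by the swap
  have key : (fun p => af (sw p) • G2 p) = fun p =>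
      ((ContinuousLinearMap.compL ℝ E3 E3 ℝ).flip (sw : E3 →L[ℝ] E3)).comp
        ((((fun p => af p • G1 p) ∘ fun p => sw p) p).comp (sw : E3 →L[ℝ] E3)) := by
    ext q v w
    simp [G2_apply]
  rw [key]
  have h1 : ContDiffAt ℝ (⊤ : ℕ∞) (fun p =>
      (((fun p => af p • G1 p) ∘ fun p => sw p) p).comp (sw : E3 →L[ℝ] E3)) p :=
    h.clm_comp contDiffAt_const
  exact contDiffAt_const.clm_comp h1

lemma contDiffAt_GU {p : E3} (hp : p ≠ 0) : ContDiffAt ℝ (⊤ : ℕ∞) GU p := by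
  have hsp : sw p ≠ 0 := by
    intro h; apply hp
    have := congrArg sw h
    rwa [sw_sw, map_zero] at this
  have h2 : ContDiffAt ℝ (⊤ : ℕ∞) (fun p => af (sw p)) p :=
    (contDiffAt_af hsp).comp p contDiffAt_sw
  unfold GU
  exact (contDiffAt_afG1 hp).add ((contDiffAt_const.sub (contDiffAt_af hp)).fun_smul
    ((contDiffAt_afG2 hp).add ((contDiffAt_const.sub h2).fun_smul contDiffAt_const)))

theorem contDiff_GG : ContDiff ℝ (⊤ : ℕ∞) GG := by
  rw [contDiff_iff_contDiffAt]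
  intro p
  by_cases hp : p = 0
  · refine (contDiffAt_const (c := (0:Bil))).congr_of_eventuallyEq ?_
    have h1 : ∀ᶠ q : E3 in 𝓝 p, ‖q‖ ^ 2 < 1/2 := by
      have hc : ContinuousAt (fun q : E3 => ‖q‖ ^ 2) p := by fun_prop
      apply hc.eventually (gt_mem_nhds _)
      rw [hp]; norm_num
    filter_upwards [h1] with q hq
    have : Real.smoothTransition (4 * ‖q‖ ^ 2 - 2) = 0 :=
      Real.smoothTransition.zero_of_nonpos (by linarith)
    unfold GG
    rw [this, bil_zero_smul]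
  · unfold GG
    apply ContDiffAt.fun_smul _ (contDiffAt_GU hp)
    apply Real.smoothTransition.contDiff.contDiffAt.comp p
    exact (contDiffAt_const.mul ((contDiff_norm_sq ℝ).contDiffAt)).sub contDiffAt_const

end H64.Ray
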