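import Pool.Agent.H64.Ray.Metric

set_option autoImplicit false

open Set Filter Topology Real

namespace H64.Ray

lemma rk_symm (l : E3 →L[ℝ] ℝ) (v w : E3) : rk l v w = rk l w v := by
  rw [rk_apply, rk_apply, mul_comm]

lemma Qf_symm (w : E3 → ℝ) (o : E3 → (E3 →L[ℝ] ℝ)) (p v v' : E3) :
    Qf w o p v v' = Qf w o p v' v := by
  rw [Qf_apply, Qf_apply]; ring

lemma GU_apply (p v w : E3) : GU p v w = af p * G1 p v w +
    (1 - af p) * (af (sw p) * G2 p v w + (1 - af (sw p)) * eucl v w) := by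
  simp [GU]
  ring

lemma GG_apply (p v w : E3) : GG p v w = Real.smoothTransition (4 * ‖p‖ ^ 2 - 2) * GU p v w := by
  simp [GG]

theorem GG_symm (p v w : E3) : GG p v w = GG p w v := by
  rw [GG_apply, GG_apply, GU_apply, GU_apply]
  unfold G1 G2
  rw [Qf_symm wf om p v w, Qf_symm wf2 om2 p v w, eucl_apply, eucl_apply]
  ring

lemma GG_sphere {p : E3} (hp : p ∈ Metric.sphere (0 : E3) 1) (v w : E3) : GG p v w = GU p v w := by
  rw [mem_sphere_zero_iff_norm] at hp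
  rw [GG_apply, hp]
  have : Real.smoothTransition (4 * (1:ℝ) ^ 2 - 2) = 1 :=
    Real.smoothTransition.one_of_one_le (by norm_num)
  rw [this, one_mul]

lemma differentiableAt_wf {p : E3} (h : 0 < r2 p) : DifferentiableAt ℝ wf p :=
  (contDiffAt_wf h).differentiableAt (by simp)

lemma fderiv_wf_self {p : E3} (h : 0 < r2 p) : fderiv ℝ wf p p = 0 := by
  have h1 : HasFDerivAt wf (fderiv ℝ wf ((1:ℝ) • p)) ((1:ℝ) • p) := by
    rw [one_smul]; exact (differentiableAt_wf h).hasFDerivAt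
  have h2 : HasDerivAt (fun t : ℝ => t • p) p 1 := by
    simpa using (hasDerivAt_id (1:ℝ)).smul_const p
  have h3 := h1.comp_hasDerivAt (1:ℝ) h2
  have h4 : (wf ∘ fun t : ℝ => t • p) =ᶠ[𝓝 1] fun _ => wf p := by
    filter_upwards [lt_mem_nhds (show (0:ℝ) < 1 by norm_num)] with t ht
    have e0 : r2 (t • p) = t ^ 2 * r2 p := by simp [r2]; ring
    have e1 : √(r2 (t • p)) = t * √(r2 p) := by
      rw [e0, Real.sqrt_mul (by positivity), Real.sqrt_sq ht.le]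
    have e2 : √(r2 p) ≠ 0 := (Real.sqrt_pos.mpr h).ne'
    simp only [Function.comp, wf, Tf, e1, PiLp.smul_apply, smul_eq_mul]
    rw [mul_div_mul_left _ _ ht.ne', mul_div_mul_left _ _ ht.ne']
  have h5 : HasDerivAt (wf ∘ fun t : ℝ => t • p) 0 1 :=
    (hasDerivAt_const (1:ℝ) (wf p)).congr_of_eventuallyEq h4
  have h6 := h3.unique h5
  rwa [one_smul] at h6

lemma fderiv_wf_e0 {p : E3} (h : 0 < r2 p) :
    fderiv ℝ wf p (EuclideanSpace.single 0 1) = √(gh (Tf p)) / √(r2 p) := by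
  set e : E3 := EuclideanSpace.single 0 1 with he
  have h1 : HasFDerivAt wf (fderiv ℝ wf (p + (0:ℝ) • e)) (p + (0:ℝ) • e) := by
    rw [zero_smul, add_zero]; exact (differentiableAt_wf h).hasFDerivAt
  have h2 : HasDerivAt (fun t : ℝ => p + t • e) e 0 := by
    simpa using ((hasDerivAt_id (0:ℝ)).smul_const e).const_add p
  have h3 := h1.comp_hasDerivAt (0:ℝ) h2
  have h4 : (wf ∘ fun t : ℝ => p + t • e) = fun t => √(gh (Tf p)) * ((p 0 + t) / √(r2 p)) := by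
    ext t
    have e0 : r2 (p + t • e) = r2 p := by simp [r2, he]
    have e1 : Tf (p + t • e) = Tf p := by
      unfold Tf
      rw [e0]
      simp [he]
    simp only [Function.comp, wf, e0, e1]
    simp [he]
  rw [h4] at h3
  have h5 : HasDerivAt (fun t => √(gh (Tf p)) * ((p 0 + t) / √(r2 p)))
      (√(gh (Tf p)) * (1 / √(r2 p))) 0 :=
    (((hasDerivAt_id (0:ℝ)).const_add (p 0)).div_const _).const_mul _
  have h6 := h3.unique h5
  rw [zero_smul, add_zero] at h6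
  rw [h6]; ring

lemma G1_nonneg {p : E3} (hw : wf p ^ 2 < 1) (v : E3) : 0 ≤ G1 p v v := by
  unfold G1
  rw [Qf_apply]
  have : 0 < 1 - wf p ^ 2 := by linarith
  have h1 : 0 ≤ fderiv ℝ wf p v * fderiv ℝ wf p v := mul_self_nonneg _
  have h2 : 0 ≤ om p v * om p v := mul_self_nonneg _
  positivity

lemma G1_pos {p : E3} (h : 0 < r2 p) (hw : wf p ^ 2 < 1) {v : E3}
    (hv : inner ℝ p v = (0:ℝ)) (hv0 : v ≠ 0) : 0 < G1 p v v := by
  rcases (G1_nonneg hw v).lt_or_eq with h0 | h0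
  · exact h0
  exfalso
  have hq : 0 < 1 - wf p ^ 2 := by linarith
  have h1 : 0 ≤ fderiv ℝ wf p v * fderiv ℝ wf p v := mul_self_nonneg _
  have h2 : 0 ≤ om p v * om p v := mul_self_nonneg _
  unfold G1 at h0
  rw [Qf_apply] at h0
  have hA : fderiv ℝ wf p v = 0 := by
    by_contra hne
    have h1' : 0 < fderiv ℝ wf p v * fderiv ℝ wf p v := mul_self_pos.mpr hne
    have : 0 < ((1 - wf p ^ 2) ^ 2)⁻¹ * (fderiv ℝ wf p v * fderiv ℝ wf p v) +
      (1 - wf p ^ 2)⁻¹ * (om p v * om p v) := by positivity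
    linarith
  have hB : om p v = 0 := by
    by_contra hne
    have h1' : 0 < om p v * om p v := mul_self_pos.mpr hne
    have : 0 < ((1 - wf p ^ 2) ^ 2)⁻¹ * (fderiv ℝ wf p v * fderiv ℝ wf p v) +
      (1 - wf p ^ 2)⁻¹ * (om p v * om p v) := by positivity
    linarith
  rw [om_apply] at hB
  have hg : gh (Tf p) / r2 p ≠ 0 := (div_pos (gh_pos _) h).ne'
  have hB' : p 2 * v 1 - p 1 * v 2 = 0 := by
    rcases mul_eq_zero.mp hB with h' | h'
    · exact absurd h' hg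
    · exact h'
  set c := (p 1 * v 1 + p 2 * v 2) / r2 p with hc
  have hr : r2 p = p 1 ^ 2 + p 2 ^ 2 := rfl
  have hv1 : v 1 = c * p 1 := by
    rw [hc, div_mul_eq_mul_div, eq_div_iff h.ne', hr]
    linear_combination (p 2) * hB'
  have hv2 : v 2 = c * p 2 := by
    rw [hc, div_mul_eq_mul_div, eq_div_iff h.ne', hr]
    linear_combination (-(p 1)) * hB'
  have hdec : v = c • p + (v 0 - c * p 0) • EuclideanSpace.single (0 : Fin 3) (1:ℝ) := by
    ext i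
    fin_cases i
    · simp
    · simpa using hv1
    · simpa using hv2
  have hA' := hA
  rw [hdec, map_add, map_smul, map_smul, fderiv_wf_self h, fderiv_wf_e0 h] at hA'
  have h5 : √(gh (Tf p)) / √(r2 p) ≠ 0 :=
    (div_pos (Real.sqrt_pos.mpr (gh_pos _)) (Real.sqrt_pos.mpr h)).ne'
  have h6 : v 0 - c * p 0 = 0 := by
    simp only [smul_eq_mul, mul_zero, zero_add] at hA'
    rcases mul_eq_zero.mp hA' with h' | h'
    · exact h'
    · exact absurd h' h5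
  rw [h6, zero_smul, add_zero] at hdec
  rw [hdec, inner_smul_right, real_inner_self_eq_norm_sq] at hv
  have hpn : p ≠ 0 := by
    rintro rfl
    simp [r2] at h
  have hpn' : ‖p‖ ^ 2 ≠ 0 := by positivity
  have hc0 : c = 0 := by
    rcases mul_eq_zero.mp hv with h' | h'
    · exact h'
    · exact absurd h' hpn'
  rw [hc0, zero_smul] at hdec
  exact hv0 hdec

lemma inner_eq (v w : E3) : (inner ℝ v w : ℝ) = v 0 * w 0 + v 1 * w 1 + v 2 * w 2 := by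
  rw [PiLp.inner_apply, Fin.sum_univ_three]
  simp [mul_comm]

lemma eucl_pos {v : E3} (hv0 : v ≠ 0) : 0 < eucl v v := by
  rw [eucl_apply, ← inner_eq, real_inner_self_eq_norm_sq]
  positivity

lemma sw_ne {v : E3} (hv : v ≠ 0) : sw v ≠ 0 := by
  intro h; apply hv
  have := congrArg sw h
  rwa [sw_sw, map_zero] at this

lemma inner_sw (v w : E3) : inner ℝ (sw v) (sw w) = (inner ℝ v w : ℝ) :=
  sw.inner_map_map v w

theorem GG_pos : ∀ x ∈ Metric.sphere (0 : E3) 1, ∀ v : E3,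
    inner ℝ x v = (0:ℝ) → v ≠ 0 → 0 < GG x v v := by
  intro p hp v hv hv0
  rw [GG_sphere hp, GU_apply]
  have ha := af_nonneg p
  have ha1 := af_le_one p
  have hb := af_nonneg (sw p)
  have hb1 := af_le_one (sw p)
  have he := eucl_pos hv0
  -- inner part
  have hin : 0 < af (sw p) * G2 p v v + (1 - af (sw p)) * eucl v v := by
    rcases hb.lt_or_eq with hb | hb
    · obtain ⟨h1, h2⟩ := af_pos_imp hb
      have h3 : 0 < G2 p v v := by
        rw [G2_apply]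
        exact G1_pos h1 (by linarith) (by rw [inner_sw]; exact hv) (sw_ne hv0)
      have h4 : 0 ≤ (1 - af (sw p)) * eucl v v := mul_nonneg (by linarith) he.le
      have h5 : 0 < af (sw p) * G2 p v v := mul_pos hb h3
      linarith
    · rw [← hb]; simpa using he
  rcases ha.lt_or_eq with ha | ha
  · obtain ⟨h1, h2⟩ := af_pos_imp ha
    have h3 : 0 < G1 p v v := G1_pos h1 (by linarith) hv hv0
    have h4 := mul_pos ha h3
    have h5 := mul_nonneg (show 0 ≤ 1 - af p by linarith) hin.le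
    linarith
  · rw [← ha]; simpa using hin

/-! ### the crossing cone -/

/-- the hyperbolic metric of the crossing cone -/
noncomputable def hcone (p v : E3) : ℝ :=
  ((p 2 ^ 2 - p 1 ^ 2 - p 0 ^ 2) * (v 0 ^ 2 + v 1 ^ 2 - v 2 ^ 2) +
    (p 0 * v 0 + p 1 * v 1 - p 2 * v 2) ^ 2) / (p 2 ^ 2 - p 1 ^ 2 - p 0 ^ 2) ^ 2

lemma hcone_sw (p v : E3) : hcone (sw p) (sw v) = hcone p v := by
  unfold hcone
  rw [sw0, sw1, sw2, sw0, sw1, sw2]
  congr 1 <;> ring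

lemma Tf_sq_le {p : E3} (h : 0 < r2 p) (hc : 2 * p 1 ^ 2 ≤ p 2 ^ 2) : Tf p ^ 2 ≤ 1/3 := by
  rw [Tf_sq, div_le_iff₀ h]
  unfold r2; linarith

lemma gh_cone {p : E3} (h : 0 < r2 p) (hc : 2 * p 1 ^ 2 ≤ p 2 ^ 2) :
    gh (Tf p) = r2 p / (p 2 ^ 2 - p 1 ^ 2) := by
  rw [gh_eq (Tf_sq_le h hc), Tf_sq]
  have h1 : 0 < p 2 ^ 2 - p 1 ^ 2 := by
    unfold r2 at h; nlinarith [sq_nonneg (p 1)]
  have h2 : 1 - 2 * (p 1 ^ 2 / r2 p) = (p 2 ^ 2 - p 1 ^ 2) / r2 p := by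
    field_simp
    unfold r2; ring
  rw [h2, inv_div]

lemma wf_cone {p : E3} (h : 0 < r2 p) (hc : 2 * p 1 ^ 2 ≤ p 2 ^ 2) :
    wf p = p 0 / √(p 2 ^ 2 - p 1 ^ 2) := by
  unfold wf
  rw [gh_cone h hc]
  have h1 : 0 < p 2 ^ 2 - p 1 ^ 2 := by
    unfold r2 at h; nlinarith [sq_nonneg (p 1)]
  rw [Real.sqrt_div h.le]
  have h2 : √(r2 p) ≠ 0 := (Real.sqrt_pos.mpr h).ne'
  have h3 : √(p 2 ^ 2 - p 1 ^ 2) ≠ 0 := (Real.sqrt_pos.mpr h1).ne'
  field_simp

lemma fderiv_wf_cone {p : E3} (h : 0 < r2 p) (hc : 2 * p 1 ^ 2 < p 2 ^ 2) (v : E3) :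
    fderiv ℝ wf p v = (v 0 * (p 2 ^ 2 - p 1 ^ 2) - p 0 * (p 2 * v 2 - p 1 * v 1)) /
      (√(p 2 ^ 2 - p 1 ^ 2) * (p 2 ^ 2 - p 1 ^ 2)) := by
  have hS : 0 < p 2 ^ 2 - p 1 ^ 2 := by
    unfold r2 at h; nlinarith [sq_nonneg (p 1)]
  have h1 : HasFDerivAt wf (fderiv ℝ wf (p + (0:ℝ) • v)) (p + (0:ℝ) • v) := by
    rw [zero_smul, add_zero]; exact (differentiableAt_wf h).hasFDerivAt
  have h2 : HasDerivAt (fun t : ℝ => p + t • v) v 0 := by
    simpa using ((hasDerivAt_id (0:ℝ)).smul_const v).const_add p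
  have h3 := h1.comp_hasDerivAt (0:ℝ) h2
  have h4 : (wf ∘ fun t : ℝ => p + t • v) =ᶠ[𝓝 0] fun t : ℝ =>
      (p 0 + t * v 0) / √((p 2 + t * v 2) ^ 2 - (p 1 + t * v 1) ^ 2) := by
    have hc1 : ContinuousAt (fun t : ℝ => (p 2 + t * v 2) ^ 2 - 2 * (p 1 + t * v 1) ^ 2) 0 := by
      fun_prop
    have hc2 : ContinuousAt (fun t : ℝ => (p 1 + t * v 1) ^ 2 + (p 2 + t * v 2) ^ 2) 0 := by
      fun_prop
    have e1 := hc1.eventually (lt_mem_nhds (show (0:ℝ) < _ by simp; linarith))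
    have e2 := hc2.eventually (lt_mem_nhds (show (0:ℝ) < _ by
      simp; unfold r2 at h; linarith))
    filter_upwards [e1, e2] with t ht1 ht2
    have hr : 0 < r2 (p + t • v) := by
      unfold r2; simpa using ht2
    have := wf_cone hr (by simp; linarith)
    simp only [Function.comp]
    rw [this]
    simp
  have hX : HasDerivAt (fun t : ℝ => p 0 + t * v 0) (v 0) 0 := by
    simpa using ((hasDerivAt_id (0:ℝ)).mul_const (v 0)).const_add (p 0)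
  have hY : HasDerivAt (fun t : ℝ => p 1 + t * v 1) (v 1) 0 := by
    simpa using ((hasDerivAt_id (0:ℝ)).mul_const (v 1)).const_add (p 1)
  have hZ : HasDerivAt (fun t : ℝ => p 2 + t * v 2) (v 2) 0 := by
    simpa using ((hasDerivAt_id (0:ℝ)).mul_const (v 2)).const_add (p 2)
  have hSd := ((hZ.pow 2).sub (hY.pow 2))
  have hSq := hSd.sqrt (by simp; exact hS.ne')
  have hdiv : HasDerivAt (fun t : ℝ =>
      (p 0 + t * v 0) / √((p 2 + t * v 2) ^ 2 - (p 1 + t * v 1) ^ 2)) _ 0 := hX.div hSq (by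
    simp only [Pi.sub_apply, Pi.pow_apply]
    apply (Real.sqrt_pos.mpr _).ne'
    simpa using hS)
  have h5 := hdiv.congr_of_eventuallyEq h4
  have h6 := h3.unique h5
  rw [zero_smul, add_zero] at h6
  rw [h6]
  simp only [Pi.sub_apply, Pi.pow_apply, zero_mul, add_zero]
  have hD : √(p 2 ^ 2 - p 1 ^ 2) ≠ 0 := (Real.sqrt_pos.mpr hS).ne'
  have hD2 : √(p 2 ^ 2 - p 1 ^ 2) ^ 2 = p 2 ^ 2 - p 1 ^ 2 := Real.sq_sqrt hS.le
  set D := √(p 2 ^ 2 - p 1 ^ 2) with hDdef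
  rw [← hD2]
  field_simp
  push_cast
  ring

lemma om_cone {p : E3} (h : 0 < r2 p) (hc : 2 * p 1 ^ 2 ≤ p 2 ^ 2) (v : E3) :
    om p v = (p 2 * v 1 - p 1 * v 2) / (p 2 ^ 2 - p 1 ^ 2) := by
  rw [om_apply, gh_cone h hc]
  field_simp

lemma G1_cone {p : E3} (hc : 2 * p 1 ^ 2 < p 2 ^ 2) (hc' : p 0 ^ 2 + p 1 ^ 2 < p 2 ^ 2)
    (v : E3) : G1 p v v = hcone p v := by
  have h : 0 < r2 p := by unfold r2; nlinarith [sq_nonneg (p 1), sq_nonneg (p 0)]
  have hS : 0 < p 2 ^ 2 - p 1 ^ 2 := by nlinarith [sq_nonneg (p 0)]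
  have hq : 0 < p 2 ^ 2 - p 1 ^ 2 - p 0 ^ 2 := by linarith
  unfold G1
  rw [Qf_apply, fderiv_wf_cone h hc, om_cone h hc.le]
  have hw : wf p ^ 2 = p 0 ^ 2 / (p 2 ^ 2 - p 1 ^ 2) := by
    rw [wf_cone h hc.le, div_pow, Real.sq_sqrt hS.le]
  rw [hw]
  unfold hcone
  set D := √(p 2 ^ 2 - p 1 ^ 2) with hD
  have hDp : 0 < D := Real.sqrt_pos.mpr hS
  have hD2 : D ^ 2 = p 2 ^ 2 - p 1 ^ 2 := Real.sq_sqrt hS.le
  have h1 : 1 - p 0 ^ 2 / (p 2 ^ 2 - p 1 ^ 2) =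
      (p 2 ^ 2 - p 1 ^ 2 - p 0 ^ 2) / (p 2 ^ 2 - p 1 ^ 2) := by
    field_simp
  rw [h1]
  set S := p 2 ^ 2 - p 1 ^ 2 with hSdef
  have e1 : (v 0 * S - p 0 * (p 2 * v 2 - p 1 * v 1)) / (D * S) *
      ((v 0 * S - p 0 * (p 2 * v 2 - p 1 * v 1)) / (D * S)) =
      (v 0 * S - p 0 * (p 2 * v 2 - p 1 * v 1)) ^ 2 / S ^ 3 := by
    rw [div_mul_div_comm]
    congr 1
    · ring
    · rw [show D * S * (D * S) = D ^ 2 * S ^ 2 by ring, hD2]; ring
  rw [e1]
  have hSne : S ≠ 0 := hS.ne'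
  have hqne : S - p 0 ^ 2 ≠ 0 := hq.ne'
  field_simp
  rw [hSdef]
  ring

/-- if both street functions are small we are in the crossing cone -/
lemma overlap {p : E3} (h1 : 0 < r2 p) (hw1 : wf p ^ 2 < 1/2) (h2 : 0 < r2 (sw p))
    (hw2 : wf (sw p) ^ 2 < 1/2) : 2 * p 1 ^ 2 < p 2 ^ 2 ∧ 2 * p 0 ^ 2 < p 2 ^ 2 := by
  -- auxiliary: one-sided statement
  have key : ∀ q : E3, 0 < r2 q → wf q ^ 2 < 1/2 → 0 < r2 (sw q) → wf (sw q) ^ 2 < 1/2 →
      2 * q 1 ^ 2 < q 2 ^ 2 := by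
    intro q h1 hw1 h2 hw2
    by_contra hc
    push Not at hc
    have hT : 1/3 ≤ Tf q ^ 2 := by
      rw [Tf_sq, le_div_iff₀ h1]; unfold r2; linarith
    have hg := three_le_gh hT
    rw [wf_sq] at hw1
    have hA : 3 * (q 0 ^ 2 / r2 q) < 1/2 := by
      have : 0 ≤ q 0 ^ 2 / r2 q := by positivity
      nlinarith
    have hA' : 6 * q 0 ^ 2 < r2 q := by
      have : 3 * (q 0 ^ 2 / r2 q) = (3 * q 0 ^ 2) / r2 q := by ring
      rw [this, div_lt_iff₀ h1] at hA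
      linarith
    have hr : r2 q = q 1 ^ 2 + q 2 ^ 2 := rfl
    have hr' : r2 (sw q) = q 0 ^ 2 + q 2 ^ 2 := rfl
    by_cases hd : 2 * q 0 ^ 2 < q 2 ^ 2
    · -- exact at swapped point
      have := wf_cone h2 (p := sw q) (by rw [sw1, sw2]; exact hd.le)
      rw [this, sw0, sw1, sw2, div_pow, Real.sq_sqrt (by nlinarith [sq_nonneg (q 0)]),
        div_lt_iff₀ (by nlinarith [sq_nonneg (q 0)])] at hw2
      nlinarith [sq_nonneg (q 0)]
    · push Not at hd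
      have hT2 : 1/3 ≤ Tf (sw q) ^ 2 := by
        rw [Tf_sq, le_div_iff₀ h2, sw1, hr']; linarith
      have hg2 := three_le_gh hT2
      rw [wf_sq, sw0] at hw2
      have hB : 3 * (q 1 ^ 2 / r2 (sw q)) < 1/2 := by
        have : 0 ≤ q 1 ^ 2 / r2 (sw q) := by positivity
        nlinarith
      have hB' : 6 * q 1 ^ 2 < r2 (sw q) := by
        have : 3 * (q 1 ^ 2 / r2 (sw q)) = (3 * q 1 ^ 2) / r2 (sw q) := by ring
        rw [this, div_lt_iff₀ h2] at hB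
        linarith
      rw [hr] at hA'
      rw [hr'] at hB'
      nlinarith [sq_nonneg (q 0), sq_nonneg (q 1)]
  refine ⟨key p h1 hw1 h2 hw2, ?_⟩
  have := key (sw p) h2 hw2 (by rw [sw_sw]; exact h1) (by rw [sw_sw]; exact hw1)
  rwa [sw1, sw2] at this

lemma G1_eq_G2 {p : E3} (h1 : 0 < r2 p) (hw1 : wf p ^ 2 < 1/2) (h2 : 0 < r2 (sw p))
    (hw2 : wf (sw p) ^ 2 < 1/2) (v : E3) : G1 p v v = G2 p v v := by
  obtain ⟨ha, hb⟩ := overlap h1 hw1 h2 hw2
  have hw := hw1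
  have hS : 0 < p 2 ^ 2 - p 1 ^ 2 := by
    unfold r2 at h1; nlinarith [sq_nonneg (p 1)]
  rw [wf_cone h1 ha.le, div_pow, Real.sq_sqrt hS.le, div_lt_iff₀ hS] at hw
  have hc : p 0 ^ 2 + p 1 ^ 2 < p 2 ^ 2 := by nlinarith
  rw [G2_apply, G1_cone ha hc, G1_cone (by rw [sw1, sw2]; exact hb)
    (by rw [sw0, sw1, sw2]; linarith), hcone_sw]

theorem GG_eq_G1 {p : E3} (hp : p ∈ Metric.sphere (0 : E3) 1) (h : 0 < r2 p)
    (hw : wf p ^ 2 ≤ 2/5) (v w : E3) : GG p v w = G1 p v w := by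
  rw [GG_sphere hp, GU_apply, af_eq_one h hw]
  ring

theorem GG_eq_G2 {p : E3} (hp : p ∈ Metric.sphere (0 : E3) 1) (h : 0 < r2 (sw p))
    (hw : wf (sw p) ^ 2 ≤ 2/5) (v : E3) : GG p v v = G1 (sw p) (sw v) (sw v) := by
  rw [GG_sphere hp, GU_apply, af_eq_one h hw, ← G2_apply]
  rcases (af_nonneg p).lt_or_eq with ha | ha
  · obtain ⟨h1, h2⟩ := af_pos_imp ha
    rw [G1_eq_G2 h1 h2 h (by linarith)]
    ring
  · rw [← ha]; ring

end H64.Ray
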