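import Pool.Agent.H64.Ray.Inj

set_option autoImplicit false

open Set Filter Topology Real

namespace H64.Ray

lemma exists_seq (k : ℕ) : ∃ J : ℕ → ℕ, (∀ N, N ≤ J N) ∧ (∀ N, e1 (J N) = e1 k) ∧
    (∀ N, e2 (J N) = e2 k) ∧ (∀ N, aa (J N) = aa k) ∧
    Tendsto (fun N => xx (J N)) atTop (𝓝 (xx k)) ∧
    Tendsto (fun N => yy (J N)) atTop (𝓝 (yy k)) ∧
    Tendsto (fun N => rho (J N)) atTop (𝓝 (rho k)) := by
  have h : ∀ N : ℕ, ∃ j : ℕ, N ≤ j ∧ Even (nn j - nn k) ∧ Even (((j:ℤ) - nn j) - ((k:ℤ) - nn k)) ∧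
      ∀ i : ℤ, |i| ≤ ((N+1 : ℕ) : ℤ) → aa (j + i) = aa (k + i) := by
    intro N
    obtain ⟨j, h1, h2, h3, h4⟩ := recur k (N+1) N
    obtain ⟨j', hj'⟩ := Int.eq_ofNat_of_zero_le (show 0 ≤ j by omega)
    subst hj'
    exact ⟨j', by exact_mod_cast h1, h2, h3, h4⟩
  choose J hJ using h
  have hlim0 : Tendsto (fun N : ℕ => 3 * (1/2:ℝ) ^ N) atTop (𝓝 0) := by
    have := (tendsto_pow_atTop_nhds_zero_of_lt_one (r := (1/2:ℝ)) (by norm_num) (by norm_num)).const_mul 3
    simpa using this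
  have close0 : ∀ N, |xx (J N) - xx k| ≤ 3 * (1/2:ℝ) ^ N ∧ |xx (-(J N : ℤ)) - xx (-(k:ℤ))| ≤ 3 * (1/2:ℝ) ^ N := by
    intro N
    apply xx_close
    intro i hi
    apply (hJ N).2.2.2
    push_cast; linarith
  have close1 : ∀ N, |xx ((J N:ℤ) + 1) - xx ((k:ℤ) + 1)| ≤ 3 * (1/2:ℝ) ^ N ∧
      |xx (-((J N : ℤ)+1)) - xx (-((k:ℤ)+1))| ≤ 3 * (1/2:ℝ) ^ N := by
    intro N
    apply xx_close
    intro i hi
    rw [add_assoc, add_assoc]
    apply (hJ N).2.2.2
    rw [abs_le] at hi ⊢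
    push_cast
    constructor <;> linarith [hi.1, hi.2]
  have tend : ∀ {f : ℕ → ℝ} {a : ℝ}, (∀ N, |f N - a| ≤ 3 * (1/2:ℝ) ^ N) → Tendsto f atTop (𝓝 a) := by
    intro f a hf
    rw [tendsto_iff_dist_tendsto_zero]
    refine squeeze_zero (fun N => dist_nonneg) (fun N => ?_) hlim0
    rw [Real.dist_eq]; exact hf N
  have tx0 : Tendsto (fun N => xx (J N)) atTop (𝓝 (xx k)) := tend fun N => (close0 N).1
  have tx1 : Tendsto (fun N => xx ((J N:ℤ)+1)) atTop (𝓝 (xx ((k:ℤ)+1))) := tend fun N => (close1 N).1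
  have ty0 : Tendsto (fun N => yy (J N)) atTop (𝓝 (yy k)) := by
    unfold yy
    exact (tend fun N => (close0 N).2).inv₀ (xx_pos _).ne'
  have ty1 : Tendsto (fun N => yy ((J N:ℤ)+1)) atTop (𝓝 (yy ((k:ℤ)+1))) := by
    unfold yy
    exact (tend fun N => (close1 N).2).inv₀ (xx_pos _).ne'
  have haa : ∀ N, aa (J N) = aa k := by
    intro N
    have := (hJ N).2.2.2 0 (by rw [abs_zero]; positivity)
    rwa [add_zero, add_zero] at this
  have tsig : ∀ {x y : ℕ → ℝ} {x0 y0 : ℝ}, 0 < x0 → 0 < y0 → Tendsto x atTop (𝓝 x0) →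
      Tendsto y atTop (𝓝 y0) → Tendsto (fun N => sigP (x N) (y N)) atTop (𝓝 (sigP x0 y0)) := by
    intro x y x0 y0 hx0 hy0 hx hy
    unfold sigP
    apply hy.div
    · exact ((Real.continuous_sqrt.tendsto _).comp (hx.mul hy)).mul (hx.add hy)
    · positivity
  refine ⟨J, fun N => (hJ N).1, ?_, ?_, haa, tx0, ty0, ?_⟩
  · intro N
    unfold e1
    rw [Int.negOnePow_eq_iff]
    exact (hJ N).2.2.1
  · intro N
    unfold e2
    rw [Int.negOnePow_eq_iff]
    exact (hJ N).2.1
  · unfold rho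
    simp_rw [haa]
    apply Tendsto.div
    · apply Tendsto.mul
      · exact tsig (xx_pos _) (yy_pos _) tx1 ty1
      · apply Tendsto.pow
        unfold mden
        exact (tx1.const_mul kA).add_const _
    · exact tsig (xx_pos _) (yy_pos _) tx0 ty0
    · exact (sigP_pos (xx_pos _) (yy_pos _)).ne'

lemma continuous_V : Continuous (fun p : ℝ × ℝ => V p.1 p.2) := by
  have hN : Continuous (fun p : ℝ × ℝ => Nn p.2) := contDiff_Nn.continuous.comp continuous_snd
  have hev : Continuous (fun p : ℝ × ℝ => ev p.1 p.2) := by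
    unfold ev
    apply continuous_fst.div
    · exact Real.continuous_sqrt.comp (continuous_gh.comp (Real.continuous_sin.comp hN))
    · intro p; exact (Real.sqrt_pos.mpr (gh_pos _)).ne'
  have hn : Continuous (fun p : ℝ × ℝ => (√(1 + ev p.1 p.2 ^ 2))⁻¹) := by
    apply Continuous.inv₀
    · exact Real.continuous_sqrt.comp (continuous_const.add (hev.pow 2))
    · intro p; positivity
  unfold V
  apply hn.smul
  apply (PiLp.continuous_toLp 2 _).comp
  apply continuous_pi
  intro i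
  fin_cases i
  · exact hev
  · exact Real.continuous_sin.comp hN
  · exact Real.continuous_cos.comp hN

lemma continuous_wX : Continuous wX := contDiff_wX.continuous

lemma continuous_sX : Continuous (fun p : ℝ × ℝ => sX p.1 p.2) := by
  unfold sX
  apply Real.continuous_arsinh.comp
  apply continuous_snd.div
  · exact Real.continuous_sqrt.comp (continuous_const.add (continuous_fst.pow 2))
  · intro p; exact (R_pos _).ne'

/-- the position as a function of the two coordinates -/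
lemma continuous_VX : Continuous (fun p : ℝ × ℝ => V (wX p.1) (sX p.1 p.2)) :=
  continuous_V.comp ((continuous_wX.comp continuous_fst).prodMk continuous_sX)

lemma mk_tendsto {x y : ℕ → ℝ} {x0 y0 : ℝ} (m : ℕ → ℝ) (m0 u : ℝ) (hx : ∀ N, 0 < x N) (hy : ∀ N, 0 < y N)
    (hx0 : 0 < x0) (hy0 : 0 < y0) (tx : Tendsto x atTop (𝓝 x0)) (ty : Tendsto y atTop (𝓝 y0)) :
    Tendsto (fun N => (mkGeo (x N) (y N) (m N) (hx N) (hy N)).X1 (m N + u)) atTop
      (𝓝 ((mkGeo x0 y0 m0 hx0 hy0).X1 (m0 + u))) ∧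
    Tendsto (fun N => (mkGeo (x N) (y N) (m N) (hx N) (hy N)).X2 (m N + u)) atTop
      (𝓝 ((mkGeo x0 y0 m0 hx0 hy0).X2 (m0 + u))) := by
  have e1 : ∀ m : ℝ, Real.exp (m + u) * Real.exp (-m) = Real.exp u := by
    intro m; rw [← Real.exp_add]; ring_nf
  have e2 : ∀ m : ℝ, Real.exp (-(m + u)) * Real.exp m = Real.exp (-u) := by
    intro m; rw [← Real.exp_add]; ring_nf
  have f1 : ∀ (x y m : ℝ) (hx : 0 < x) (hy : 0 < y), (mkGeo x y m hx hy).X1 (m + u) =
      Real.exp u * (sigP x y * ((1 + 2 * x - x ^ 2) / 2 / √2)) +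
      Real.exp (-u) * (sigQ x y * ((1 - 2 * y - y ^ 2) / 2 / √2)) := by
    intro x y m hx hy
    rw [← e1 m, ← e2 m]
    unfold Geo.X1 mkGeo
    simp only
    ring
  have f2 : ∀ (x y m : ℝ) (hx : 0 < x) (hy : 0 < y), (mkGeo x y m hx hy).X2 (m + u) =
      Real.exp u * (sigP x y * ((x ^ 2 + 2 * x - 1) / 2 / √2)) +
      Real.exp (-u) * (sigQ x y * ((y ^ 2 - 2 * y - 1) / 2 / √2)) := by
    intro x y m hx hy
    rw [← e1 m, ← e2 m]
    unfold Geo.X2 mkGeo
    simp only
    ring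
  have tP : Tendsto (fun N => sigP (x N) (y N)) atTop (𝓝 (sigP x0 y0)) := by
    unfold sigP
    apply ty.div
    · exact ((Real.continuous_sqrt.tendsto _).comp (tx.mul ty)).mul (tx.add ty)
    · positivity
  have tQ : Tendsto (fun N => sigQ (x N) (y N)) atTop (𝓝 (sigQ x0 y0)) := by
    unfold sigQ
    apply tx.div
    · exact ((Real.continuous_sqrt.tendsto _).comp (tx.mul ty)).mul (tx.add ty)
    · positivity
  constructor
  · simp_rw [f1]
    apply Tendsto.add
    · apply Tendsto.const_mul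
      apply tP.mul
      apply Tendsto.div_const
      apply Tendsto.div_const
      exact ((tx.const_mul 2).const_add 1).sub (tx.pow 2)
    · apply Tendsto.const_mul
      apply tQ.mul
      apply Tendsto.div_const
      apply Tendsto.div_const
      exact ((ty.const_mul 2).const_sub 1).sub (ty.pow 2)
  · simp_rw [f2]
    apply Tendsto.add
    · apply Tendsto.const_mul
      apply tP.mul
      apply Tendsto.div_const
      apply Tendsto.div_const
      exact ((tx.pow 2).add (tx.const_mul 2)).sub_const 1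
    · apply Tendsto.const_mul
      apply tQ.mul
      apply Tendsto.div_const
      apply Tendsto.div_const
      exact ((ty.pow 2).sub (ty.const_mul 2)).sub_const 1

lemma V_tendsto (a : Bool) {J : ℕ → ℕ} {k : ℕ} {τ : ℕ → ℝ} {t : ℝ}
    (h1 : Tendsto (fun N => (gk (J N)).X1 (τ N)) atTop (𝓝 ((gk k).X1 t)))
    (h2 : Tendsto (fun N => (gk (J N)).X2 (τ N)) atTop (𝓝 ((gk k).X2 t))) :
    Tendsto (fun N => V ((gs a (J N)).w (τ N)) ((gs a (J N)).s (τ N))) atTop
      (𝓝 (V ((gs a k).w t) ((gs a k).s t))) := by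
  unfold Geo.w Geo.s
  cases a
  · have key := (continuous_VX.tendsto ((gk k).X2 t, (gk k).X1 t)).comp (h2.prodMk_nhds h1)
    exact key
  · have key := (continuous_VX.tendsto ((gk k).X1 t, (gk k).X2 t)).comp (h1.prodMk_nhds h2)
    exact key

theorem cur_recurrent {t₀ : ℝ} (ht₀ : 0 ≤ t₀) : ∃ τ : ℕ → ℝ, Tendsto τ atTop atTop ∧
    Tendsto (fun N => cur (τ N)) atTop (𝓝 (cur t₀)) := by
  obtain ⟨J, hJ, hJ1, hJ2, hJa, tx, ty, tr⟩ := exists_seq (kk t₀)
  have h1 := mm_kk_le ht₀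
  have h2 := lt_mm_kk t₀
  set k := kk t₀ with hk
  set u := t₀ - mm k with hu
  have hu0 : 0 ≤ u := by linarith
  have hu1 : Real.exp u < rho k := by
    have h3 : mm (k+1) = mm k + Real.log (rho k) := rfl
    rw [← Real.lt_log_iff_exp_lt (rho_pos _)]
    linarith
  have hev : ∀ᶠ N in atTop, Real.exp u < rho (J N) := tr.eventually (lt_mem_nhds hu1)
  have hkk : ∀ᶠ N in atTop, cur (mm (J N) + u) = cell (aa k) (J N) (mm (J N) + u) := by
    filter_upwards [hev] with N hN
    have h3 : mm (J N + 1) = mm (J N) + Real.log (rho (J N)) := rfl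
    have h4 : u < Real.log (rho (J N)) := by rwa [Real.lt_log_iff_exp_lt (rho_pos _)]
    unfold cur
    rw [kk_unique (k := J N) (by linarith) (by linarith), hJa N]
  refine ⟨fun N => mm (J N) + u, ?_, ?_⟩
  · have h5 : Tendsto (fun N : ℕ => (N:ℝ) / 2) atTop atTop :=
      tendsto_natCast_atTop_atTop.atTop_div_const (by norm_num)
    refine tendsto_atTop_mono (fun N => ?_) h5
    have h6 := mm_ge (J N)
    have h7 : (N:ℝ) ≤ J N := by exact_mod_cast hJ N
    linarith
  · have hcur : cur t₀ = cell (aa k) k (mm k + u) := by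
      unfold cur; rw [← hk, hu]; congr 1; ring
    rw [hcur]
    refine Tendsto.congr' (f₁ := fun N => cell (aa k) (J N) (mm (J N) + u)) ?_ ?_
    · filter_upwards [hkk] with N hN
      exact hN.symm
    · obtain ⟨t1, t2⟩ := mk_tendsto (fun N => mm (J N)) (mm k) u (fun N => xx_pos _) (fun N => yy_pos _)
        (xx_pos k) (yy_pos k) tx ty
      have t1' : Tendsto (fun N => (gk (J N)).X1 (mm (J N) + u)) atTop (𝓝 ((gk k).X1 (mm k + u))) := t1
      have t2' : Tendsto (fun N => (gk (J N)).X2 (mm (J N) + u)) atTop (𝓝 ((gk k).X2 (mm k + u))) := t2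
      unfold cell
      simp_rw [hJ1, hJ2]
      have t3 := V_tendsto (aa k) t1' t2'
      have t4 := ((KK (aa k) (e1 k) (e2 k)).continuous.tendsto
        (V ((gs (aa k) k).w (mm k + u)) ((gs (aa k) k).s (mm k + u)))).comp t3
      exact t4

end H64.Ray
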