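import Pool.Agent.H64.Ray.Calib

set_option autoImplicit false

open MeasureTheory intervalIntegral Set Filter Topology Real

namespace H64.Ray

/-- cut-off function -/
noncomputable def chi (T : ℝ) : ℝ := Real.smoothTransition (15 * T ^ 2 - 5)

/-- the density of the street coordinate with respect to the angle -/
noncomputable def gh (T : ℝ) : ℝ := (1 - chi T) * (1 - 2 * T ^ 2)⁻¹ + 4 * chi T

lemma chi_nonneg (T : ℝ) : 0 ≤ chi T := Real.smoothTransition.nonneg _
lemma chi_le_one (T : ℝ) : chi T ≤ 1 := Real.smoothTransition.le_one _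
lemma chi_zero {T : ℝ} (h : T ^ 2 ≤ 1/3) : chi T = 0 :=
  Real.smoothTransition.zero_of_nonpos (by linarith)
lemma chi_one {T : ℝ} (h : 2/5 ≤ T ^ 2) : chi T = 1 :=
  Real.smoothTransition.one_of_one_le (by linarith)

lemma gh_neg (T : ℝ) : gh (-T) = gh T := by simp [gh, chi]

lemma gh_eq {T : ℝ} (h : T ^ 2 ≤ 1/3) : gh T = (1 - 2 * T ^ 2)⁻¹ := by
  simp [gh, chi_zero h]

lemma gh_eq' {T : ℝ} (h : 2/5 ≤ T ^ 2) : gh T = 4 := by
  simp [gh, chi_one h]

lemma one_le_gh (T : ℝ) : 1 ≤ gh T := by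
  by_cases h : 2/5 ≤ T ^ 2
  · rw [gh_eq' h]; norm_num
  · push Not at h
    have h1 : 1 ≤ (1 - 2 * T ^ 2)⁻¹ := by
      rw [one_le_inv₀ (by linarith)]; nlinarith [sq_nonneg T]
    have h2 := chi_nonneg T
    have h3 := chi_le_one T
    unfold gh
    nlinarith

lemma three_le_gh {T : ℝ} (h : 1/3 ≤ T ^ 2) : 3 ≤ gh T := by
  by_cases h' : 2/5 ≤ T ^ 2
  · rw [gh_eq' h']; norm_num
  · push Not at h'
    have h1 : 3 ≤ (1 - 2 * T ^ 2)⁻¹ := by
      rw [le_inv_comm₀ (by norm_num) (by linarith)]; linarith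
    have h2 := chi_nonneg T
    have h3 := chi_le_one T
    unfold gh
    nlinarith

lemma gh_pos (T : ℝ) : 0 < gh T := lt_of_lt_of_le one_pos (one_le_gh T)

lemma contDiff_chi : ContDiff ℝ (⊤ : ℕ∞) chi := by
  unfold chi
  exact Real.smoothTransition.contDiff.comp (by fun_prop)

lemma contDiff_gh : ContDiff ℝ (⊤ : ℕ∞) gh := by
  rw [contDiff_iff_contDiffAt]
  intro T
  by_cases h : T ^ 2 < 1/2
  · have h1 : ContDiffAt ℝ (⊤ : ℕ∞) (fun T : ℝ => (1 - 2 * T ^ 2)⁻¹) T := by
      apply ContDiffAt.inv (by fun_prop)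
      have : 0 < 1 - 2 * T ^ 2 := by linarith
      exact this.ne'
    exact ((contDiffAt_const.sub contDiff_chi.contDiffAt).mul h1).add
      (contDiffAt_const.mul contDiff_chi.contDiffAt)
  · push Not at h
    have h2 : gh =ᶠ[𝓝 T] fun _ => 4 := by
      have : ∀ᶠ x : ℝ in 𝓝 T, 2/5 < x ^ 2 := by
        have hc : ContinuousAt (fun x : ℝ => x ^ 2) T := by fun_prop
        exact hc.eventually (lt_mem_nhds (by linarith))
      filter_upwards [this] with x hx
      exact gh_eq' hx.le
    exact contDiffAt_const.congr_of_eventuallyEq h2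

lemma continuous_gh : Continuous gh := contDiff_gh.continuous

/-- the street coordinate as a function of the angle -/
noncomputable def sg (η : ℝ) : ℝ := ∫ x in (0:ℝ)..η, gh (Real.sin x)

/-- quarter of the length of the closed street geodesic -/
noncomputable def ell : ℝ := sg (π / 2)

lemma continuous_ghsin : Continuous (fun x => gh (Real.sin x)) :=
  continuous_gh.comp Real.continuous_sin

lemma hasDerivAt_sg (η : ℝ) : HasDerivAt sg (gh (Real.sin η)) η :=
  intervalIntegral.integral_hasDerivAt_right (continuous_ghsin.intervalIntegrable _ _)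
    continuous_ghsin.stronglyMeasurable.stronglyMeasurableAtFilter continuous_ghsin.continuousAt

lemma deriv_sg : deriv sg = fun η => gh (Real.sin η) := by
  ext η; exact (hasDerivAt_sg η).deriv

lemma contDiff_sg : ContDiff ℝ (⊤ : ℕ∞) sg := by
  rw [contDiff_infty_iff_deriv]
  refine ⟨fun η => (hasDerivAt_sg η).differentiableAt, ?_⟩
  rw [deriv_sg]
  exact contDiff_gh.comp Real.contDiff_sin

lemma sg_zero : sg 0 = 0 := by simp [sg]

lemma strictMono_sg : StrictMono sg := by
  apply strictMono_of_deriv_pos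
  intro x
  rw [deriv_sg]
  exact gh_pos _

lemma sg_neg (η : ℝ) : sg (-η) = - sg η := by
  have h : ∀ x, HasDerivAt (fun x => sg (-x) + sg x) 0 x := by
    intro x
    have h1 : HasDerivAt (fun x => sg (-x)) (gh (Real.sin (-x)) * (-1)) x :=
      (hasDerivAt_sg (-x)).comp x (hasDerivAt_neg x)
    have h2 : HasDerivAt (fun x => sg (-x) + sg x) _ x := h1.add (hasDerivAt_sg x)
    rw [Real.sin_neg, gh_neg] at h2
    exact h2.congr_deriv (by ring)
  have h2 : ∀ x, sg (-x) + sg x = sg (-0) + sg 0 := by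
    intro x
    exact is_const_of_deriv_eq_zero (f := fun x => sg (-x) + sg x)
      (fun x => (h x).differentiableAt) (fun x => (h x).deriv) x 0
  have h3 := h2 η
  simp [sg_zero] at h3
  linarith

lemma sg_pi_sub (η : ℝ) : sg (π - η) + sg η = 2 * ell := by
  have h : ∀ x, HasDerivAt (fun x => sg (π - x) + sg x) 0 x := by
    intro x
    have h1 : HasDerivAt (fun x => sg (π - x)) (gh (Real.sin (π - x)) * (-1)) x :=
      (hasDerivAt_sg (π - x)).comp x ((hasDerivAt_id x).const_sub π)
    have h2 : HasDerivAt (fun x => sg (π - x) + sg x) _ x := h1.add (hasDerivAt_sg x)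
    rw [Real.sin_pi_sub] at h2
    exact h2.congr_deriv (by ring)
  have h3 := is_const_of_deriv_eq_zero (f := fun x => sg (π - x) + sg x)
      (fun x => (h x).differentiableAt) (fun x => (h x).deriv) η (π/2)
  rw [h3, show π - π/2 = π/2 by ring]
  unfold ell; ring

lemma sg_add_pi (η : ℝ) : sg (η + π) = sg η + 2 * ell := by
  have h := sg_pi_sub (-η)
  rw [sg_neg, show π - -η = η + π by ring] at h
  linarith

lemma sg_add_int_pi (η : ℝ) (n : ℤ) : sg (η + n * π) = sg η + n * (2 * ell) := by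
  induction n using Int.induction_on with
  | zero => simp
  | succ n ih =>
    rw [show η + ((n:ℤ) + 1 : ℤ) * π = (η + (n:ℤ) * π) + π by push_cast; ring, sg_add_pi, ih]
    push_cast; ring
  | pred n ih =>
    have h := sg_add_pi (η + ((-(n:ℤ) - 1 : ℤ) : ℝ) * π)
    rw [show η + ((-(n:ℤ) - 1 : ℤ) : ℝ) * π + π = η + ((-(n:ℤ) : ℤ) : ℝ) * π by push_cast; ring, ih] at h
    push_cast at h ⊢
    linarith

lemma le_sg {η : ℝ} (h : 0 ≤ η) : η ≤ sg η := by
  have : ∫ x in (0:ℝ)..η, (1:ℝ) ≤ ∫ x in (0:ℝ)..η, gh (Real.sin x) := by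
    apply intervalIntegral.integral_mono_on h
    · simp
    · exact continuous_ghsin.intervalIntegrable _ _
    · intro x _; exact one_le_gh _
  simpa [sg] using this

lemma three_le_ell : 3 ≤ ell := by
  have h1 : ell = sg (π/4) + ∫ x in (π/4)..(π/2), gh (Real.sin x) := by
    unfold ell sg
    rw [intervalIntegral.integral_add_adjacent_intervals
      (continuous_ghsin.intervalIntegrable _ _) (continuous_ghsin.intervalIntegrable _ _)]
  have h2 : ∫ x in (π/4)..(π/2), (4:ℝ) ≤ ∫ x in (π/4)..(π/2), gh (Real.sin x) := by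
    apply intervalIntegral.integral_mono_on (by linarith [Real.pi_pos])
    · simp
    · exact continuous_ghsin.intervalIntegrable _ _
    · intro x hx
      have h3 : Real.sin (π/4) ≤ Real.sin x := by
        apply Real.sin_le_sin_of_le_of_le_pi_div_two
        · linarith [Real.pi_pos]
        · exact hx.2
        · exact hx.1
      rw [Real.sin_pi_div_four] at h3
      have h4 : (2:ℝ)/5 ≤ Real.sin x ^ 2 := by
        have h5 : (0:ℝ) < √2 := by positivity
        have h6 : √2 ^ 2 = 2 := Real.sq_sqrt (by norm_num)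
        nlinarith
      rw [gh_eq' h4]
  have h3 : 0 ≤ sg (π/4) := le_trans (by positivity) (le_sg (by positivity : (0:ℝ) ≤ π/4))
  have h4 : ∫ x in (π/4)..(π/2), (4:ℝ) = π := by
    simp; ring
  rw [h4] at h2
  linarith [Real.pi_gt_three]

lemma ell_pos : 0 < ell := lt_of_lt_of_le (by norm_num) three_le_ell

lemma sg_surjective : Function.Surjective sg := by
  have hc : Continuous sg := contDiff_sg.continuous
  have h1 : Tendsto sg atTop atTop := by
    apply tendsto_atTop_mono' _ _ tendsto_id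
    filter_upwards [eventually_ge_atTop 0] with x hx
    exact le_sg hx
  have h2 : Tendsto sg atBot atBot := by
    apply tendsto_atBot_mono' _ _ tendsto_id
    filter_upwards [eventually_le_atBot 0] with x hx
    have := le_sg (η := -x) (by linarith)
    rw [sg_neg] at this
    simp only [id]
    linarith
  exact hc.surjective h1 h2

/-- `sg` as a homeomorphism of the line -/
noncomputable def sgHomeo : ℝ ≃ₜ ℝ :=
  (strictMono_sg.orderIsoOfSurjective sg sg_surjective).toHomeomorph

lemma coe_sgHomeo : (sgHomeo : ℝ → ℝ) = sg := rfl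

/-- the angle as a function of the street coordinate -/
noncomputable def Nn : ℝ → ℝ := sgHomeo.symm

lemma sg_Nn (s : ℝ) : sg (Nn s) = s := sgHomeo.apply_symm_apply s
lemma Nn_sg (η : ℝ) : Nn (sg η) = η := sgHomeo.symm_apply_apply η

lemma contDiff_Nn : ContDiff ℝ (⊤ : ℕ∞) Nn := by
  apply Homeomorph.contDiff_symm_deriv (f := sgHomeo) (f' := fun η => gh (Real.sin η))
  · intro x; exact (gh_pos _).ne'
  · intro x; exact hasDerivAt_sg x
  · exact contDiff_sg

lemma hasDerivAt_Nn (s : ℝ) : HasDerivAt Nn (gh (Real.sin (Nn s)))⁻¹ s := by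
  have h1 : DifferentiableAt ℝ Nn s := contDiff_Nn.differentiable (by simp) s
  have h2 : HasDerivAt (fun x => sg (Nn x)) (gh (Real.sin (Nn s)) * deriv Nn s) s :=
    (hasDerivAt_sg (Nn s)).comp s h1.hasDerivAt
  have h3 : (fun x => sg (Nn x)) = id := by ext x; exact sg_Nn x
  rw [h3] at h2
  have h4 := h2.unique (hasDerivAt_id s)
  have h5 : deriv Nn s = (gh (Real.sin (Nn s)))⁻¹ := by
    exact eq_inv_of_mul_eq_one_right h4
  rw [← h5]; exact h1.hasDerivAt

lemma Nn_neg (s : ℝ) : Nn (-s) = - Nn s := by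
  apply strictMono_sg.injective
  rw [sg_neg, sg_Nn, sg_Nn]

lemma Nn_zero : Nn 0 = 0 := by
  have := Nn_sg 0
  rwa [sg_zero] at this

lemma Nn_add_int (s : ℝ) (n : ℤ) : Nn (s + n * (2 * ell)) = Nn s + n * π := by
  apply strictMono_sg.injective
  rw [sg_add_int_pi, sg_Nn, sg_Nn]

lemma Nn_add_two_ell (s : ℝ) : Nn (s + 2 * ell) = Nn s + π := by
  have := Nn_add_int s 1
  simpa using this

lemma Nn_ell : Nn ell = π / 2 := Nn_sg _

lemma strictMono_Nn : StrictMono Nn :=
  (strictMono_sg.orderIsoOfSurjective sg sg_surjective).symm.strictMono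

/-- exactness of the street coordinate near the crossing -/
lemma Nn_exact {s : ℝ} (h : Real.sinh s ^ 2 ≤ 1) : Nn s = Real.arctan (Real.sinh s / Real.cosh s) := by
  -- it suffices to prove sg (arctan (tanh s)) = s
  have key : ∀ s : ℝ, Real.sinh s ^ 2 ≤ 1 → sg (Real.arctan (Real.sinh s / Real.cosh s)) = s := by
    have hder : ∀ x : ℝ, Real.sinh x ^ 2 ≤ 1 →
        HasDerivAt (fun x => sg (Real.arctan (Real.sinh x / Real.cosh x)) - x) 0 x := by
      intro x hx
      have hc : 0 < Real.cosh x := Real.cosh_pos x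
      have hcs : Real.cosh x ^ 2 = 1 + Real.sinh x ^ 2 := by rw [Real.cosh_sq]; ring
      have h1 : HasDerivAt (fun x => Real.sinh x / Real.cosh x)
            ((Real.cosh x * Real.cosh x - Real.sinh x * Real.sinh x) / Real.cosh x ^ 2) x :=
          (Real.hasDerivAt_sinh x).div (Real.hasDerivAt_cosh x) hc.ne'
      have h2 := h1.arctan
      have h3 := (hasDerivAt_sg (Real.arctan (Real.sinh x / Real.cosh x))).comp x h2
      have h5 : Real.sin (Real.arctan (Real.sinh x / Real.cosh x)) ^ 2 =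
          Real.sinh x ^ 2 / (1 + 2 * Real.sinh x ^ 2) := by
        rw [Real.sin_arctan, div_pow, Real.sq_sqrt (by positivity)]
        have : (1:ℝ) + 2 * Real.sinh x ^ 2 ≠ 0 := by positivity
        field_simp
        rw [hcs]; ring
      have h6 : Real.sin (Real.arctan (Real.sinh x / Real.cosh x)) ^ 2 ≤ 1/3 := by
        rw [h5, div_le_iff₀ (by positivity)]; linarith
      have h4 : gh (Real.sin (Real.arctan (Real.sinh x / Real.cosh x))) *
          (1 / (1 + (Real.sinh x / Real.cosh x) ^ 2) *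
            ((Real.cosh x * Real.cosh x - Real.sinh x * Real.sinh x) / Real.cosh x ^ 2)) = 1 := by
        rw [gh_eq h6, h5]
        have h7 : (1:ℝ) + 2 * Real.sinh x ^ 2 ≠ 0 := by positivity
        have h8 : 1 - 2 * (Real.sinh x ^ 2 / (1 + 2 * Real.sinh x ^ 2)) =
            1 / (1 + 2 * Real.sinh x ^ 2) := by
          field_simp; ring
        rw [h8]
        have h9 : Real.cosh x * Real.cosh x - Real.sinh x * Real.sinh x = 1 := by
          nlinarith
        rw [h9, div_pow, hcs]
        have h10 : (1:ℝ) + Real.sinh x ^ 2 ≠ 0 := by positivity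
        have h11 : 1 + Real.sinh x ^ 2 / (1 + Real.sinh x ^ 2) =
            (1 + 2 * Real.sinh x ^ 2) / (1 + Real.sinh x ^ 2) := by
          field_simp; ring
        rw [h11]
        field_simp
      rw [h4] at h3
      have h10 : HasDerivAt (fun x => sg (Real.arctan (Real.sinh x / Real.cosh x)) - x) _ x :=
        h3.sub (hasDerivAt_id x)
      exact h10.congr_deriv (by ring)
    have hpos : ∀ s : ℝ, 0 ≤ s → Real.sinh s ^ 2 ≤ 1 →
        sg (Real.arctan (Real.sinh s / Real.cosh s)) = s := by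
      intro s hs h
      have hmono : ∀ x : ℝ, 0 ≤ x → x ≤ s → Real.sinh x ^ 2 ≤ 1 := by
        intro x hx hxs
        have h1 : Real.sinh x ≤ Real.sinh s := Real.sinh_le_sinh.mpr hxs
        have h2 : 0 ≤ Real.sinh x := Real.sinh_nonneg_iff.mpr hx
        nlinarith
      have h1 : ∀ x ∈ Set.Icc (0:ℝ) s,
          HasDerivAt (fun x => sg (Real.arctan (Real.sinh x / Real.cosh x)) - x) 0 x :=
        fun x hx => hder x (hmono x hx.1 hx.2)
      have h2 := constant_of_has_deriv_right_zero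
        (f := fun x => sg (Real.arctan (Real.sinh x / Real.cosh x)) - x)
        (a := 0) (b := s) (fun x hx => (h1 x hx).continuousAt.continuousWithinAt)
        (fun x hx => (h1 x ⟨hx.1, hx.2.le⟩).hasDerivWithinAt) s ⟨hs, le_rfl⟩
      simp [sg_zero] at h2
      linarith
    intro s h
    rcases le_total 0 s with hs | hs
    · exact hpos s hs h
    · have h1 := hpos (-s) (by linarith) (by rw [Real.sinh_neg]; simpa using h)
      rw [Real.sinh_neg, Real.cosh_neg, neg_div, Real.arctan_neg, sg_neg] at h1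
      linarith
  rw [← key s h, Nn_sg, key s h]

lemma sqrt_aux (s : ℝ) : 0 < Real.cosh s ^ 2 + Real.sinh s ^ 2 := by
  have := Real.cosh_pos s
  positivity

lemma sin_Nn_exact {s : ℝ} (h : Real.sinh s ^ 2 ≤ 1) :
    Real.sin (Nn s) = Real.sinh s / √(Real.cosh s ^ 2 + Real.sinh s ^ 2) := by
  rw [Nn_exact h, Real.sin_arctan]
  have hc : 0 < Real.cosh s := Real.cosh_pos s
  have h1 : √(1 + (Real.sinh s / Real.cosh s) ^ 2) =
      √(Real.cosh s ^ 2 + Real.sinh s ^ 2) / Real.cosh s := by
    have h2 : 1 + (Real.sinh s / Real.cosh s) ^ 2 =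
        (Real.cosh s ^ 2 + Real.sinh s ^ 2) / Real.cosh s ^ 2 := by
      field_simp
    rw [h2, Real.sqrt_div (sqrt_aux s).le, Real.sqrt_sq hc.le]
  rw [h1]
  field_simp

lemma cos_Nn_exact {s : ℝ} (h : Real.sinh s ^ 2 ≤ 1) :
    Real.cos (Nn s) = Real.cosh s / √(Real.cosh s ^ 2 + Real.sinh s ^ 2) := by
  rw [Nn_exact h, Real.cos_arctan]
  have hc : 0 < Real.cosh s := Real.cosh_pos s
  have h1 : √(1 + (Real.sinh s / Real.cosh s) ^ 2) =
      √(Real.cosh s ^ 2 + Real.sinh s ^ 2) / Real.cosh s := by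
    have h2 : 1 + (Real.sinh s / Real.cosh s) ^ 2 =
        (Real.cosh s ^ 2 + Real.sinh s ^ 2) / Real.cosh s ^ 2 := by
      field_simp
    rw [h2, Real.sqrt_div (sqrt_aux s).le, Real.sqrt_sq hc.le]
  rw [h1]
  field_simp

lemma gh_Nn_exact {s : ℝ} (h : Real.sinh s ^ 2 ≤ 1) :
    gh (Real.sin (Nn s)) = Real.cosh s ^ 2 + Real.sinh s ^ 2 := by
  have hcs : Real.cosh s ^ 2 = 1 + Real.sinh s ^ 2 := by rw [Real.cosh_sq]; ring
  have h1 : Real.sin (Nn s) ^ 2 = Real.sinh s ^ 2 / (1 + 2 * Real.sinh s ^ 2) := by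
    rw [sin_Nn_exact h, div_pow, Real.sq_sqrt (sqrt_aux s).le, hcs]
    congr 1; ring
  have h2 : (1:ℝ) + 2 * Real.sinh s ^ 2 ≠ 0 := by positivity
  have h3 : Real.sin (Nn s) ^ 2 ≤ 1/3 := by
    rw [h1, div_le_iff₀ (by positivity)]; linarith
  rw [gh_eq h3, h1, hcs]
  have h8 : 1 - 2 * (Real.sinh s ^ 2 / (1 + 2 * Real.sinh s ^ 2)) =
      1 / (1 + 2 * Real.sinh s ^ 2) := by
    field_simp; ring
  rw [h8]
  field_simp
  ring

end H64.Ray
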